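import Pool.Agent.Q161.SX.All
import Pool.Agent.Q161.SX.Top
import Pool.Agent.Q161.SH.SX
import Pool.Agent.Q16.SX.TRA

/-!
# Project HS (helper30): the integers of `L` attached to the sections of the twists

From the pieces of helper161's project SX (starting library `Pool/Agent/Q161/SX`): the sections of the curves
`D y ^ 2 = g(x)` give elements of finitely many sets of integers of `L` with the local conditions `Ty1`, `Ty2`.
-/

set_option autoImplicit false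
set_option linter.all false

namespace Pool.Agent.H30S

open Polynomial NumberField IsDedekindDomain
open Pool.Agent.Q51.EL
open Pool.Agent.Q161.SX
open Pool.Agent.W620.SC (GSection unramified)

theorem at_sec (g : ℤ[X]) (L : Type) [Field L] [NumberField L] (θ : L) (hS : Setup g L θ)
    (hev : Even g.natDegree) (h6 : 6 ≤ g.natDegree) :
    ∃ (B : ℕ) (C : ℝ) (N : ℕ) (T : Fin N → Set (𝓞 L)), B ≠ 0 ∧ 0 < C ∧
      (∀ k, ∀ l : ℕ, l.Prime → ¬ l ∣ B → Ty1 l (T k) ∧ Ty2 l (T k)) ∧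
      ∀ D : ℤ, Squarefree D → HasSec.{0, 0} g D →
        ∃ k, ∃ α ∈ T k, (∀ l : ℕ, l.Prime → ¬ l ∣ B → ((l : ℤ) ∣ D ↔
            ∃ v : HeightOneSpectrum (𝓞 L), Abv v l ∧ α ∈ v.asIdeal)) ∧
          ∀ σ : L →+* ℂ, ‖σ (α : L)‖ ≤ C * (D.natAbs : ℝ) ^ ((1 : ℝ) / g.natDegree) := by
  classical
  obtain ⟨B0, hB0, hSc⟩ := Pool.Agent.Q161.SH.secx.{0, 0} g hS.irr.separable hev (by omega)
  obtain ⟨A, iA, iA', hA⟩ := closure_ex ℚ
  obtain ⟨B, C, N, T, hB, hC, hT, h⟩ := t_ar.{0} g L θ hS (by omega) A B0 hB0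
  refine ⟨B, C, N, T, hB, hC, hT, ?_⟩
  rintro D h2 ⟨F, Ω, i1, i2, i3, i4, i5, i6, i7, i8, U, x, y, hU, ⟨G⟩, hxy, hx⟩
  obtain ⟨S', hS'⟩ := hSc D h2 F Ω U hU G x y hxy hx
  obtain ⟨e0⟩ := equiv_ex ℚ A Ω
  obtain ⟨e⟩ := rat_equiv A (algebraicClosure ℚ Ω) e0
  obtain ⟨S, hS2⟩ := Pool.Agent.Q16.SX.tra g A (algebraicClosure ℚ Ω) (unramified F Ω U) e S' D B0 hS'
  exact h D _ S h2 hS2

end Pool.Agent.H30S
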