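import Pool.Agent.H30S.Stm
import Pool.Agent.H30Q.Main2

/-! # Piece BDS: types -/

set_option autoImplicit false
set_option linter.all false

open Polynomial IsDedekindDomain Matrix NumberField Filter Topology
open scoped Classical

namespace Pool.Agent.H30S

open Pool.Agent.H30Q
open Pool.Agent.H30Q.AsmP (sgn Zr)
open Pool.Agent.N874.PP (Ev)

namespace BDS

/-- an instance of the type `(m, g)` -/
structure Ins (n M W : ℕ) (f : ℤ[X]) (F : Finset ℕ) (r : ℕ) (A : Fin r → ℤ[X]) (S : Set ℤ[X])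
    (b : ℕ) (m : ℤ) (g : ∀ p ∈ F, ℕ × Bool) (q R : ℕ) (Y : ℤ[X]) (e : ℤ) : Prop where
  pr : q.Prime
  big : b < q
  qW : ¬ q ∣ W
  qF : q ∉ F
  qR : ¬ q ∣ R
  sqf : Squarefree R
  loc : ∀ l : ℕ, l.Prime → l ∣ R → l ∉ F ∧ ¬ l ∣ W ∧ ∀ i, LocSq l f (A i)
  mem : Y ∈ S
  pol : PolD n M W f ((∏ p ∈ F, (p : ℤ)) * (q * R)) m Y
  ef : (q : ℤ) ∣ f.eval e
  eY : (q : ℤ) ∣ Y.eval e
  cF : ∀ (p : ℕ) (hp : p ∈ F), (p : ℤ) ∣ f.eval ((g p hp).1 : ℤ) ∧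
    (p : ℤ) ∣ Y.eval ((g p hp).1 : ℤ) ∧ (IsSquare ((q * R : ℕ) : ZMod p) ↔ (g p hp).2 = true)

/-- the product of two squares or of two non-squares -/
lemma sq_of {p : ℕ} [Fact p.Prime] {a b : ZMod p} (ha : a ≠ 0) (hb : b ≠ 0)
    (h : IsSquare a ↔ IsSquare b) : IsSquare (a * b) := by
  by_cases h1 : IsSquare a
  · exact h1.mul (h.1 h1)
  · have h2 : ¬ IsSquare b := fun hc => h1 (h.2 hc)
    rw [← quadraticChar_one_iff_isSquare (mul_ne_zero ha hb), map_mul,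
      quadraticChar_neg_one_iff_not_isSquare.2 h1, quadraticChar_neg_one_iff_not_isSquare.2 h2]
    norm_num

/-- reduce the zero modulo `p` -/
lemma eval_emod (p : ℕ) (Y : ℤ[X]) (e : ℤ) (h : (p : ℤ) ∣ Y.eval e) :
    (p : ℤ) ∣ Y.eval (e % p) := by
  have h1 : (e - e % p) ∣ Y.eval e - Y.eval (e % p) := Polynomial.sub_dvd_eval_sub _ _ _
  have h2 : (p : ℤ) ∣ e - e % p := Int.dvd_self_sub_emod
  exact (dvd_sub_right h).1 (h2.trans h1)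

/-- every instance has a type -/
lemma exists_type {n M W : ℕ} {f : ℤ[X]} {F : Finset ℕ} (hF : ∀ p ∈ F, p.Prime ∧ ¬ p ∣ W)
    {q R : ℕ} (hq : q.Prime) (hqW : ¬ q ∣ W) {m : ℤ} {Y : ℤ[X]}
    (pol : PolD n M W f ((∏ p ∈ F, (p : ℤ)) * (q * R)) m Y) :
    ∃ g ∈ F.pi (fun p => Zr p f ×ˢ (Finset.univ : Finset Bool)), ∃ e : ℤ,
      (q : ℤ) ∣ f.eval e ∧ (q : ℤ) ∣ Y.eval e ∧ ∀ (p : ℕ) (hp : p ∈ F),
      (p : ℤ) ∣ f.eval ((g p hp).1 : ℤ) ∧ (p : ℤ) ∣ Y.eval ((g p hp).1 : ℤ) ∧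
      (IsSquare ((q * R : ℕ) : ZMod p) ↔ (g p hp).2 = true) := by
  obtain ⟨e, he1, he2⟩ := pol.ex q hq hqW (Dvd.dvd.mul_left (Dvd.intro _ rfl) _)
  have hc : ∀ p ∈ F, ∃ c : ℕ, c ∈ Zr p f ∧ (p : ℤ) ∣ Y.eval (c : ℤ) := by
    intro p hp
    have hpp := (hF p hp).1
    obtain ⟨e', h1, h2⟩ := pol.ex p hpp (hF p hp).2
      (Dvd.dvd.mul_right (Finset.dvd_prod_of_mem (fun p : ℕ => (p : ℤ)) hp) _)
    have hp0 : (0 : ℤ) < p := by exact_mod_cast hpp.pos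
    have h3 : 0 ≤ e' % p := Int.emod_nonneg _ hp0.ne'
    have h4 : e' % p < p := Int.emod_lt_of_pos _ hp0
    have h5 : ((e' % p).toNat : ℤ) = e' % p := Int.toNat_of_nonneg h3
    refine ⟨(e' % p).toNat, ?_, ?_⟩
    · unfold AsmP.Zr
      rw [Finset.mem_filter, Finset.mem_range]
      refine ⟨by omega, ?_⟩
      rw [h5]
      exact eval_emod p f e' h1
    · rw [h5]
      exact eval_emod p Y e' h2
  choose! c hc1 hc2 using hc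
  refine ⟨fun p _ => (c p, decide (IsSquare ((q * R : ℕ) : ZMod p))), ?_, e, he1, he2, ?_⟩
  · rw [Finset.mem_pi]
    intro p hp
    exact Finset.mem_product.2 ⟨hc1 p hp, Finset.mem_univ _⟩
  · intro p hp
    refine ⟨(Finset.mem_filter.1 (hc1 p hp)).2, hc2 p hp, ?_⟩
    exact (decide_eq_true_iff (p := IsSquare ((q * R : ℕ) : ZMod p))).symm

/-- two instances of the same type -/
lemma compare (hCMP : P_CMP) {n M W : ℕ} {f : ℤ[X]} {L : Type} [Field L] [NumberField L] {θ : L}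
    (hn : 6 ≤ n) (hev : Even n) (hRt : Rt n f θ) (hGW : GW n f θ W) {F : Finset ℕ}
    (hF : ∀ p ∈ F, p.Prime ∧ ¬ p ∣ W) {r : ℕ} {A : Fin r → ℤ[X]} (hA : Cl2 W f θ F r A)
    {S : Set ℤ[X]}
    (hS : ∀ Y ∈ S, ∀ Y' ∈ S, ∀ p : ℕ, p.Prime → ¬ p ∣ W → ∀ e : ℤ, (p : ℤ) ∣ f.eval e →
      (p : ℤ) ∣ Y.eval e → (p : ℤ) ∣ Y'.eval e → Cpl p f e Y Y')
    {b : ℕ} (hb : ∀ q : ℕ, q.Prime → b < q → ∀ i, IsCoprime (rd q (A i)) (rd q f))
    {m : ℤ} {g : ∀ p ∈ F, ℕ × Bool} {q R q' R' : ℕ} {Y Y' : ℤ[X]} {e e' : ℤ}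
    (h : Ins n M W f F r A S b m g q R Y e) (h' : Ins n M W f F r A S b m g q' R' Y' e')
    (hne : q ≠ q') (hqR' : ¬ q ∣ R') : ∀ i, sgn (A i) q e = sgn (A i) q' e' := by
  have hnz : ∀ {q R : ℕ} {Y : ℤ[X]} {e : ℤ}, Ins n M W f F r A S b m g q R Y e →
      ∀ p ∈ F, ((q * R : ℕ) : ZMod p) ≠ 0 := by
    intro q R Y e h p hp h0
    rw [ZMod.natCast_eq_zero_iff] at h0
    rcases (Nat.Prime.dvd_mul (hF p hp).1).1 h0 with h1 | h1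
    · exact h.qF (((Nat.prime_dvd_prime_iff_eq (hF p hp).1 h.pr).1 h1) ▸ hp)
    · exact (h.loc p (hF p hp).1 h1).1 hp
  refine hCMP n W f L θ hn hev hRt hGW F hF r A hA q q' R R' h.pr h'.pr hne h.qW h'.qW h.qF h'.qF
    h.qR hqR' h'.qR h.sqf.ne_zero h'.sqf.ne_zero h.sqf ?_ ?_ Y Y' m e e' h.pol.m0 h.pol.mW
    h.pol.nm h'.pol.nm h.ef h.eY h'.ef h'.eY ?_
  · intro l hl hd
    rcases hd with hd | hd
    · exact h.loc l hl hd
    · exact h'.loc l hl hd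
  · exact fun i => ⟨hb q h.pr h.big i, hb q' h'.pr h'.big i⟩
  · intro p hp
    haveI : Fact p.Prime := ⟨(hF p hp).1⟩
    obtain ⟨h1, h2, h3⟩ := h.cF p hp
    obtain ⟨-, h5, h6⟩ := h'.cF p hp
    refine ⟨?_, _, h1, h2, h5, hS Y h.mem Y' h'.mem p (hF p hp).1 (hF p hp).2 _ h1 h2 h5⟩
    rw [Nat.cast_mul]
    exact sq_of (hnz h p hp) (hnz h' p hp) (h3.trans h6.symm)

end BDS

open BDS in
theorem t_BDS : S_BDS := by
  intro _ hCMP n W f L _ _ θ hn hev hRt hGW F hF r A hA M N T hT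
  have hb : ∀ i, ∃ B : ℕ, ∀ q : ℕ, q.Prime → B < q → IsCoprime (rd q (A i)) (rd q f) :=
    fun i => AsmP.cop_mod hRt.mon (AsmP.cop_of hRt (hA.ne i))
  choose b hb using hb
  have hb₀ : ∀ q : ℕ, q.Prime → ∑ i, b i < q → ∀ i, IsCoprime (rd q (A i)) (rd q f) := by
    intro q hq hqb i
    refine hb i q hq ?_
    have := Finset.single_le_sum (f := b) (fun _ _ => Nat.zero_le _) (Finset.mem_univ i)
    omega
  set b₀ := ∑ i, b i with hb₀def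
  -- the types
  let Ty := Fin N × ℤ × (∀ p ∈ F, ℕ × Bool)
  let TY : Finset Ty := (Finset.univ : Finset (Fin N)) ×ˢ (Finset.Icc (-(M : ℤ)) M) ×ˢ
    F.pi (fun p => Zr p f ×ˢ (Finset.univ : Finset Bool))
  have hch : ∀ t : Ty, ∃ (q R : ℕ) (e : ℤ), ∀ (q₁ R₁ : ℕ) (Y₁ : ℤ[X]) (e₁ : ℤ),
      Ins n M W f F r A (T t.1) b₀ t.2.1 t.2.2 q₁ R₁ Y₁ e₁ →
      ∃ Y, Ins n M W f F r A (T t.1) b₀ t.2.1 t.2.2 q R Y e := by
    intro t
    by_cases h : ∃ (q₁ R₁ : ℕ) (Y₁ : ℤ[X]) (e₁ : ℤ),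
        Ins n M W f F r A (T t.1) b₀ t.2.1 t.2.2 q₁ R₁ Y₁ e₁
    · obtain ⟨q₁, R₁, Y₁, e₁, h⟩ := h
      exact ⟨q₁, R₁, e₁, fun _ _ _ _ _ => ⟨Y₁, h⟩⟩
    · exact ⟨0, 0, 0, fun q₁ R₁ Y₁ e₁ h' => absurd ⟨q₁, R₁, Y₁, e₁, h'⟩ h⟩
  choose qt Rt' et hch using hch
  refine ⟨TY.image fun t => fun i => sgn (A i) (qt t) (et t), ?_,
    b₀ + ∑ t ∈ TY, (qt t + Rt' t), ?_⟩
  · refine Finset.card_image_le.trans (le_of_eq ?_)
    rw [Finset.card_product, Finset.card_product, Finset.card_univ, Fintype.card_fin,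
      Finset.card_pi, Int.card_Icc, mul_assoc]
    congr 1
    congr 1
    · omega
    · refine Finset.prod_congr rfl fun p _ => ?_
      rw [Finset.card_product, Finset.card_univ, Fintype.card_bool, mul_comm, AsmQ.zer_eq]
  intro q R hq hqB hqW hqF hqR hsq hloc ⟨k, Y, hY, m, hpol⟩
  obtain ⟨g, hg, e, he1, he2, hgF⟩ := exists_type hF hq hqW hpol
  refine ⟨e, he1, ?_⟩
  let t : Ty := (k, m, g)
  have ht : t ∈ TY := by
    refine Finset.mem_product.2 ⟨Finset.mem_univ _, Finset.mem_product.2 ⟨?_, hg⟩⟩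
    have := hpol.mM
    show m ∈ Finset.Icc (-(M : ℤ)) M
    rw [Finset.mem_Icc]
    omega
  have hle : qt t + Rt' t ≤ ∑ t ∈ TY, (qt t + Rt' t) :=
    Finset.single_le_sum (f := fun t => qt t + Rt' t) (fun _ _ => Nat.zero_le _) ht
  have hI : Ins n M W f F r A (T k) b₀ m g q R Y e :=
    ⟨hq, by omega, hqW, hqF, hqR, hsq, hloc, hY, hpol, he1, he2, hgF⟩
  obtain ⟨Y', hI'⟩ := hch t q R Y e hI
  refine Finset.mem_image.2 ⟨t, ht, ?_⟩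
  funext i
  refine (compare hCMP hn hev hRt hGW hF hA (hT k) hb₀ hI hI' (by omega) ?_ i).symm
  intro hd
  have h0 : Rt' t ≠ 0 := hI'.sqf.ne_zero
  have := Nat.le_of_dvd (Nat.pos_of_ne_zero h0) hd
  omega

end Pool.Agent.H30S
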