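import Pool.Agent.H30Q.Stm3
import Pool.Agent.Q51.EL.Def

/-!
# Project HS (helper30): the section conjecture in thin families of hyperelliptic curves

`g` irreducible over `ℚ` of even degree `n ≥ 6`, `f = nz g` monic, `θ` a zero of `f`, `L = ℚ(θ)`. A section of the
fundamental group of `D y ^ 2 = g(x)`, `D` squarefree, gives (library `Q161.SX`, `S_AR`) an element `α` of one of
finitely many sets `T k` of integers of `L`, with norm `D m`, `m` in a finite set. For two such elements `α`, `α'`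
(twists `D = (∏ F) q R`, `D' = (∏ F) q' R'`) of the same type the product formula for the symbols
`ee_l(α α', A i)`, `A i` as in project HQ, gives that the vectors of the Legendre symbols of `A i (e)` at `q` and `q'`
are equal, `e` the zero of `f` modulo `q` which belongs to the section. So the vectors are in a finite set `V` whose
cardinality is the number of the types, and Chebotarev's theorem bounds the density of the `q`.

In terms of polynomials: `Y` in `ℤ[X]` with `Y(θ) = W α`; `nm f Y` is the resultant (norm).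
-/

set_option autoImplicit false
set_option linter.all false

open Polynomial IsDedekindDomain Matrix NumberField Filter Topology
open scoped Classical

namespace Pool.Agent.H30S

open Pool.Agent.H30Q
open Pool.Agent.H30Q.AsmP (sgn)
open Pool.Agent.N874.PP (Ev)
open Pool.Agent.Q51.EL (Abv Ty1 Ty2)

/-- `A` is a square modulo `f` over `ℚ_p`. -/
def LocSq (p : ℕ) (f A : ℤ[X]) : Prop := ∀ h : p.Prime, haveI : Fact p.Prime := ⟨h⟩
  ∃ s : ℚ_[p][X], IsCoprime s (ov ℚ_[p] f) ∧ ov ℚ_[p] f ∣ ov ℚ_[p] A - s ^ 2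

/-- The polynomial `Y` belongs to the twist by `D`. -/
structure PolD (n M W : ℕ) (f : ℤ[X]) (D m : ℤ) (Y : ℤ[X]) : Prop where
  m0 : m ≠ 0
  mM : m.natAbs ≤ M
  mW : ∀ l : ℕ, l.Prime → (l : ℤ) ∣ m → l ∣ W
  nm : nm f Y = D * m * (W : ℤ) ^ n
  ex : ∀ l : ℕ, l.Prime → ¬ l ∣ W → (l : ℤ) ∣ D → ∃ e : ℤ, (l : ℤ) ∣ f.eval e ∧ (l : ℤ) ∣ Y.eval e

/-- The second condition on the pairs of polynomials of the same family. -/
def Cpl (p : ℕ) (f : ℤ[X]) (e : ℤ) (Y Y' : ℤ[X]) : Prop := ∃ (c : ℤ) (Z : ℤ[X]), ¬ (p : ℤ) ∣ c ∧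
  rd p f ∣ rd p ((X - C e) * (C c * Y * Y' - Z ^ 2))

/-! ### Local statements -/

/-- Piece QPH: the symbol at `q` of a polynomial with a simple zero at one place of degree one above `q`.
Proof. Adapt the proof of `t_QPG` in `Pool/Agent/H30Q/QPG.lean`. `f = (X - ρ) G` over `ℤ_q` (Hensel), `ρ = e` modulo
`q` (`PIP.fac` with `x = e`), `G(ρ)` a unit; `δ = Y` over `ℤ_q`. `nm f Y = Y(ρ) * nm G Y` (`QPTP.nm_prod`, `nm_lin`), `Y(ρ) = Y(e) = 0`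
modulo `q` and `nm f Y` has valuation one, so `Y(ρ)` has valuation one and `nm G Y` is a unit, i.e. `δ` and `G` are
coprime over `ℤ_q` (GMB over `ℤ_q`). From there on the proof of `t_QPG` (from `the polynomials` on, with `δ(ρ)` in place of
`x' - ρ`) does not use the special form of `δ`. -/
def S_QPH : Prop := S_GMA → S_GMB → P_BLK → S_LEG → S_UNI →
  ∀ (q : ℕ) [Fact q.Prime], q ≠ 2 → ∀ (n : ℕ) (f Y A : ℤ[X]) (e : ℤ),
  4 ≤ n → Even n → f.Monic → f.natDegree = n → (rd q f).Separable → (q : ℤ) ∣ f.eval e →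
  (q : ℤ) ∣ Y.eval e → nm f Y ≠ 0 → ¬ (q : ℤ) ^ 2 ∣ nm f Y →
  IsCoprime (rd q A) (rd q f) → IsSquare (nm (ov ℚ f) (ov ℚ A)) →
  ee n (ov ℚ_[q] f) (ov ℚ_[q] Y) (ov ℚ_[q] A) = sgn A q e

/-- Piece LOF: two polynomials of the same type at the primes `p` in `F`.
Proof. `f = (X - ρ) G` over `ℤ_p`, `ρ = e` modulo `p`, `G(ρ)` a unit (`PIP.fac`). `nm f Y = Y(ρ) nm G Y`, `Y(ρ) = 0` modulo `p`, so
`v(Y(ρ)) = 1` and `nm G Y` is a unit; the same for `Y'`. So `Y Y'` is a unit modulo `G`. Modulo `p` the polynomial `G` divides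
`c Y Y' - Z ^ 2` (cancel `X - e`), so `Z` is a unit modulo `G` (over `ZMod p`, so over `ℤ_p`: `QPTP.cop_lift`), and by HEN (with `G` in
place of `f`; `4` is a unit) `c Y Y' = s ^ 2` modulo `G` over `ℤ_p`. Taking norms `c ^ (n - 1) nm G (Y Y')` is a square, `n - 1` is odd, so
`c * nm G (Y Y')` is a square in `ℚ_p`; and `(Y Y')(ρ) * nm G (Y Y') = nm f (Y Y')` is a square in `ℚ_p`. So `c (Y Y')(ρ) = b ^ 2`,
`b ≠ 0` in `ℚ_p`. Chinese remainder theorem (`PIP.crt`): `s' = b` modulo `X - ρ`, `s' = s` modulo `G`, `u = 1 / c`. -/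
def S_LOF : Prop := S_GMB → S_HEN → ∀ (p : ℕ) [Fact p.Prime], p ≠ 2 → ∀ (n : ℕ) (f Y Y' : ℤ[X]) (e : ℤ),
  4 ≤ n → Even n → f.Monic → f.natDegree = n → (rd p f).Separable → (p : ℤ) ∣ f.eval e →
  (p : ℤ) ∣ Y.eval e → nm f Y ≠ 0 → ¬ (p : ℤ) ^ 2 ∣ nm f Y → (p : ℤ) ∣ Y'.eval e → nm f Y' ≠ 0 →
  ¬ (p : ℤ) ^ 2 ∣ nm f Y' → Cpl p f e Y Y' → IsSquare ((nm f Y * nm f Y' : ℤ) : ℚ_[p]) →
  ∃ (u : ℚ_[p]) (s : ℚ_[p][X]), u ≠ 0 ∧ IsCoprime s (ov ℚ_[p] f) ∧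
    ov ℚ_[p] f ∣ ov ℚ_[p] (Y * Y') - C u * s ^ 2

/-- Piece GDP: the good primes. Proof. `nm f Y` is a unit in `ℤ_p`, so `Y` and `f` are coprime over `ℤ_p` (GMB, norm and base
change); `a` is, up to squares (EE (2)), a polynomial over `ℤ_p` which is a unit modulo `f`; `GPTP.unram` in
`Pool/Agent/H30Q/GPT.lean`. -/
def S_GDP : Prop := S_GMA → S_GMB → P_EE → S_UNI → ∀ (p : ℕ) [Fact p.Prime], p ≠ 2 →
  ∀ (n : ℕ) (f Y : ℤ[X]) (a : ℚ_[p][X]), 1 ≤ n → Even n → f.Monic → f.natDegree = n →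
  ¬ (p : ℤ) ∣ nm f Y → IsCoprime a (ov ℚ_[p] f) → UnitCl p f a →
  ee n (ov ℚ_[p] f) (ov ℚ_[p] Y) a = 1

/-- Piece LSQ: local squares. Proof. (1) Interpolation: `f` is the product of the `X - ρ_j` modulo `p` (`n` different zeros); `A(ρ_j)` is a
square `b_j ^ 2 ≠ 0` modulo `p` (`sgn = 1`, `IsCoprime`). There is `s` in `ℤ[X]` with `s(ρ_j) = b_j`, so `f` divides `A - s ^ 2` modulo
`p`, `s` is a unit modulo `f` over `ℤ_p` (`QPTP.cop_lift`), and HEN. (2) `A = s ^ 2` modulo `f` over `ℚ_p`; `A` is a unit modulo `f` over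
`ℤ_p`. At the zero `ρ` of `f` in `ℤ_p` above `e` (`PIP.fac`) `A(ρ) = s(ρ) ^ 2` in `ℚ_p`, so `A(e) = A(ρ) = s(ρ) ^ 2` modulo `p`. -/
def S_LSQ : Prop := S_GMB → S_HEN → ∀ (p : ℕ) [Fact p.Prime], p ≠ 2 → ∀ (n : ℕ) (f A : ℤ[X]), 1 ≤ n →
  f.Monic → f.natDegree = n → (rd p f).Separable → IsCoprime (rd p A) (rd p f) →
  (Tot n p f → (∀ e : ℤ, (p : ℤ) ∣ f.eval e → sgn A p e = 1) → LocSq p f A) ∧
  (LocSq p f A → ∀ e : ℤ, (p : ℤ) ∣ f.eval e → sgn A p e = 1)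

/-! ### The comparison of two sections -/

/-- The conclusion of piece CMP. -/
def P_CMP : Prop := ∀ (n W : ℕ) (f : ℤ[X]) (L : Type) [Field L] [NumberField L] (θ : L), 6 ≤ n →
  Even n → Rt n f θ → GW n f θ W → ∀ F : Finset ℕ, (∀ p ∈ F, p.Prime ∧ ¬ p ∣ W) →
  ∀ (r : ℕ) (A : Fin r → ℤ[X]), Cl2 W f θ F r A →
  ∀ (q q' R R' : ℕ), q.Prime → q'.Prime → q ≠ q' → ¬ q ∣ W → ¬ q' ∣ W → q ∉ F → q' ∉ F →
  ¬ q ∣ R → ¬ q ∣ R' → ¬ q' ∣ R' → R ≠ 0 → R' ≠ 0 → Squarefree R →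
  (∀ l : ℕ, l.Prime → (l ∣ R ∨ l ∣ R') → l ∉ F ∧ ¬ l ∣ W ∧ ∀ i, LocSq l f (A i)) →
  (∀ i, IsCoprime (rd q (A i)) (rd q f) ∧ IsCoprime (rd q' (A i)) (rd q' f)) →
  ∀ (Y Y' : ℤ[X]) (m e e' : ℤ), m ≠ 0 → (∀ l : ℕ, l.Prime → (l : ℤ) ∣ m → l ∣ W) →
  nm f Y = ((∏ p ∈ F, (p : ℤ)) * (q * R)) * m * (W : ℤ) ^ n →
  nm f Y' = ((∏ p ∈ F, (p : ℤ)) * (q' * R')) * m * (W : ℤ) ^ n →
  (q : ℤ) ∣ f.eval e → (q : ℤ) ∣ Y.eval e → (q' : ℤ) ∣ f.eval e' → (q' : ℤ) ∣ Y'.eval e' →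
  (∀ p ∈ F, IsSquare (((q * R) * (q' * R') : ℕ) : ZMod p) ∧ ∃ ep : ℤ, (p : ℤ) ∣ f.eval ep ∧
    (p : ℤ) ∣ Y.eval ep ∧ (p : ℤ) ∣ Y'.eval ep ∧ Cpl p f ep Y Y') →
  ∀ i, sgn (A i) q e = sgn (A i) q' e'

/-- Piece CMP. Proof. The product formula (`P_PRF`) for `δ = ov ℚ (Y * Y')` and `a = ov ℚ (A i)`; compare `AsmQ.bad_of_fake` in
`Pool/Agent/H30Q/Main2.lean`, where all the tools are used (`ee_W`, `ee_R`, `cop_of`, `norm_eq`, `cop_locA`, `sq_loc`, ...).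
`nm f (Y Y') = (∏ F) ^ 2 (q R) (q' R') m ^ 2 W ^ (2 n) ≠ 0`, so `δ` and `f` are coprime over `ℚ`.
Real place: `1` (`ee_R`). `p ∣ W`: `1` (`ee_W`). `p ∈ F`: `v_p(nm f Y) = 1 = v_p(nm f Y')`, `nm f Y * nm f Y'` is a square
in `ℚ_p` because `q R q' R'` is a square modulo `p` prime to `p` (Hensel), so LOF and EE (4) give `1`. `l ∣ R R'`, `l ≠ q'`: `A i` is a local square, so
EE (3) with `c = 1` gives `1`. All other `p ≠ q, q'`: GDP (with EVN and `Cl2.ev`, as in `ee_good`). At `q`: QPH for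
`Y * Y'` (`nm` is multiplicative, `q ∤ nm f Y'`): `sgn (A i) q e`. At `q'`: if `q' ∣ R` then `A i` is a local square at `q'` and both
the symbol and `sgn (A i) q' e'` are `1` (LSQ (2)); else QPH: `sgn (A i) q' e'`. So the product of the two signs is `1`. -/
def S_CMP : Prop := P_EE → S_GMA → S_GMB → P_PRF → S_HEN → S_REA → S_UNI → S_EVN → P_BLK → S_LEG →
  S_QPH → S_LOF → S_GDP → S_LSQ → P_CMP

/-- The conclusion of piece BDS. -/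
def P_BDS : Prop := ∀ (n W : ℕ) (f : ℤ[X]) (L : Type) [Field L] [NumberField L] (θ : L), 6 ≤ n →
  Even n → Rt n f θ → GW n f θ W → ∀ F : Finset ℕ, (∀ p ∈ F, p.Prime ∧ ¬ p ∣ W) →
  ∀ (r : ℕ) (A : Fin r → ℤ[X]), Cl2 W f θ F r A →
  ∀ (M N : ℕ) (T : Fin N → Set ℤ[X]),
  (∀ k, ∀ Y ∈ T k, ∀ Y' ∈ T k, ∀ p : ℕ, p.Prime → ¬ p ∣ W → ∀ e : ℤ, (p : ℤ) ∣ f.eval e →
    (p : ℤ) ∣ Y.eval e → (p : ℤ) ∣ Y'.eval e → Cpl p f e Y Y') →
  ∃ V : Finset (Fin r → ℤ), V.card ≤ N * (2 * M + 1) * ∏ p ∈ F, 2 * zer f p ∧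
  ∃ B : ℕ, ∀ q R : ℕ, q.Prime → B < q → ¬ q ∣ W → q ∉ F → ¬ q ∣ R → Squarefree R →
    (∀ l : ℕ, l.Prime → l ∣ R → l ∉ F ∧ ¬ l ∣ W ∧ ∀ i, LocSq l f (A i)) →
    (∃ k, ∃ Y ∈ T k, ∃ m : ℤ, PolD n M W f ((∏ p ∈ F, (p : ℤ)) * (q * R)) m Y) →
    ∃ e : ℤ, (q : ℤ) ∣ f.eval e ∧ (fun i => sgn (A i) q e) ∈ V

/-- Piece BDS (from CMP; pure bookkeeping). Proof. The type of `(q, R, k, Y, m)` is `(k, m, (e_p mod p, whether q R is a square modulo p)_{p ∈ F})`,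
`e_p` from `PolD.ex`, in a set with at most `N (2 M + 1) ∏ (2 zer f p)` elements (`Fin N`, `Finset.Icc (-M) M`, and
`Finset.pi F (fun p => Zr p f ×ˢ Finset.univ)` or similar; `AsmQ.zer_eq`: `zer f p = (Zr p f).card`; `Zr` is in `H30Q/AsmC.lean` or near).
For each type which occurs for some `q` larger than `b` choose one `(q_t, R_t, Y_t, e_t)`; here `b` is such that `A i` and `f` are coprime modulo `q` for `q > b`
(`cop_mod`, see `Main2.lean`); `V` is the set of the vectors `(sgn (A i) q_t e_t)_i`, `B` the maximum of `b`, all `q_t` and `R_t`. If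
`q > B` then `q ≠ q_t`, `q ∤ R_t`, and CMP for `(q, R, Y)`, `(q_t, R_t, Y_t)`. (The product of two non-squares, or of two squares, prime to `p` modulo `p` is a
square; `q R` is prime to `p`; `p` is odd because `8 ∣ W`.) If `F` is empty the products are `1`. -/
def S_BDS : Prop := S_GMB → P_CMP → P_BDS

/-! ### Algebraic number theory -/

/-- Piece RAD. Proof. `x` is in all the primes above `p`, so `x ^ N ∈ p 𝓞 L` for some `N` (radical ideals). `x ^ N = p z`, `W z = Y(θ)` (`GW.ord`):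
`W P ^ N - p Y` vanishes at `θ`, so it is divisible by `f` in `ℤ[X]` (`f` monic, irreducible over `ℚ`). Modulo `p`: `f` divides `P ^ N`
(`W` is a unit), `f` is separable, so squarefree, so it divides `P`. -/
def S_RAD : Prop := ∀ (n W : ℕ) (f : ℤ[X]) (L : Type) [Field L] [NumberField L] (θ : L), Rt n f θ →
  GW n f θ W → ∀ p : ℕ, p.Prime → ¬ p ∣ W → ∀ (P : ℤ[X]) (x : 𝓞 L), (x : L) = aeval θ P →
  (∀ v : HeightOneSpectrum (𝓞 L), Abv v p → x ∈ v.asIdeal) → rd p f ∣ rd p P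

/-- Piece VE: the primes of degree one and the zeros modulo `p` (compare `Pool/Agent/H30Q/SPL.lean`).
Proof. (1) `𝓞 L / v` has `p` elements, so there is an integer `e` with `θ - e ∈ v` (`θ` is integral); `P(θ) = P(e)` modulo `v`, and an
integer is in `v` if and only if `p` divides it; `f(θ) = 0`. (2) The ring homomorphism `𝓞 L → ZMod p`, `x ↦ Y(e) / W`,
`W x = Y(θ)`; its kernel is `v`. (3) If `x ∈ v` then `W x = Y(θ) ∈ v`, `p ∣ Y(e)`, `W x ∈ v'`, `W ∉ v'`, `x ∈ v'`. -/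
def S_VE : Prop := ∀ (n W : ℕ) (f : ℤ[X]) (L : Type) [Field L] [NumberField L] (θ : L), Rt n f θ →
  GW n f θ W → ∀ p : ℕ, p.Prime → ¬ p ∣ W →
  (∀ v : HeightOneSpectrum (𝓞 L), Abv v p → Ideal.absNorm v.asIdeal = p → ∃ e : ℤ,
    (p : ℤ) ∣ f.eval e ∧ ∀ (P : ℤ[X]) (x : 𝓞 L), (x : L) = aeval θ P →
      (x ∈ v.asIdeal ↔ (p : ℤ) ∣ P.eval e)) ∧
  (∀ e : ℤ, (p : ℤ) ∣ f.eval e → ∃ v : HeightOneSpectrum (𝓞 L), Abv v p ∧
    Ideal.absNorm v.asIdeal = p ∧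
    ∀ (P : ℤ[X]) (x : 𝓞 L), (x : L) = aeval θ P → (x ∈ v.asIdeal ↔ (p : ℤ) ∣ P.eval e)) ∧
  ∀ (v v' : HeightOneSpectrum (𝓞 L)) (e : ℤ), Abv v p → Abv v' p →
    (∀ (P : ℤ[X]) (x : 𝓞 L), (x : L) = aeval θ P → (x ∈ v.asIdeal ↔ (p : ℤ) ∣ P.eval e)) →
    (∀ (P : ℤ[X]) (x : 𝓞 L), (x : L) = aeval θ P → (x ∈ v'.asIdeal ↔ (p : ℤ) ∣ P.eval e)) → v = v'

/-- Piece PLA: the polynomial of a section.
Proof. `α ≠ 0` (take a prime `l` not dividing `W D`, and any `v` above it). `nm f Y = W ^ n N(α)` (`AsmP.norm_eq`: `nm` is the norm of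
`Y(θ)`), `N(α) = Algebra.norm ℤ α`. For a prime `l ∣ D` (so `l ∤ W`) there is `v` above `l` with `α ∈ v`, so `l ∣ N(α)` (`absNorm v` is a power of `l` and divides
the norm of `(α)`); `D` is squarefree, so `D ∣ N(α)`, `N(α) = D m`. `|N(α)| = ∏_σ |σ α| ≤ C ^ n |D|`, so `|m| ≤ C ^ n ≤ M`. A prime
`l ∣ m` is at most `M`, so it divides `W`. The condition `ex`: Ty1 for `l` and VE (1) for `v0`: `W α ∈ v0`. -/
def S_PLA : Prop := S_VE → ∀ (n W : ℕ) (f : ℤ[X]) (L : Type) [Field L] [NumberField L] (θ : L), 1 ≤ n →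
  Rt n f θ → GW n f θ W → ∀ (M : ℕ) (C : ℝ), 0 < C → C ^ n ≤ M →
  (∀ l : ℕ, l.Prime → l ≤ M → l ∣ W) →
  ∀ (T : Set (𝓞 L)), (∀ l : ℕ, l.Prime → ¬ l ∣ W → Ty1 l T) → ∀ α ∈ T, ∀ D : ℤ, Squarefree D →
  (∀ l : ℕ, l.Prime → l ∣ W → ¬ (l : ℤ) ∣ D) →
  (∀ l : ℕ, l.Prime → ¬ l ∣ W → ((l : ℤ) ∣ D ↔
    ∃ v : HeightOneSpectrum (𝓞 L), Abv v l ∧ α ∈ v.asIdeal)) →
  (∀ σ : L →+* ℂ, ‖σ (α : L)‖ ≤ C * (D.natAbs : ℝ) ^ ((1 : ℝ) / n)) →
  ∀ Y : ℤ[X], (W : L) * (α : L) = aeval θ Y → ∃ m : ℤ, PolD n M W f D m Y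

/-- Piece PLB: pairs. Proof. Let `v` be the prime of VE (2) for `e`. `W β = Y(θ) ∈ v` and `W ∉ v`, so `β ∈ v`, `β' ∈ v`. Ty2 gives `c` and for
all `v' ≠ v` above `p` an element `g_{v'}`; by the Chinese remainder theorem there is one `g` with `c β β' - g ^ 2 ∈ v'` for all these (finitely
many) `v'`. `W g = Z(θ)` (`GW.ord`). `(θ - e) (c W ^ 2 β β' - (W g) ^ 2)` is in all the primes above `p` and it is the value of
`(X - e) (c Y Y' - Z ^ 2)` at `θ`; RAD. -/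
def S_PLB : Prop := S_RAD → S_VE → ∀ (n W : ℕ) (f : ℤ[X]) (L : Type) [Field L] [NumberField L] (θ : L),
  Rt n f θ → GW n f θ W → ∀ (T : Set (𝓞 L)) (p : ℕ), p.Prime → ¬ p ∣ W → Ty2 p T →
  ∀ β ∈ T, ∀ β' ∈ T, ∀ Y Y' : ℤ[X], (W : L) * (β : L) = aeval θ Y →
  (W : L) * (β' : L) = aeval θ Y' → ∀ e : ℤ, (p : ℤ) ∣ f.eval e → (p : ℤ) ∣ Y.eval e →
  (p : ℤ) ∣ Y'.eval e → Cpl p f e Y Y'

/-- Piece CH4: adapt `Pool/Agent/H30Q/CH3.lean` (`t_CH3`); the primes there split completely in `N`, so `f` has `n` different zeros modulo them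
(for large primes). -/
def S_CH4 : Prop := ∀ (n W : ℕ) (f : ℤ[X]) (L : Type) [Field L] [NumberField L] (θ : L), 1 ≤ n →
  Rt n f θ → GW n f θ W → ∀ (r : ℕ) (A : Fin r → ℤ[X]), (∀ i, aeval θ (A i) ≠ 0) →
  ∃ c : ℝ, 0 < c ∧ ∀ᶠ x : ℕ in atTop, c * (Nat.primeCounting x : ℝ) ≤
    (((upTo (SS W f) x).filter fun q : ℕ => Tot n q f ∧ ∀ e : ℤ, (q : ℤ) ∣ f.eval e →
      ∀ i, sgn (A i) q e = 1).card : ℝ)

end Pool.Agent.H30S
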