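import Pool.Agent.H30Q.CH2B
import Pool.Agent.H30Q.CHB
import Pool.Agent.H30S.Stm

/-!
# Project HS (helper30), piece CH4 (helper23): the completely split primes
-/

set_option autoImplicit false
set_option linter.all false

open Polynomial IsDedekindDomain NumberField Filter Topology
open scoped Classical

namespace Pool.Agent.H30S

namespace CH4P

open Pool.Agent.H30Q Pool.Agent.W401.Cheb

/-- Positive proportion of the primes with a given Frobenius element. -/
theorem density_pi {N : Type} [Field N] [NumberField N] [IsGalois ℚ N] (σ : Gal(N/ℚ)) (T : ℕ → Prop)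
    (M₀ : ℕ) (hT : ∀ q, q.Prime → M₀ < q → xp N σ q ≠ 0 → T q) :
    ∃ c : ℝ, 0 < c ∧ ∀ᶠ x : ℕ in atTop,
      c * (Nat.primeCounting x : ℝ) ≤ (((pr x).filter T).card : ℝ) := by
  obtain ⟨D, hD, htor⟩ := torsor N
  set A : ℕ := D * (M₀ + 1).factorial with hA
  have hA0 : A ≠ 0 := mul_ne_zero hD.ne' (Nat.factorial_ne_zero _)
  set n : ℕ := Nat.card Gal(N/ℚ) with hn
  have hn0 : 0 < n := Nat.card_pos
  have hle : ∀ p : ℕ, p.Prime → ¬ p ∣ A → xp N σ p ≤ n := by
    intro p hp hpA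
    have hpF : Fact p.Prime := ⟨hp⟩
    have hpD : ¬ p ∣ D := fun h => hpA (hA ▸ h.mul_right _)
    have ht := (htor p hpD).1
    have hfin : Finite (𝓞 N →+* AlgebraicClosure (ZMod p)) := by
      refine Nat.finite_of_card_ne_zero ?_
      rw [ht]
      exact hn0.ne'
    unfold xp
    rw [dif_pos hp, hn, ← ht]
    exact Nat.card_le_card_of_injective _ Subtype.val_injective
  let good : ℕ → Prop := fun p => ¬ p ∣ A ∧ xp N σ p ≠ 0
  let a : ℕ → ℝ := fun p => if p ∣ A then 0 else (xp N σ p : ℝ)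
  have ha : Tendsto (M a) atTop (𝓝 1) := by
    refine M_congr (Nat.pos_of_ne_zero hA0) (b := fun p => (xp N σ p : ℝ)) ?_
      (chebotarev N σ)
    intro p _ hpA
    simp only [a, if_neg hpA]
  have hab : ∀ p, p.Prime → a p ≤ (fun p => (n : ℝ) * (if good p then 1 else 0)) p := by
    intro p hp
    simp only [a, good]
    by_cases h1 : p ∣ A
    · rw [if_pos h1]
      split_ifs <;> simp
    · rw [if_neg h1]
      by_cases h2 : xp N σ p = 0
      · rw [h2]
        split_ifs <;> simp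
      · rw [if_pos ⟨h1, h2⟩, mul_one]
        exact_mod_cast hle p hp h1
  refine ⟨1 / (2 * n), by positivity, ?_⟩
  have h12 : ∀ᶠ N : ℕ in atTop, (1 / 2 : ℝ) < M a N := ha.eventually (lt_mem_nhds (by norm_num))
  filter_upwards [h12, eventually_ge_atTop 7] with X hX hX2
  have hpc : 0 < (Nat.primeCounting X : ℝ) := by
    have : Nat.primeCounting X ≠ 0 := by
      rw [Ne, Nat.primeCounting_eq_zero_iff]
      omega
    exact_mod_cast Nat.pos_of_ne_zero this
  have h3 : (1 / 2 : ℝ) < M (fun p => (n : ℝ) * (if good p then 1 else 0)) X :=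
    lt_of_lt_of_le hX (M_mono hab X)
  rw [M_smul] at h3
  unfold M at h3
  have h4 : (∑ p ∈ pr X, (if good p then (1 : ℝ) else 0)) = (((pr X).filter good).card : ℝ) := by
    rw [Finset.sum_ite, Finset.sum_const_zero, add_zero, Finset.sum_const, nsmul_eq_mul, mul_one]
  rw [h4] at h3
  have hn1 : (0 : ℝ) < n := by exact_mod_cast hn0
  have h5 : 1 / (2 * (n : ℝ)) * (Nat.primeCounting X : ℝ) ≤ (((pr X).filter good).card : ℝ) := by
    have h6 : (n : ℝ) * ((((pr X).filter good).card : ℝ) / (Nat.primeCounting X : ℝ)) =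
      (n * (((pr X).filter good).card : ℝ)) / (Nat.primeCounting X : ℝ) := by ring
    rw [h6, lt_div_iff₀ hpc] at h3
    rw [div_mul_eq_mul_div, one_mul, div_le_iff₀ (by positivity)]
    linarith
  refine h5.trans ?_
  refine Nat.cast_le.2 (Finset.card_le_card ?_)
  intro q hq
  obtain ⟨hq1, hq2, hq3⟩ := Finset.mem_filter.1 hq
  obtain ⟨hq4, hq5⟩ := mem_pr.1 hq1
  refine Finset.mem_filter.2 ⟨hq1, hT q hq5 ?_ hq3⟩
  by_contra hle'
  exact hq2 (hA ▸ (Nat.dvd_factorial hq5.pos (by omega)).mul_left _)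

open Pool.Agent.H30T.ResA (exists_large) in
/-- A completely split prime has all the zeros. -/
theorem tot_of_one {N : Type} [Field N] [NumberField N] [IsGalois ℚ N] (f : ℤ[X]) (hmon : f.Monic)
    (J : Type) [Fintype J] (s : J → N) (hs : Function.Injective s)
    (hf : f.map (Int.castRingHom N) = ∏ j, (X - C (s j))) :
    ∃ M₀ : ℕ, ∀ (q : ℕ) [Fact q.Prime], M₀ < q → ∀ (φ : 𝓞 N →+* AlgebraicClosure (ZMod q)),
      HasFrob q φ (1 : Gal(N/ℚ)) → Tot (Fintype.card J) q f := by
  have hroot : ∀ z : N, (f.map (Int.castRingHom N)).eval z = 0 ↔ ∃ j, z = s j := by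
    intro z
    rw [hf, eval_prod, Finset.prod_eq_zero_iff]
    simp [sub_eq_zero]
  have hev : ∀ z : N, (f.map (Int.castRingHom N)).eval z = aeval z f := by
    intro z
    rw [aeval_def, eval_map]
    rfl
  have hint : ∀ j, IsIntegral ℤ (s j) := by
    intro j
    refine ⟨f, hmon, ?_⟩
    rw [← aeval_def, ← hev, hroot]
    exact ⟨j, rfl⟩
  choose t ht using fun j => (⟨⟨s j, hint j⟩, rfl⟩ : ∃ t : 𝓞 N, algebraMap (𝓞 N) N t = s j)
  set E : 𝓞 N := ∏ i : J, ∏ j : J, (if i = j then 1 else t i - t j) with hE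
  have hE0 : E ≠ 0 := by
    rw [hE, Finset.prod_ne_zero_iff]
    intro i _
    rw [Finset.prod_ne_zero_iff]
    intro j _
    split_ifs with hij
    · exact one_ne_zero
    · intro h
      apply hij
      have h1 := congrArg (algebraMap (𝓞 N) N) (sub_eq_zero.1 h)
      rw [ht, ht] at h1
      exact hs h1
  obtain ⟨M, hM⟩ := exists_large E hE0
  refine ⟨M, ?_⟩
  intro q hqF hqM φ hφ
  have hφE : φ E ≠ 0 := hM q hqM _ φ
  rw [hE, map_prod, Finset.prod_ne_zero_iff] at hφE
  have k1 : ∀ i j, φ (t i) = φ (t j) → i = j := by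
    intro i j hij
    by_contra hne
    have h1 := hφE i (Finset.mem_univ _)
    rw [map_prod, Finset.prod_ne_zero_iff] at h1
    have h2 := h1 j (Finset.mem_univ _)
    rw [if_neg hne, map_sub, hij, sub_self] at h2
    exact h2 rfl
  have hfO : f.map (Int.castRingHom (𝓞 N)) = ∏ j, (X - C (t j)) := by
    apply Polynomial.map_injective (algebraMap (𝓞 N) N) RingOfIntegers.coe_injective
    rw [Polynomial.map_map, Polynomial.map_prod]
    simp only [Polynomial.map_sub, map_X, map_C, ht]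
    rw [← hf]
    exact congrArg (fun r => Polynomial.map r f) (Subsingleton.elim _ _)
  have hfΩ : f.map (Int.castRingHom (AlgebraicClosure (ZMod q))) = ∏ j, (X - C (φ (t j))) := by
    have h1 := congrArg (Polynomial.map φ) hfO
    rw [Polynomial.map_map, Polynomial.map_prod] at h1
    simp only [Polynomial.map_sub, map_X, map_C] at h1
    rw [← h1]
    exact congrArg (fun r => Polynomial.map r f) (Subsingleton.elim _ _)
  have hz : ∀ j, ∃ z : ZMod q, algebraMap (ZMod q) (AlgebraicClosure (ZMod q)) z = φ (t j) := by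
    intro j
    refine W54.ChTor.frob_fixed q _ ?_
    have h1 := hφ (t j)
    rw [one_smul] at h1
    exact h1.symm
  choose z hz using hz
  have hzi : Function.Injective z := by
    intro i j hij
    apply k1
    rw [← hz, ← hz, hij]
  refine ⟨Finset.univ.image z, by rw [Finset.card_image_of_injective _ hzi, Finset.card_univ], ?_⟩
  intro ρ hρ
  obtain ⟨j, -, rfl⟩ := Finset.mem_image.1 hρ
  apply (algebraMap (ZMod q) (AlgebraicClosure (ZMod q))).injective
  rw [map_zero, ← eval_map_apply, hz]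
  unfold rd
  rw [Polynomial.map_map]
  have h1 : (algebraMap (ZMod q) (AlgebraicClosure (ZMod q))).comp (Int.castRingHom (ZMod q)) =
    Int.castRingHom (AlgebraicClosure (ZMod q)) := RingHom.ext_int _ _
  rw [h1, hfΩ, eval_prod]
  exact Finset.prod_eq_zero (Finset.mem_univ j) (by simp)

end CH4P

open Pool.Agent.H30Q CH2P CHBP Pool.Agent.H30T.GalP Pool.Agent.W401.Cheb Pool.Agent.N874.PP in
/-- **CH4.** -/
theorem t_CH4 : S_CH4 := by
  intro n W f L _ _ θ hn hRt hGW r A hA
  obtain ⟨E, _, _, ι₀, β₀, hβ₀⟩ := exists_sqrts L r (fun i => aeval θ (A i))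
  set p : ℚ[X] := ov ℚ f with hp
  have hinj : Function.Injective (Int.castRingHom ℚ) := Int.cast_injective
  have hmon : p.Monic := hRt.mon.map _
  have hirr : Irreducible p := hRt.irr
  have hsep : p.Separable := hirr.separable
  have hdeg : p.natDegree = n := by
    rw [hp, natDegree_map_eq_of_injective hinj, hRt.deg]
  obtain ⟨N, iF, iN, iG, κ, ζ, γ, hζ, -, hsp⟩ := exists_closure E 1 W hGW.ne p hmon.ne_zero
  obtain ⟨hcard, hprod⟩ := prod_rootSet (N := N) p hmon hsep hsp
  rw [hdeg] at hcard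
  set ι : L →+* N := (κ : E →+* N).comp ι₀ with hι
  have hfN : f.map (Int.castRingHom N) = ∏ s : p.rootSet N, (X - C (s : N)) := by
    rw [← hprod, hp, Polynomial.map_map]
    congr 1
    exact RingHom.ext_int _ _
  have hιA : ∀ P : ℤ[X], ι (aeval θ P) = aeval (ι θ) P := by
    intro P
    rw [aeval_def, aeval_def, hom_eval₂]
    congr 1
    exact Subsingleton.elim _ _
  have hιp : aeval (ι θ) p = 0 := by
    have h1 := aeval_map_algebraMap ℚ (ι θ) f
    rw [← hιA, hRt.root, map_zero] at h1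
    exact h1
  have hmin : minpoly ℚ (ι θ) = p := (minpoly.eq_of_irreducible_of_monic hirr hιp hmon).symm
  have hex : ∀ s : p.rootSet N, ∃ τ : N ≃ₐ[ℚ] N, τ (ι θ) = s := by
    intro s
    refine minpoly.exists_algEquiv_of_root' (Algebra.IsAlgebraic.isAlgebraic (R := ℚ) (ι θ)) ?_
    rw [hmin]
    exact (mem_rootSet.1 s.2).2
  choose τ hτ using hex
  have hτA : ∀ (σ : N ≃ₐ[ℚ] N) (z : N) (P : ℤ[X]), σ (aeval z P) = aeval (σ z) P := by
    intro σ z P
    exact (aeval_algHom_apply ((σ : N →ₐ[ℚ] N).restrictScalars ℤ) z P).symm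
  set β : p.rootSet N → Fin r → N := fun s i => τ s (κ (β₀ i)) with hβdef
  have hκ2 : ∀ i, κ (β₀ i) ^ 2 = ι (aeval θ (A i)) := by
    intro i
    rw [← map_pow, hβ₀]
    rfl
  have hβ : ∀ s i, β s i ^ 2 = aeval ((s : p.rootSet N) : N) (A i) := by
    intro s i
    rw [hβdef]
    show (τ s (κ (β₀ i))) ^ 2 = _
    rw [← map_pow, hκ2, hιA, hτA, hτ]
  have hκ0 : ∀ i, κ (β₀ i) ≠ 0 := by
    intro i h0
    have h1 := hκ2 i
    rw [h0, zero_pow two_ne_zero] at h1
    exact hA i ((map_eq_zero ι).1 h1.symm)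
  have hβ0 : ∀ s i, β s i ≠ 0 := fun s i h0 => hκ0 i ((map_eq_zero (τ s)).1 h0)
  obtain ⟨M₀, hM⟩ := frob_dict f hRt.mon (p.rootSet N) (fun s => (s : N)) Subtype.val_injective hfN W
    hGW.ne ζ hζ r A β hβ hβ0
  obtain ⟨M₁, hM1⟩ := CH4P.tot_of_one f hRt.mon (p.rootSet N) (fun s => (s : N))
    Subtype.val_injective hfN
  have hne : Nonempty (p.rootSet N) := by
    rw [← Fintype.card_pos_iff, hcard]
    omega
  obtain ⟨c, hc, hx⟩ := CH4P.density_pi (1 : Gal(N/ℚ))
    (fun q => q ∈ SS W f ∧ Tot n q f ∧ ∀ e : ℤ, (q : ℤ) ∣ f.eval e →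
      ∀ i, AsmP.sgn (A i) q e = 1) (max M₀ M₁) (by
    intro q hq hlt hxp
    obtain ⟨hq0, hq1⟩ := max_lt_iff.1 hlt
    haveI : Fact q.Prime := ⟨hq⟩
    unfold xp at hxp
    rw [dif_pos hq] at hxp
    obtain ⟨⟨φ, hφ⟩⟩ := (Nat.card_ne_zero.1 hxp).1
    obtain ⟨k1, k2, k3⟩ := hM q hq0 φ 1 hφ
    obtain ⟨j⟩ := hne
    obtain ⟨e, he, -⟩ := k3 j rfl
    refine ⟨⟨hq, k1.2 rfl, e, he⟩, ?_, ?_⟩
    · have h1 := hM1 q hq1 φ hφ
      rwa [hcard] at h1
    · intro e' he' i
      obtain ⟨s, -, h7⟩ := k2 e' he'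
      rw [h7 i]
      exact if_pos rfl)
  refine ⟨c, hc, ?_⟩
  filter_upwards [hx] with x hx
  refine hx.trans (Nat.cast_le.2 (Finset.card_le_card ?_))
  intro q hq
  have hq' := hq
  simp only [Finset.mem_filter] at hq'
  obtain ⟨h1, h2, h3, h4⟩ := hq'
  refine Finset.mem_filter.2 ⟨?_, h3, h4⟩
  unfold upTo
  exact Finset.mem_filter.2 ⟨Finset.mem_range.2 (Nat.lt_succ_of_le (mem_pr.1 h1).1), h2⟩

end Pool.Agent.H30S
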