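import Pool.Agent.H30S.Stm
import Pool.Agent.H30Q.Main2

/-! # Project HS, piece CMP (helper11): the comparison of two sections -/

set_option autoImplicit false
set_option linter.all false

open Polynomial IsDedekindDomain Matrix NumberField Filter Topology
open scoped Classical

namespace Pool.Agent.H30S

open Pool.Agent.H30Q
open Pool.Agent.H30Q.AsmP
open Pool.Agent.N874.PP (Ev)

namespace CMPP

lemma nm_mul' {E : Type} [CommRing E] (F a b : E[X]) : nm F (a * b) = nm F a * nm F b := by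
  rw [nm, map_mul, map_mul]

lemma nm_ov (hGMB : S_GMB) (K : Type) [Field K] {n : ℕ} {f : ℤ[X]} (hn : 1 ≤ n) (hm : f.Monic)
    (hd : f.natDegree = n) (Y : ℤ[X]) : nm (ov K f) (ov K Y) = ((nm f Y : ℤ) : K) := by
  have h := ((hGMB ℤ n f hn hm hd).2.2 K (Int.castRingHom K) Y).2
  rw [ov, ov, h]
  rfl

lemma cop_nm (hGMB : S_GMB) (K : Type) [Field K] [CharZero K] {n : ℕ} {f : ℤ[X]} (hn : 1 ≤ n)
    (hm : f.Monic) (hd : f.natDegree = n) {Y : ℤ[X]} (h : nm f Y ≠ 0) :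
    IsCoprime (ov K Y) (ov K f) := by
  refine ((hGMB K n (ov K f) hn (ov_monic K hm) (ov_deg K hm hd)).2.1 _).1 ?_
  rw [nm_ov hGMB K hn hm hd]
  exact (Int.cast_ne_zero.2 h).isUnit

lemma nd_mul {p a b : ℤ} (hp : Prime p) (h1 : ¬ p ∣ a) (h2 : ¬ p ∣ b) : ¬ p ∣ a * b :=
  fun h => (hp.dvd_or_dvd h).elim h1 h2

lemma nd_pow {p a : ℤ} (hp : Prime p) (h1 : ¬ p ∣ a) (k : ℕ) : ¬ p ∣ a ^ k :=
  fun h => h1 (hp.dvd_of_dvd_pow h)

lemma nd_sq {p a : ℤ} (hp : Prime p) (h1 : ¬ p ∣ a) : ¬ p ^ 2 ∣ p * a := by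
  intro h
  rw [pow_two] at h
  exact h1 ((mul_dvd_mul_iff_left hp.ne_zero).1 h)

lemma nd_prod {P : Finset ℕ} (hP : ∀ p ∈ P, p.Prime) {q : ℕ} (hq : q.Prime) (h : q ∉ P) :
    ¬ (q : ℤ) ∣ ∏ p ∈ P, (p : ℤ) := by
  intro hd
  apply coprime_of_primes hP hq h
  have h1 : (∏ p ∈ P, (p : ℤ)) = ((∏ p ∈ P, p : ℕ) : ℤ) := by push_cast; rfl
  rw [h1] at hd
  exact_mod_cast hd

lemma nd_prime {p q : ℕ} (hp : p.Prime) (hq : q.Prime) (h : p ≠ q) : ¬ (p : ℤ) ∣ (q : ℤ) := by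
  intro hd
  have h1 : p ∣ q := by exact_mod_cast hd
  exact h ((Nat.prime_dvd_prime_iff_eq hp hq).1 h1)

end CMPP

open CMPP

theorem t_CMP : S_CMP := by
  intro hEE hGMA hGMB hPRF hHEN hREA hUNI hEVN hBLK hLEG hQPH hLOF hGDP hLSQ
  intro n W f L _ _ θ h6 heven hθ hW F hF r A hA q q' R R' hq hq' hqq hqW hqW' hqF hqF' hqR hqR'
    hqR2 hR hR' hRsf hl hcop Y Y' m e e' hm hmW hnY hnY' hfe hYe hfe' hYe' hFp i
  have hn : 1 ≤ n := by omega
  have hmon := hθ.mon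
  have hdeg := hθ.deg
  have hyp : Hy n f := ⟨h6, heven, hmon, hdeg, hθ.irr.separable⟩
  have hFpr : ∀ p ∈ F, p.Prime := fun p hp => (hF p hp).1
  have hne2 : ∀ p : ℕ, ¬ p ∣ W → p ≠ 2 := by
    rintro p hp rfl
    exact hp (dvd_trans (by norm_num) hW.eight)
  have hAc : IsCoprime (ov ℚ (A i)) (ov ℚ f) := cop_of hθ (hA.ne i)
  have hAsq : IsSquare (nm (ov ℚ f) (ov ℚ (A i))) := by
    rw [← norm_eq hθ]
    exact hA.sq i
  -- the norms
  have hW0 : (W : ℤ) ≠ 0 := by exact_mod_cast hW.ne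
  have hq0 : (q : ℤ) ≠ 0 := by exact_mod_cast hq.ne_zero
  have hq0' : (q' : ℤ) ≠ 0 := by exact_mod_cast hq'.ne_zero
  have hR0 : (R : ℤ) ≠ 0 := by exact_mod_cast hR
  have hR0' : (R' : ℤ) ≠ 0 := by exact_mod_cast hR'
  have hF0 : (∏ p ∈ F, (p : ℤ)) ≠ 0 := Finset.prod_ne_zero_iff.2 fun p hp => by
    exact_mod_cast (hFpr p hp).ne_zero
  have hN0 : nm f Y ≠ 0 := by
    rw [hnY]
    exact mul_ne_zero (mul_ne_zero (mul_ne_zero hF0 (mul_ne_zero hq0 hR0)) hm) (pow_ne_zero _ hW0)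
  have hN0' : nm f Y' ≠ 0 := by
    rw [hnY']
    exact mul_ne_zero (mul_ne_zero (mul_ne_zero hF0 (mul_ne_zero hq0' hR0')) hm)
      (pow_ne_zero _ hW0)
  have hNN : nm f (Y * Y') = nm f Y * nm f Y' := nm_mul' f Y Y'
  have hNN0 : nm f (Y * Y') ≠ 0 := by
    rw [hNN]
    exact mul_ne_zero hN0 hN0'
  have hδ : IsCoprime (ov ℚ (Y * Y')) (ov ℚ f) := cop_nm hGMB ℚ hn hmon hdeg hNN0
  have hpm : ∀ p : ℕ, p.Prime → ¬ p ∣ W → ¬ (p : ℤ) ∣ m := fun p hp h1 h2 => h1 (hmW p hp h2)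
  have hpW : ∀ p : ℕ, ¬ p ∣ W → ¬ (p : ℤ) ∣ (W : ℤ) := fun p h1 h2 => h1 (by exact_mod_cast h2)
  have hcast : ∀ p R : ℕ, ¬ p ∣ R → ¬ (p : ℤ) ∣ (R : ℤ) := fun p R h1 h2 =>
    h1 (by exact_mod_cast h2)
  haveI hfq : Fact q.Prime := ⟨hq⟩
  haveI hfq' : Fact q'.Prime := ⟨hq'⟩
  have hqp := Nat.prime_iff_prime_int.1 hq
  have hqp' := Nat.prime_iff_prime_int.1 hq'
  -- a polynomial which is a local square
  have hLoc : ∀ p : ℕ, ∀ hp : p.Prime, LocSq p f (A i) →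
      eeP p n f (ov ℚ (Y * Y')) (ov ℚ (A i)) = 1 := by
    intro p hp hloc
    haveI : Fact p.Prime := ⟨hp⟩
    obtain ⟨s, hs1, hs2⟩ := hloc hp
    rw [eeP, dif_pos hp, oq_ov, oq_ov]
    exact AsmQ.ee_sq hEE hGMB (Pool.Agent.N446.M4.sym_ p) hyp
      (cop_nm hGMB ℚ_[p] hn hmon hdeg hNN0) hs1 hs2
  -- the symbol at `q`
  have hq1 : eeP q n f (ov ℚ (Y * Y')) (ov ℚ (A i)) = sgn (A i) q e := by
    rw [eeP, dif_pos hq, oq_ov, oq_ov]
    refine hQPH hGMA hGMB hBLK hLEG hUNI q (hne2 q hqW) n f (Y * Y') (A i) e (by omega) heven hmon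
      hdeg (hW.sep q hq hqW) hfe ?_ hNN0 ?_ (hcop i).1 hAsq
    · rw [eval_mul]
      exact Dvd.dvd.mul_right hYe _
    · have h1 : nm f (Y * Y') = (q : ℤ) * ((∏ p ∈ F, (p : ℤ)) * R * m * (W : ℤ) ^ n *
          (((∏ p ∈ F, (p : ℤ)) * (q' * R')) * m * (W : ℤ) ^ n)) := by
        rw [hNN, hnY, hnY']
        ring
      rw [h1]
      have hF1 := nd_prod hFpr hq hqF
      have hm1 := hpm q hq hqW
      have hW1 := nd_pow hqp (hpW q hqW) n
      exact nd_sq hqp (nd_mul hqp (nd_mul hqp (nd_mul hqp (nd_mul hqp hF1 (hcast _ _ hqR)) hm1) hW1)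
        (nd_mul hqp (nd_mul hqp (nd_mul hqp hF1 (nd_mul hqp (nd_prime hq hq' hqq)
          (hcast _ _ hqR'))) hm1) hW1))
  -- the symbol at `q'`
  have hq2 : eeP q' n f (ov ℚ (Y * Y')) (ov ℚ (A i)) = sgn (A i) q' e' := by
    by_cases hqR3 : q' ∣ R
    · have hloc := (hl q' hq' (Or.inl hqR3)).2.2 i
      rw [hLoc q' hq' hloc]
      exact ((hLSQ hGMB hHEN q' (hne2 q' hqW') n f (A i) hn hmon hdeg (hW.sep q' hq' hqW')
        (hcop i).2).2 hloc e' hfe').symm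
    · rw [eeP, dif_pos hq', oq_ov, oq_ov]
      refine hQPH hGMA hGMB hBLK hLEG hUNI q' (hne2 q' hqW') n f (Y * Y') (A i) e' (by omega) heven
        hmon hdeg (hW.sep q' hq' hqW') hfe' ?_ hNN0 ?_ (hcop i).2 hAsq
      · rw [eval_mul]
        exact Dvd.dvd.mul_left hYe' _
      · have h1 : nm f (Y * Y') = (q' : ℤ) * ((∏ p ∈ F, (p : ℤ)) * (q * R) * m * (W : ℤ) ^ n *
            (((∏ p ∈ F, (p : ℤ)) * R') * m * (W : ℤ) ^ n)) := by
          rw [hNN, hnY, hnY']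
          ring
        rw [h1]
        have hF1 := nd_prod hFpr hq' hqF'
        have hm1 := hpm q' hq' hqW'
        have hW1 := nd_pow hqp' (hpW q' hqW') n
        exact nd_sq hqp' (nd_mul hqp' (nd_mul hqp' (nd_mul hqp' (nd_mul hqp' hF1
          (nd_mul hqp' (nd_prime hq' hq hqq.symm) (hcast _ _ hqR3))) hm1) hW1)
          (nd_mul hqp' (nd_mul hqp' (nd_mul hqp' hF1 (hcast _ _ hqR2)) hm1) hW1))
  -- the other primes
  have hout : ∀ p : ℕ, p ∉ ({q, q'} : Finset ℕ) →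
      eeP p n f (ov ℚ (Y * Y')) (ov ℚ (A i)) = 1 := by
    intro p hp
    rw [Finset.mem_insert, Finset.mem_singleton, not_or] at hp
    by_cases hpp : p.Prime
    swap
    · rw [eeP, dif_neg hpp]
    haveI hf : Fact p.Prime := ⟨hpp⟩
    have hpi := Nat.prime_iff_prime_int.1 hpp
    by_cases hpW' : p ∣ W
    · rw [eeP, dif_pos hpp, oq_ov, oq_ov]
      obtain ⟨Z, hZ⟩ := hA.near i
      exact AsmQ.ee_W hEE hGMB hHEN hyp hpW' hZ (cop_nm hGMB ℚ_[p] hn hmon hdeg hNN0)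
    by_cases hpR : p ∣ R ∨ p ∣ R'
    · exact hLoc p hpp ((hl p hpp hpR).2.2 i)
    rw [not_or] at hpR
    by_cases hpF : p ∈ F
    · -- the primes in `F`
      obtain ⟨hsq, ep, hfp, hYp, hYp', hCpl⟩ := hFp p hpF
      have hF2 : (∏ x ∈ F, (x : ℤ)) = (p : ℤ) * ∏ x ∈ F.erase p, (x : ℤ) :=
        (Finset.mul_prod_erase F (fun x : ℕ => (x : ℤ)) hpF).symm
      have hF1 : ¬ (p : ℤ) ∣ ∏ x ∈ F.erase p, (x : ℤ) :=
        nd_prod (fun x hx => hFpr x (Finset.mem_of_mem_erase hx)) hpp (Finset.notMem_erase p F)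
      have hm1 := hpm p hpp hpW'
      have hW1 := nd_pow hpi (hpW p hpW') n
      have hv : ¬ (p : ℤ) ^ 2 ∣ nm f Y := by
        rw [hnY, hF2, mul_assoc (p : ℤ), mul_assoc (p : ℤ), mul_assoc (p : ℤ)]
        exact nd_sq hpi (nd_mul hpi (nd_mul hpi (nd_mul hpi hF1 (nd_mul hpi
          (nd_prime hpp hq hp.1) (hcast _ _ hpR.1))) hm1) hW1)
      have hv' : ¬ (p : ℤ) ^ 2 ∣ nm f Y' := by
        rw [hnY', hF2, mul_assoc (p : ℤ), mul_assoc (p : ℤ), mul_assoc (p : ℤ)]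
        exact nd_sq hpi (nd_mul hpi (nd_mul hpi (nd_mul hpi hF1 (nd_mul hpi
          (nd_prime hpp hq' hp.2) (hcast _ _ hpR.2))) hm1) hW1)
      have hsq2 : IsSquare ((nm f Y * nm f Y' : ℤ) : ℚ_[p]) := by
        have h1 : nm f Y * nm f Y' = ((((q * R) * (q' * R') : ℕ) : ℤ)) *
            ((∏ p ∈ F, (p : ℤ)) * m * (W : ℤ) ^ n) ^ 2 := by
          rw [hnY, hnY']
          push_cast
          ring
        rw [h1, Int.cast_mul, Int.cast_pow]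
        refine IsSquare.mul ?_ (IsSquare.sq _)
        refine AsmQ.sq_of_res (hne2 p hpW') (by exact_mod_cast hsq) ?_
        intro h0
        rw [ZMod.intCast_zmod_eq_zero_iff_dvd] at h0
        push_cast at h0
        exact nd_mul hpi (nd_mul hpi (nd_prime hpp hq hp.1) (hcast _ _ hpR.1))
          (nd_mul hpi (nd_prime hpp hq' hp.2) (hcast _ _ hpR.2)) h0
      obtain ⟨u, s, hu, hs1, hs2⟩ := hLOF hGMB hHEN p (hne2 p hpW') n f Y Y' ep (by omega) heven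
        hmon hdeg (hW.sep p hpp hpW') hfp hYp hN0 hv hYp' hN0' hv' hCpl hsq2
      rw [eeP, dif_pos hpp, oq_ov, oq_ov]
      exact (hEE ℚ_[p] (Pool.Agent.N446.M4.sym_ p) n (ov ℚ_[p] f) (ov ℚ_[p] (Y * Y'))
        (ov ℚ_[p] (A i)) hn heven (ov_monic _ hmon) (ov_deg _ hmon hdeg)
        (cop_nm hGMB ℚ_[p] hn hmon hdeg hNN0) (cop_locA _ hAc)).2.2.2 u s hu hs1 hs2
        (AsmQ.sq_loc hGMB _ hyp hAsq)
    · -- the good primes
      rw [eeP, dif_pos hpp, oq_ov, oq_ov]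
      refine hGDP hGMA hGMB hEE hUNI p (hne2 p hpW') n f (Y * Y') (ov ℚ_[p] (A i)) hn heven hmon
        hdeg ?_ (cop_locA _ hAc) (hEVN n W f L θ hθ hW p hpW' (A i) (hA.ne i) ?_)
      · rw [hNN, hnY, hnY']
        have hF1 := nd_prod hFpr hpp hpF
        have hm1 := hpm p hpp hpW'
        have hW1 := nd_pow hpi (hpW p hpW') n
        exact nd_mul hpi (nd_mul hpi (nd_mul hpi (nd_mul hpi hF1 (nd_mul hpi
          (nd_prime hpp hq hp.1) (hcast _ _ hpR.1))) hm1) hW1)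
          (nd_mul hpi (nd_mul hpi (nd_mul hpi hF1 (nd_mul hpi
          (nd_prime hpp hq' hp.2) (hcast _ _ hpR.2))) hm1) hW1)
      · intro 𝔓 h𝔓
        refine hA.ev i 𝔓 fun p' hp' hmem => ?_
        have hne : p ≠ p' := by
          rintro rfl
          exact hpF hp'
        have hco : IsCoprime (p : ℤ) (p' : ℤ) :=
          Nat.isCoprime_iff_coprime.2 ((Nat.coprime_primes hpp (hFpr p' hp')).2 hne)
        obtain ⟨a, b, hab⟩ := hco
        have h1 : (1 : 𝓞 L) ∈ 𝔓.asIdeal := by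
          have h2 : (1 : 𝓞 L) = (a : 𝓞 L) * (p : 𝓞 L) + (b : 𝓞 L) * (p' : 𝓞 L) := by
            have := congrArg (Int.cast : ℤ → 𝓞 L) hab
            push_cast at this
            exact this.symm
          rw [h2]
          exact Ideal.add_mem _ (Ideal.mul_mem_left _ _ h𝔓) (Ideal.mul_mem_left _ _ hmem)
        exact 𝔓.isPrime.ne_top ((Ideal.eq_top_iff_one _).2 h1)
  -- the product formula
  obtain ⟨T₀, hT1, hT2⟩ := hPRF n f (ov ℚ (Y * Y')) (ov ℚ (A i)) hn hmon hdeg hδ hAc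
  have hRe : ee n (ov ℝ f) (oq ℝ (ov ℚ (Y * Y'))) (oq ℝ (ov ℚ (A i))) = 1 := by
    rw [oq_ov, oq_ov]
    exact AsmQ.ee_R hEE hGMB hREA hyp (hA.pos i) (cop_locA _ hAc)
      (cop_nm hGMB ℝ hn hmon hdeg hNN0)
  rw [hRe, one_mul] at hT2
  have h1 : ∏ p ∈ T₀, eeP p n f (ov ℚ (Y * Y')) (ov ℚ (A i)) =
      ∏ p ∈ ({q, q'} : Finset ℕ), eeP p n f (ov ℚ (Y * Y')) (ov ℚ (A i)) := by
    have h2 : ∏ p ∈ T₀, eeP p n f (ov ℚ (Y * Y')) (ov ℚ (A i)) =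
        ∏ p ∈ T₀ ∪ {q, q'}, eeP p n f (ov ℚ (Y * Y')) (ov ℚ (A i)) :=
      Finset.prod_subset Finset.subset_union_left fun p _ hp => hT1 p hp
    have h3 : ∏ p ∈ ({q, q'} : Finset ℕ), eeP p n f (ov ℚ (Y * Y')) (ov ℚ (A i)) =
        ∏ p ∈ T₀ ∪ {q, q'}, eeP p n f (ov ℚ (Y * Y')) (ov ℚ (A i)) :=
      Finset.prod_subset Finset.subset_union_right fun p _ hp => hout p hp
    rw [h2, h3]
  rw [h1, Finset.prod_pair hqq, hq1, hq2] at hT2
  rcases sgn_pm (A i) q e with h5 | h5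
  · rw [h5, one_mul] at hT2
    rw [h5, hT2]
  · rw [h5] at hT2 ⊢
    linarith

end Pool.Agent.H30S
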