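import Pool.Agent.H30S.Stm
import Pool.Agent.H30Q.GPT

/-!
# Piece GDP of project HS: the symbol at the good primes
-/

set_option autoImplicit false
set_option linter.all false

open Polynomial

namespace Pool.Agent.H30S

open Pool.Agent.H30Q
open Pool.Agent.H30Q.PIP
open Pool.Agent.N202.M4 (hil IsSymbol)

/-- an integral polynomial whose norm is prime to `p` is a unit modulo `f` over `ℤ_p` -/
theorem gdp_cop (h2 : S_GMB) {p : ℕ} [Fact p.Prime] {n : ℕ} {f Y : ℤ[X]} (hn : 1 ≤ n)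
    (hm : f.Monic) (hd : f.natDegree = n) (hY : ¬ (p : ℤ) ∣ nm f Y) :
    IsCoprime (fz p Y) (fz p f) := by
  obtain ⟨-, -, g3⟩ := h2 ℤ n f hn hm hd
  have h3 := (g3 ℤ_[p] (Int.castRingHom ℤ_[p]) Y).2
  have hfm : (fz p f).Monic := hm.map _
  have hfd : (fz p f).natDegree = n := by rw [hm.natDegree_map, hd]
  obtain ⟨-, g7, -⟩ := h2 ℤ_[p] n (fz p f) hn hfm hfd
  refine (g7 (fz p Y)).mp ?_
  have h4 : nm (fz p f) (fz p Y) = ((nm f Y : ℤ) : ℤ_[p]) := h3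
  rw [h4, PadicInt.isUnit_iff]
  by_contra hne
  have h5 : ‖((nm f Y : ℤ) : ℤ_[p])‖ < 1 := lt_of_le_of_ne (PadicInt.norm_le_one _) hne
  exact hY ((PadicInt.norm_int_lt_one_iff_dvd _).mp h5)

theorem t_GDP : S_GDP := by
  intro h1 h2 h3 h4 p _ hp n f Y a hn hev hm hd hY ha hU
  have hsym : IsSymbol (hil ℚ_[p]) := Pool.Agent.N446.M4.sym_ p
  have hFm : (ov ℚ_[p] f).Monic := hm.map _
  have hFd : (ov ℚ_[p] f).natDegree = n := by rw [hm.natDegree_map, hd]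
  have hδ := gdp_cop h2 hn hm hd hY
  have hδ' : IsCoprime (ov ℚ_[p] Y) (ov ℚ_[p] f) := by
    rw [← fz_ov, ← fz_ov]
    exact hδ.map (Polynomial.mapRingHom (algebraMap ℤ_[p] ℚ_[p]))
  obtain ⟨a₀, s', ha₀, hs', hd2⟩ := hU
  have ha₀' : IsCoprime (a₀.map (algebraMap ℤ_[p] ℚ_[p])) (ov ℚ_[p] f) := by
    rw [← fz_ov]
    exact ha₀.map (Polynomial.mapRingHom (algebraMap ℤ_[p] ℚ_[p]))
  have e2 := (h3 ℚ_[p] hsym n (ov ℚ_[p] f) (ov ℚ_[p] Y)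
    (a₀.map (algebraMap ℤ_[p] ℚ_[p])) hn hev hFm hFd hδ' ha₀').2.1 a s' hs' hd2
  rw [e2, ← fz_ov Y]
  exact GPTP.unram h1 h2 h4 hp hn hm hd hδ ha₀

end Pool.Agent.H30S
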