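import Pool.Agent.H30S.Stm
import Pool.Agent.H30Q.PI
import Pool.Agent.H30Q.QPT

/-!
# Project HS (helper30), piece LOF: local squares at the primes in `F`
-/

set_option autoImplicit false
set_option linter.all false

open Polynomial
open scoped Classical

namespace Pool.Agent.H30S

open Pool.Agent.H30Q

namespace LOFP

open PIP

section

variable {p : ℕ} [hp : Fact p.Prime]

theorem nm_mulR {E : Type} [CommRing E] (F a b : E[X]) : nm F (a * b) = nm F a * nm F b := by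
  show Algebra.norm E (AdjoinRoot.mk F (a * b)) = _
  rw [map_mul, map_mul]

theorem nm_congr {E : Type} [CommRing E] {F a b : E[X]} (h : F ∣ a - b) : nm F a = nm F b := by
  have : AdjoinRoot.mk F a = AdjoinRoot.mk F b := by
    rw [← sub_eq_zero, ← map_sub, AdjoinRoot.mk_eq_zero]
    exact h
  show Algebra.norm E (AdjoinRoot.mk F a) = Algebra.norm E (AdjoinRoot.mk F b)
  rw [this]

theorem lin_map (ρ : ℤ_[p]) : ((X - C ρ : ℤ_[p][X])).map (algebraMap ℤ_[p] ℚ_[p]) =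
    X - C (ρ : ℚ_[p]) := by
  rw [Polynomial.map_sub, map_X, map_C]
  rfl

/-- the norm splits -/
theorem nm_split (h2 : S_GMB) {n : ℕ} (hn : 2 ≤ n) {f : ℤ[X]} (hf : f.Monic)
    (hd : f.natDegree = n) {ρ : ℤ_[p]} {G : ℤ_[p][X]} (hfG : fz p f = (X - C ρ) * G)
    (hG : G.Monic) (hGd : G.natDegree = n - 1) (A : ℤ[X]) :
    ((nm f A : ℤ) : ℤ_[p]) = (fz p A).eval ρ * nm G (fz p A) ∧
    ((nm f A : ℤ) : ℚ_[p]) = (((fz p A).eval ρ : ℤ_[p]) : ℚ_[p]) *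
      nm (G.map (algebraMap ℤ_[p] ℚ_[p])) (ov ℚ_[p] A) := by
  obtain ⟨-, -, g3⟩ := h2 ℤ n f (by omega) hf hd
  obtain ⟨-, -, g8⟩ := h2 ℤ_[p] (n - 1) G (by omega) hG hGd
  have hF : ov ℚ_[p] f = (X - C (ρ : ℚ_[p])) * G.map (algebraMap ℤ_[p] ℚ_[p]) := by
    rw [← fz_ov, hfG, Polynomial.map_mul, lin_map]
  have h3 : nm (ov ℚ_[p] f) (ov ℚ_[p] A) = ((nm f A : ℤ) : ℚ_[p]) :=
    (g3 ℚ_[p] (Int.castRingHom ℚ_[p]) A).2
  have h5 := (g8 ℚ_[p] (algebraMap ℤ_[p] ℚ_[p]) (fz p A)).2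
  rw [fz_ov] at h5
  have h6 : ((nm f A : ℤ) : ℚ_[p]) = (((fz p A).eval ρ : ℤ_[p]) : ℚ_[p]) *
      nm (G.map (algebraMap ℤ_[p] ℚ_[p])) (ov ℚ_[p] A) := by
    rw [← h3, hF, QPTP.nm_prod _ (monic_X_sub_C _) (hG.map _), QPTP.nm_lin, ev_ov]
  refine ⟨?_, h6⟩
  apply Subtype.coe_injective
  show (((nm f A : ℤ) : ℤ_[p]) : ℚ_[p]) = (((fz p A).eval ρ * nm G (fz p A) : ℤ_[p]) : ℚ_[p])
  rw [PadicInt.coe_intCast, h6, h5, PadicInt.coe_mul]
  rfl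

/-- the norm of `Y` modulo `G` is a unit -/
theorem unit_G (h2 : S_GMB) {n : ℕ} (hn : 2 ≤ n) {f : ℤ[X]} (hf : f.Monic)
    (hd : f.natDegree = n) {ρ : ℤ_[p]} {G : ℤ_[p][X]} (hfG : fz p f = (X - C ρ) * G)
    (hG : G.Monic) (hGd : G.natDegree = n - 1) {e : ℤ}
    (hρ : PadicInt.toZMod ρ = (e : ZMod p)) {Y : ℤ[X]} (hY : (p : ℤ) ∣ Y.eval e)
    (hY2 : ¬ (p : ℤ) ^ 2 ∣ nm f Y) : IsUnit (nm G (fz p Y)) := by
  rw [zm_unit, Ne, zm_dvd]
  intro h3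
  apply hY2
  have h4 : (p : ℤ_[p]) ∣ (fz p Y).eval ρ := by
    rw [← zm_dvd, ev_rd, hρ, rd_int]
    exact (ZMod.intCast_zmod_eq_zero_iff_dvd _ _).2 hY
  have h5 : (p : ℤ_[p]) ^ 2 ∣ ((nm f Y : ℤ) : ℤ_[p]) := by
    rw [(nm_split h2 hn hf hd hfG hG hGd Y).1, pow_two]
    exact mul_dvd_mul h4 h3
  rw [PadicInt.pow_p_dvd_int_iff] at h5
  exact h5

end

end LOFP

open PIP LOFP in
theorem t_LOF : S_LOF := by
  intro h2 hH p hpf hp2 n f Y Y' e hn hev hf hd hsep hfe hYe hY0 hY2 hYe' hY0' hY2' hcpl hsq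
  obtain ⟨c, Z, hpc, hdiv⟩ := hcpl
  have hx0 : PadicInt.toZMod ((fz p f).eval (e : ℤ_[p])) = 0 := by
    rw [ev_rd, zm_int, rd_int]
    exact (ZMod.intCast_zmod_eq_zero_iff_dvd _ _).2 hfe
  obtain ⟨ρ, G, hfG, hG, hρ, hu⟩ := PIP.fac f hf hsep (e : ℤ_[p]) hx0
  rw [zm_int] at hρ
  have hfd : (fz p f).natDegree = n := by rw [hf.natDegree_map, hd]
  have hGd : G.natDegree = n - 1 := by
    have h3 := congrArg Polynomial.natDegree hfG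
    rw [(monic_X_sub_C ρ).natDegree_mul hG, natDegree_X_sub_C, hfd] at h3
    omega
  have hF : ov ℚ_[p] f = (X - C (ρ : ℚ_[p])) * G.map (algebraMap ℤ_[p] ℚ_[p]) := by
    rw [← fz_ov, hfG, Polynomial.map_mul, lin_map]
  have hyu := unit_G h2 (by omega) hf hd hfG hG hGd hρ hYe hY2
  have hyu' := unit_G h2 (by omega) hf hd hfG hG hGd hρ hYe' hY2'
  obtain ⟨-, g7, g8⟩ := h2 ℤ_[p] (n - 1) G (by omega) hG hGd
  have hyG : IsCoprime (fz p Y) G := (g7 _).mp hyu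
  have hyG' : IsCoprime (fz p Y') G := (g7 _).mp hyu'
  -- the unit `c`
  have hc0 : (c : ZMod p) ≠ 0 := by
    intro h0
    exact hpc ((ZMod.intCast_zmod_eq_zero_iff_dvd _ _).1 h0)
  have hcQ : (c : ℚ_[p]) ≠ 0 := by
    rw [Int.cast_ne_zero]
    rintro rfl
    exact hc0 Int.cast_zero
  -- modulo `p`
  set Gb : (ZMod p)[X] := G.map PadicInt.toZMod with hGb
  have hfb : rd p f = (X - C (e : ZMod p)) * Gb := by
    rw [← fz_rd, hfG, Polynomial.map_mul, Polynomial.map_sub, map_X, map_C, hρ]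
  have hdb : Gb ∣ C (c : ZMod p) * rd p Y * rd p Y' - (rd p Z) ^ 2 := by
    have h3 : rd p ((X - C e) * (C c * Y * Y' - Z ^ 2)) =
        (X - C (e : ZMod p)) * (C (c : ZMod p) * rd p Y * rd p Y' - (rd p Z) ^ 2) := by
      show Polynomial.map (Int.castRingHom (ZMod p)) _ = _
      rw [Polynomial.map_mul, Polynomial.map_sub, Polynomial.map_sub, Polynomial.map_mul,
        Polynomial.map_mul, Polynomial.map_pow, map_X, map_C, map_C]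
      rfl
    rw [h3, hfb] at hdiv
    exact (mul_dvd_mul_iff_left (X_sub_C_ne_zero _)).1 hdiv
  obtain ⟨Kb, hKb⟩ := hdb
  have hyGb : IsCoprime (rd p Y) Gb := by
    have := hyG.map (Polynomial.mapRingHom (PadicInt.toZMod (p := p)))
    rw [coe_mapRingHom, fz_rd] at this
    exact this
  have hyGb' : IsCoprime (rd p Y') Gb := by
    have := hyG'.map (Polynomial.mapRingHom (PadicInt.toZMod (p := p)))
    rw [coe_mapRingHom, fz_rd] at this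
    exact this
  have hcC : IsCoprime (C (c : ZMod p)) Gb := ⟨C (c : ZMod p)⁻¹, 0, by
    rw [zero_mul, add_zero, ← C_mul, inv_mul_cancel₀ hc0, C_1]⟩
  have hZb : IsCoprime (rd p Z) Gb := by
    have h1 : (rd p Z) ^ 2 = C (c : ZMod p) * rd p Y * rd p Y' + (-Kb) * Gb := by
      linear_combination (-1 : (ZMod p)[X]) * hKb
    have h3 : IsCoprime ((rd p Z) ^ 2) Gb := by
      rw [h1]
      exact ((hcC.mul_left hyGb).mul_left hyGb').add_mul_right_left _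
    exact (IsCoprime.pow_left_iff (by norm_num)).1 h3
  have hZG : IsCoprime (fz p Z) G := by
    refine QPTP.cop_lift h2 (n := n - 1) (by omega) hG hGd ?_
    rw [fz_rd]
    exact hZb
  -- lift
  have hsur : Function.Surjective (PadicInt.toZMod (p := p)) := ZMod.ringHom_surjective _
  obtain ⟨K, hK⟩ := Polynomial.map_surjective _ hsur Kb
  obtain ⟨y0, hy0⟩ := QPTP.dvd_of_map_zero
    (C (c : ℤ_[p]) * fz p Y * fz p Y' - (fz p Z) ^ 2 - G * K) (by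
      rw [Polynomial.map_sub, Polynomial.map_sub, Polynomial.map_mul, Polynomial.map_mul,
        Polynomial.map_mul, Polynomial.map_pow, map_C, fz_rd, fz_rd, fz_rd, hK, zm_int, hKb,
        ← hGb, sub_self])
  obtain ⟨i4, hi4⟩ := four_unit (p := p) hp2
  obtain ⟨s, hs, hsd⟩ := hH p G (C (c : ℤ_[p]) * fz p Y * fz p Y') (fz p Z) (C i4 * y0) hG
    (by omega) hZG (by
      refine ⟨K, ?_⟩
      have h5 : C (4 * (p : ℤ_[p])) * (C i4 * y0) = C (p : ℤ_[p]) * y0 := by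
        rw [← mul_assoc, ← C_mul]
        congr 2
        linear_combination (p : ℤ_[p]) * hi4
      rw [h5, ← hy0]
      ring)
  -- over the field
  set GQ : ℚ_[p][X] := G.map (algebraMap ℤ_[p] ℚ_[p]) with hGQ
  set sQ : ℚ_[p][X] := s.map (algebraMap ℤ_[p] ℚ_[p]) with hsQ
  have hdQ : GQ ∣ C (c : ℚ_[p]) * ov ℚ_[p] Y * ov ℚ_[p] Y' - sQ ^ 2 := by
    have h3 := map_dvd (Polynomial.mapRingHom (algebraMap ℤ_[p] ℚ_[p])) hsd
    rw [map_sub, map_mul, map_mul, map_pow, coe_mapRingHom, fz_ov, fz_ov, Polynomial.map_C,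
      map_intCast] at h3
    exact h3
  have hnc : nm GQ (C (c : ℚ_[p])) = (c : ℚ_[p]) ^ (n - 1) := by
    rw [QPTP.nm_C (hG.map _), hG.natDegree_map, hGd]
  have hS : (c : ℚ_[p]) ^ (n - 1) * (nm GQ (ov ℚ_[p] Y) * nm GQ (ov ℚ_[p] Y')) =
      nm GQ sQ ^ 2 := by
    have h3 := nm_congr hdQ
    rw [nm_mulR, nm_mulR, hnc, pow_two sQ, nm_mulR] at h3
    linear_combination h3
  have hsp := (nm_split h2 (by omega) hf hd hfG hG hGd Y).2
  have hsp' := (nm_split h2 (by omega) hf hd hfG hG hGd Y').2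
  rw [← hGQ] at hsp hsp'
  obtain ⟨d, hdd⟩ := hsq
  have hYQ : ((nm f Y : ℤ) : ℚ_[p]) ≠ 0 := Int.cast_ne_zero.2 hY0
  have hYQ' : ((nm f Y' : ℤ) : ℚ_[p]) ≠ 0 := Int.cast_ne_zero.2 hY0'
  have hdd2 : ((nm f Y : ℤ) : ℚ_[p]) * ((nm f Y' : ℤ) : ℚ_[p]) = d * d := by
    rw [← hdd]
    push_cast
    rfl
  have hd0 : d ≠ 0 := by
    rintro rfl
    rw [mul_zero] at hdd2
    exact mul_ne_zero hYQ hYQ' hdd2
  obtain ⟨v, hv⟩ : ∃ v : ℚ_[p], v = (((fz p Y).eval ρ : ℤ_[p]) : ℚ_[p]) := ⟨_, rfl⟩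
  obtain ⟨v', hv'⟩ : ∃ v' : ℚ_[p], v' = (((fz p Y').eval ρ : ℤ_[p]) : ℚ_[p]) := ⟨_, rfl⟩
  obtain ⟨N, hN⟩ : ∃ N : ℚ_[p], N = nm GQ (ov ℚ_[p] Y) := ⟨_, rfl⟩
  obtain ⟨N', hN'⟩ : ∃ N' : ℚ_[p], N' = nm GQ (ov ℚ_[p] Y') := ⟨_, rfl⟩
  obtain ⟨S, hSd⟩ : ∃ S : ℚ_[p], S = nm GQ sQ := ⟨_, rfl⟩
  rw [← hv, ← hN] at hsp
  rw [← hv', ← hN'] at hsp'
  rw [← hN, ← hN', ← hSd] at hS
  have hN0 : N ≠ 0 := by
    rintro rfl
    rw [mul_zero] at hsp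
    exact hYQ hsp
  have hN0' : N' ≠ 0 := by
    rintro rfl
    rw [mul_zero] at hsp'
    exact hYQ' hsp'
  have hS0 : S ≠ 0 := by
    rintro rfl
    rw [zero_pow two_ne_zero] at hS
    exact mul_ne_zero (pow_ne_zero _ hcQ) (mul_ne_zero hN0 hN0') hS
  obtain ⟨j, hj⟩ : ∃ j, n - 1 = 2 * j + 1 := by
    obtain ⟨k, hk⟩ := hev
    exact ⟨k - 1, by omega⟩
  rw [hj] at hS
  have hvv : v * v' * (N * N') = d * d := by
    rw [← hdd2, hsp, hsp']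
    ring
  set b : ℚ_[p] := (c : ℚ_[p]) ^ (j + 1) * d / S with hb
  have hb0 : b ≠ 0 := div_ne_zero (mul_ne_zero (pow_ne_zero _ hcQ) hd0) hS0
  have hb2 : b ^ 2 = (c : ℚ_[p]) * (v * v') := by
    rw [hb, div_pow, div_eq_iff (pow_ne_zero 2 hS0), ← hS, mul_pow, pow_two d, ← hvv]
    ring
  obtain ⟨s', hs', ⟨q, hq⟩, hev'⟩ := crt hu s hb0 hs
  rw [← hfG, fz_ov] at hs'
  refine ⟨(c : ℚ_[p])⁻¹, s', inv_ne_zero hcQ, hs', ?_⟩
  have hYY : ov ℚ_[p] (Y * Y') = ov ℚ_[p] Y * ov ℚ_[p] Y' := by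
    show Polynomial.map _ (Y * Y') = _
    rw [Polynomial.map_mul]
  rw [hYY, hF]
  refine IsCoprime.mul_dvd ?_ ?_ ?_
  · have h3 := (cop_lin G ρ hu).map (Polynomial.mapRingHom (algebraMap ℤ_[p] ℚ_[p]))
    rw [coe_mapRingHom, lin_map] at h3
    exact h3
  · rw [Polynomial.dvd_iff_isRoot]
    show eval (ρ : ℚ_[p]) _ = 0
    rw [eval_sub, eval_mul, eval_mul, eval_pow, hev', eval_C, ev_ov, ev_ov, ← hv, ← hv', hb2]
    field_simp
    ring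
  · obtain ⟨k, hk⟩ := hdQ
    have hcc : C (c : ℚ_[p])⁻¹ * C (c : ℚ_[p]) = 1 := by
      rw [← C_mul, inv_mul_cancel₀ hcQ, C_1]
    rw [hq, ← hsQ, ← hGQ]
    refine ⟨C (c : ℚ_[p])⁻¹ * k - C (c : ℚ_[p])⁻¹ * (2 * sQ * q + GQ * q ^ 2), ?_⟩
    linear_combination C (c : ℚ_[p])⁻¹ * hk - ov ℚ_[p] Y * ov ℚ_[p] Y' * hcc

end Pool.Agent.H30S
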