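import Pool.Agent.H30S.Stm
import Pool.Agent.H30Q.QPT
import Pool.Agent.H30Q.PI

/-!
# Project HS, piece LSQ: local squares
-/

set_option autoImplicit false
set_option linter.all false

open Polynomial
open scoped Classical

namespace Pool.Agent.H30S.LSQP

open Pool.Agent.H30Q
open Pool.Agent.H30Q.AsmP (sgn)

variable {p : ℕ} [Fact p.Prime]

lemma prod_dvd (R : Finset (ZMod p)) (P : (ZMod p)[X]) (h : ∀ ρ ∈ R, P.eval ρ = 0) :
    ∏ ρ ∈ R, (X - C ρ) ∣ P := by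
  apply Finset.prod_dvd_of_coprime
  · intro i _ j _ hij
    exact Polynomial.isCoprime_X_sub_C_of_isUnit_sub (sub_ne_zero.mpr hij).isUnit
  · intro i hi
    exact dvd_iff_isRoot.mpr (h i hi)

lemma eval_rd (P : ℤ[X]) (e : ℤ) : (rd p P).eval (e : ZMod p) = ((P.eval e : ℤ) : ZMod p) := by
  rw [Polynomial.eval_intCast_map]
  rfl

/-- the square root modulo `p` -/
lemma root_mod {n : ℕ} {f A : ℤ[X]} (hf : f.Monic) (hd : f.natDegree = n) (hT : Tot n p f)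
    (hs : ∀ e : ℤ, (p : ℤ) ∣ f.eval e → sgn A p e = 1) :
    ∃ tb : (ZMod p)[X], rd p f ∣ rd p A - tb ^ 2 := by
  obtain ⟨R, hR, hR0⟩ := hT
  have hsq : ∀ ρ : ZMod p, ∃ b : ZMod p, ρ ∈ R → (rd p A).eval ρ = b ^ 2 := by
    intro ρ
    by_cases hρ : ρ ∈ R
    · obtain ⟨e, he⟩ := ZMod.intCast_surjective ρ
      have h1 : (p : ℤ) ∣ f.eval e := by
        rw [← ZMod.intCast_zmod_eq_zero_iff_dvd, ← eval_rd, he]
        exact hR0 ρ hρ
      have h2 := hs e h1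
      unfold sgn at h2
      split_ifs at h2 with h3
      · obtain ⟨b, hb⟩ := h3
        refine ⟨b, fun _ => ?_⟩
        rw [← he, eval_rd, hb, pow_two]
    · exact ⟨0, fun h => absurd h hρ⟩
  choose b hb using hsq
  obtain ⟨tb, htb⟩ : ∃ tb, tb = Lagrange.interpolate R id b := ⟨_, rfl⟩
  have h1 : ∀ ρ ∈ R, tb.eval ρ = b ρ := by
    intro ρ hρ
    rw [htb]
    exact Lagrange.eval_interpolate_at_node b (Set.injOn_id _) hρ
  have h2 : rd p f = ∏ ρ ∈ R, (X - C ρ) := by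
    refine Polynomial.eq_of_monic_of_dvd_of_natDegree_le (monic_prod_of_monic _ _ fun ρ _ =>
      monic_X_sub_C ρ) (hf.map _) (prod_dvd R _ hR0) ?_
    rw [hf.natDegree_map, hd, natDegree_prod_of_monic _ _ fun ρ _ => monic_X_sub_C ρ]
    simp [hR]
  refine ⟨tb, ?_⟩
  rw [h2]
  apply prod_dvd
  intro ρ hρ
  rw [eval_sub, eval_pow, h1 ρ hρ, hb ρ hρ, sub_self]

lemma part1 (h2 : S_GMB) (hH : S_HEN) (hp2 : p ≠ 2) {n : ℕ} {f A : ℤ[X]} (hn : 1 ≤ n)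
    (hf : f.Monic) (hd : f.natDegree = n) (hc : IsCoprime (rd p A) (rd p f)) (hT : Tot n p f)
    (hs : ∀ e : ℤ, (p : ℤ) ∣ f.eval e → sgn A p e = 1) :
    ∃ s : ℤ_[p][X], IsCoprime s (PIP.fz p f) ∧ PIP.fz p f ∣ PIP.fz p A - s ^ 2 := by
  obtain ⟨tb, zb, hzb⟩ := root_mod hf hd hT hs
  have htcop : IsCoprime tb (rd p f) := by
    have h1 : tb ^ 2 = rd p A + (-zb) * rd p f := by
      linear_combination (-1 : (ZMod p)[X]) * hzb
    have h3 : IsCoprime (tb ^ 2) (rd p f) := by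
      rw [h1]
      exact hc.add_mul_right_left _
    exact (IsCoprime.pow_left_iff (by norm_num)).1 h3
  have hsur : Function.Surjective (PadicInt.toZMod (p := p)) := ZMod.ringHom_surjective _
  obtain ⟨t, ht⟩ := Polynomial.map_surjective _ hsur tb
  obtain ⟨z, hz⟩ := Polynomial.map_surjective _ hsur zb
  have hfzm : (PIP.fz p f).Monic := hf.map _
  have hfzd : (PIP.fz p f).natDegree = n := by rw [hf.natDegree_map, hd]
  obtain ⟨y, hy⟩ := QPTP.dvd_of_map_zero (PIP.fz p A - t ^ 2 - PIP.fz p f * z) (by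
    rw [Polynomial.map_sub, Polynomial.map_sub, PIP.fz_rd, Polynomial.map_pow, ht,
      Polynomial.map_mul, PIP.fz_rd, hz, hzb, sub_self])
  obtain ⟨i4, hi4⟩ := PIP.four_unit (p := p) hp2
  refine hH p (PIP.fz p f) (PIP.fz p A) t (C i4 * y) hfzm (by omega)
    (QPTP.cop_lift h2 (n := n) hn hfzm hfzd (by rw [ht, PIP.fz_rd]; exact htcop)) ?_
  refine ⟨z, ?_⟩
  have h5 : C (4 * (p : ℤ_[p])) * (C i4 * y) = C (p : ℤ_[p]) * y := by
    rw [← mul_assoc, ← C_mul]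
    congr 2
    linear_combination (p : ℤ_[p]) * hi4
  rw [h5, ← hy]
  ring

lemma part2 {f A : ℤ[X]} (hf : f.Monic) (hsep : (rd p f).Separable) (s : ℚ_[p][X])
    (hs : ov ℚ_[p] f ∣ ov ℚ_[p] A - s ^ 2) (e : ℤ) (he : (p : ℤ) ∣ f.eval e) : sgn A p e = 1 := by
  obtain ⟨ρ, G, hG, -, hρ, -⟩ := PIP.fac f hf hsep (e : ℤ_[p]) (by
    rw [PIP.ev_rd, map_intCast, eval_rd]
    exact (ZMod.intCast_zmod_eq_zero_iff_dvd _ _).mpr he)
  have h0 : (PIP.fz p f).eval ρ = 0 := by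
    rw [hG]
    simp
  obtain ⟨c, hc⟩ := hs
  have h1 := congrArg (fun q => q.eval (ρ : ℚ_[p])) hc
  simp only [eval_sub, eval_mul, eval_pow] at h1
  rw [PIP.ev_ov, PIP.ev_ov, h0, PadicInt.coe_zero, zero_mul, sub_eq_zero] at h1
  have h2 : ‖s.eval (ρ : ℚ_[p])‖ ≤ 1 := by
    have h3 : ‖s.eval (ρ : ℚ_[p])‖ ^ 2 ≤ 1 := by
      rw [← norm_pow, ← h1]
      exact PadicInt.norm_le_one _
    exact (pow_le_one_iff_of_nonneg (norm_nonneg _) two_ne_zero).mp h3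
  obtain ⟨σ, hσ⟩ : ∃ σ : ℤ_[p], (σ : ℚ_[p]) = s.eval (ρ : ℚ_[p]) := ⟨⟨_, h2⟩, rfl⟩
  rw [← hσ, ← PadicInt.coe_pow] at h1
  have h3 : (PIP.fz p A).eval ρ = σ ^ 2 := PadicInt.ext h1
  have h4 := congrArg (PadicInt.toZMod (p := p)) h3
  rw [PIP.ev_rd, hρ, map_intCast, eval_rd, map_pow] at h4
  unfold sgn
  rw [if_pos ⟨PadicInt.toZMod σ, by rw [h4, pow_two]⟩]

end Pool.Agent.H30S.LSQP

namespace Pool.Agent.H30S

open Pool.Agent.H30Q

theorem t_LSQ : S_LSQ := by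
  intro h2 hH p hp hp2 n f A hn hf hd hsep hc
  constructor
  · intro hT hs h
    obtain ⟨s, hs1, hs2⟩ := LSQP.part1 h2 hH hp2 hn hf hd hc hT hs
    refine ⟨s.map (algebraMap ℤ_[p] ℚ_[p]), ?_, ?_⟩
    · have h3 := hs1.map (Polynomial.mapRingHom (algebraMap ℤ_[p] ℚ_[p]))
      rw [Polynomial.coe_mapRingHom, PIP.fz_ov] at h3
      exact h3
    · have h3 := Polynomial.map_dvd (algebraMap ℤ_[p] ℚ_[p]) hs2
      rw [Polynomial.map_sub, Polynomial.map_pow, PIP.fz_ov, PIP.fz_ov] at h3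
      exact h3
  · intro hL e he
    obtain ⟨s, -, hs⟩ := hL hp.out
    exact LSQP.part2 hf hsep s hs e he

end Pool.Agent.H30S
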