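import Pool.Agent.H30S.Stm
import Pool.Agent.H30Q.GMB
import Pool.Agent.H30Q.AsmA

/-!
# Project HS (helper30), piece PLA (helper3)
-/

set_option autoImplicit false
set_option linter.all false

open Polynomial IsDedekindDomain Matrix NumberField Filter Topology
open scoped Classical

namespace Pool.Agent.H30S

open Pool.Agent.H30Q
open Pool.Agent.H30Q.AsmP (sgn norm_eq)
open Pool.Agent.N874.PP (Ev)
open Pool.Agent.Q51.EL (Abv Ty1 Ty2)

namespace PLA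

theorem exists_abv (L : Type) [Field L] [NumberField L] {l : ℕ} (hl : l.Prime) :
    ∃ v : HeightOneSpectrum (𝓞 L), Abv v l := by
  have hne : Ideal.span {((l : ℕ) : 𝓞 L)} ≠ ⊤ := by
    intro h
    have h1 := Ideal.absNorm_span_natCast (S := 𝓞 L) l
    rw [h, Ideal.absNorm_top] at h1
    have h2 : 0 < Module.finrank ℤ (𝓞 L) := Module.finrank_pos
    have h3 : 1 < l ^ Module.finrank ℤ (𝓞 L) := Nat.one_lt_pow h2.ne' hl.one_lt
    omega
  obtain ⟨I, hI, hle⟩ := Ideal.exists_le_maximal _ hne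
  have hl0 : ((l : ℕ) : 𝓞 L) ≠ 0 := by exact_mod_cast hl.ne_zero
  have hlI : ((l : ℕ) : 𝓞 L) ∈ I := hle (Ideal.mem_span_singleton_self _)
  refine ⟨⟨I, hI.isPrime, ?_⟩, hlI⟩
  rintro rfl
  exact hl0 ((Ideal.mem_bot).1 hlI)

theorem dvd_of_mem {L : Type} [Field L] [NumberField L] {l : ℕ} (hl : l.Prime)
    {v : HeightOneSpectrum (𝓞 L)} (hv : Abv v l) {m : ℤ} (hm : (m : 𝓞 L) ∈ v.asIdeal) :
    (l : ℤ) ∣ m := by
  by_contra hne
  have hcop : IsCoprime (l : ℤ) m :=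
    (Prime.coprime_iff_not_dvd (Nat.prime_iff_prime_int.1 hl)).2 hne
  obtain ⟨x, y, hxy⟩ := hcop
  apply v.isPrime.ne_top
  rw [Ideal.eq_top_iff_one]
  have h5 : ((1 : ℤ) : 𝓞 L) ∈ v.asIdeal := by
    rw [← hxy]
    push_cast
    exact Ideal.add_mem _ (Ideal.mul_mem_left _ _ hv) (Ideal.mul_mem_left _ _ hm)
  simpa using h5

end PLA

open PLA

theorem t_PLA : S_PLA := by
  intro hVE n W f L _ _ θ hn hθ hW M Cc hC hCM hMW T hT α hα D hD hDW hDv hσ Y hY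
  have hD0 : D ≠ 0 := hD.ne_zero
  have hW0 : W ≠ 0 := hW.ne
  -- `α ≠ 0`
  have hα0 : α ≠ 0 := by
    rintro rfl
    obtain ⟨l, hll, hl⟩ := Nat.exists_infinite_primes (W + D.natAbs + 1)
    have h1 : ¬ l ∣ W := fun h => by
      have := Nat.le_of_dvd (Nat.pos_of_ne_zero hW0) h
      omega
    obtain ⟨v, hv⟩ := exists_abv L hl
    have h2 := (hDv l hl h1).2 ⟨v, hv, v.asIdeal.zero_mem⟩
    have h3 : l ∣ D.natAbs := Int.natCast_dvd.1 h2
    have := Nat.le_of_dvd (Int.natAbs_pos.2 hD0) h3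
    omega
  -- the norm
  obtain ⟨N, hN⟩ : ∃ N : ℤ, N = Algebra.norm ℤ α := ⟨_, rfl⟩
  have hNQ : ((N : ℤ) : ℚ) = Algebra.norm ℚ (α : L) := by
    rw [hN]
    exact Algebra.coe_norm_int α
  have hN0 : N ≠ 0 := by
    rw [hN, Ne, Algebra.norm_eq_zero_iff]
    exact hα0
  have hNv : ∀ v : HeightOneSpectrum (𝓞 L), α ∈ v.asIdeal → (N : 𝓞 L) ∈ v.asIdeal := by
    intro v hv
    have h1 := Ideal.absNorm_mem (Ideal.span {α})
    have h2 : Ideal.span {α} ≤ v.asIdeal := (Ideal.span_singleton_le_iff_mem _).2 hv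
    have h3 := h2 h1
    rw [Ideal.absNorm_span_singleton, ← hN] at h3
    rcases Int.natAbs_eq N with h | h
    · rw [h, Int.cast_natCast]
      exact h3
    · rw [h, Int.cast_neg, Int.cast_natCast]
      exact (Ideal.neg_mem_iff _).2 h3
  have hDN : D ∣ N := by
    rw [← Int.natAbs_dvd_natAbs, ← Nat.prod_primeFactors_of_squarefree (Int.squarefree_natAbs.2 hD)]
    refine Finset.prod_primes_dvd _ (fun l hl => (Nat.prime_of_mem_primeFactors hl).prime) ?_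
    intro l hl
    have hlp := Nat.prime_of_mem_primeFactors hl
    have hlD : (l : ℤ) ∣ D := Int.natCast_dvd.2 (Nat.dvd_of_mem_primeFactors hl)
    have hlW : ¬ l ∣ W := fun h => hDW l hlp h hlD
    obtain ⟨v, hv, hαv⟩ := (hDv l hlp hlW).1 hlD
    exact Int.natCast_dvd.1 (dvd_of_mem hlp hv (hNv v hαv))
  obtain ⟨m, hm⟩ := hDN
  have hm0 : m ≠ 0 := by
    rintro rfl
    exact hN0 (by rw [hm, mul_zero])
  have hmM : m.natAbs ≤ M := by
    have h1 := Algebra.norm_eq_prod_embeddings ℚ ℂ (α : L)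
    rw [← hNQ] at h1
    have h2 : ((N.natAbs : ℕ) : ℝ) ≤ (Cc * (D.natAbs : ℝ) ^ ((1 : ℝ) / n)) ^ n := by
      have h3 : ‖(algebraMap ℚ ℂ (N : ℚ))‖ = ((N.natAbs : ℕ) : ℝ) := by
        rw [map_intCast, Complex.norm_intCast, Nat.cast_natAbs, Int.cast_abs]
      rw [← h3, h1, norm_prod]
      calc ∏ σ : L →ₐ[ℚ] ℂ, ‖σ (α : L)‖ ≤
          ∏ σ : L →ₐ[ℚ] ℂ, (Cc * (D.natAbs : ℝ) ^ ((1 : ℝ) / n)) :=
            Finset.prod_le_prod (fun σ _ => norm_nonneg _) (fun σ _ => hσ σ.toRingHom)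
        _ = (Cc * (D.natAbs : ℝ) ^ ((1 : ℝ) / n)) ^ n := by
            rw [Finset.prod_const, Finset.card_univ, AlgHom.card, hθ.rank]
    have hDr : (0 : ℝ) < (D.natAbs : ℝ) := by exact_mod_cast Int.natAbs_pos.2 hD0
    have h4 : (Cc * (D.natAbs : ℝ) ^ ((1 : ℝ) / n)) ^ n = Cc ^ n * (D.natAbs : ℝ) := by
      rw [mul_pow, ← Real.rpow_natCast ((D.natAbs : ℝ) ^ ((1 : ℝ) / n)) n, ← Real.rpow_mul hDr.le,
        one_div, inv_mul_cancel₀ (by exact_mod_cast (by omega : n ≠ 0)), Real.rpow_one]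
    rw [h4, hm, Int.natAbs_mul, Nat.cast_mul, mul_comm (D.natAbs : ℝ)] at h2
    have h5 := le_of_mul_le_mul_right h2 hDr
    exact_mod_cast h5.trans hCM
  refine ⟨m, hm0, hmM, ?_, ?_, ?_⟩
  · intro l hl hlm
    refine hMW l hl (le_trans ?_ hmM)
    exact Nat.le_of_dvd (Int.natAbs_pos.2 hm0) (Int.natCast_dvd.1 hlm)
  · have h1 := (t_GMB ℤ n f hn hθ.mon hθ.deg).2.2 ℚ (Int.castRingHom ℚ) Y
    have h2 : ((nm f Y : ℤ) : ℚ) = Algebra.norm ℚ (aeval θ Y) := by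
      rw [norm_eq hθ Y]
      exact h1.2.symm
    have h3 : Algebra.norm ℚ ((W : L)) = (W : ℚ) ^ n := by
      have h4 := Algebra.norm_algebraMap (R := ℚ) (S := L) (W : ℚ)
      rw [hθ.rank, map_natCast] at h4
      exact h4
    rw [← hY, map_mul, h3, ← hNQ, hm] at h2
    have h5 : ((nm f Y : ℤ) : ℚ) = ((D * m * (W : ℤ) ^ n : ℤ) : ℚ) := by
      rw [h2]
      push_cast
      ring
    exact_mod_cast h5
  · intro l hl hlW hlD
    rcases hT l hl hlW α hα with h | ⟨v0, hv0, hn0, hαv0, -⟩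
    · obtain ⟨v, hv, hαv⟩ := (hDv l hl hlW).1 hlD
      exact absurd hαv (h v hv)
    · obtain ⟨e, he, hP⟩ := (hVE n W f L θ hθ hW l hl hlW).1 v0 hv0 hn0
      refine ⟨e, he, (hP Y ((W : 𝓞 L) * α) ?_).1 (Ideal.mul_mem_left _ _ hαv0)⟩
      rw [← hY]
      simp

end Pool.Agent.H30S
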