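import Pool.Agent.H30S.Stm

/-!
# Project HS (helper30), piece PLB (helper3)
-/

set_option autoImplicit false
set_option linter.all false

open Polynomial IsDedekindDomain Matrix NumberField Filter Topology
open scoped Classical

namespace Pool.Agent.H30S

open Pool.Agent.H30Q
open Pool.Agent.H30Q.AsmP (sgn)
open Pool.Agent.N874.PP (Ev)
open Pool.Agent.Q51.EL (Abv Ty1 Ty2)

theorem t_PLB : S_PLB := by
  intro hRAD hVE n W f L _ _ θ hθ hW T p hp hpW hT β hβ β' hβ' Y Y' hY hY' e hfe hYe hYe'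
  obtain ⟨v, hv, -, hvP⟩ := (hVE n W f L θ hθ hW p hp hpW).2.1 e hfe
  haveI := v.isPrime
  have hWv : ((W : ℤ) : 𝓞 L) ∉ v.asIdeal := by
    intro h
    have h1 := (hvP (C (W : ℤ)) ((W : ℤ) : 𝓞 L) (by
      rw [aeval_C]
      simp)).1 h
    rw [eval_C] at h1
    exact hpW (by exact_mod_cast h1)
  have hmem : ∀ (γ : 𝓞 L) (Z : ℤ[X]), (W : L) * (γ : L) = aeval θ Z → (p : ℤ) ∣ Z.eval e →
      γ ∈ v.asIdeal := by
    intro γ Z hZ hZe
    have h1 := (hvP Z (((W : ℤ) : 𝓞 L) * γ) (by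
      rw [← hZ]
      simp)).2 hZe
    exact (v.isPrime.mem_or_mem h1).resolve_left hWv
  obtain ⟨c, hc, hg⟩ := hT β hβ β' hβ' v hv (hmem β Y hY hYe) (hmem β' Y' hY' hYe')
  -- the primes above `p`
  have hp0 : ((p : ℕ) : 𝓞 L) ≠ 0 := by exact_mod_cast hp.ne_zero
  have hI : Ideal.span {((p : ℕ) : 𝓞 L)} ≠ ⊥ := by
    rw [Ne, Ideal.span_singleton_eq_bot]
    exact hp0
  have hfin : {w : HeightOneSpectrum (𝓞 L) | Abv w p ∧ w ≠ v}.Finite := by
    refine (Ideal.finite_factors hI).subset ?_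
    rintro w ⟨hw, -⟩
    show w.asIdeal ∣ Ideal.span {((p : ℕ) : 𝓞 L)}
    rw [Ideal.dvd_span_singleton]
    exact hw
  have hs : ∀ w ∈ hfin.toFinset, ∃ g : 𝓞 L, (c : 𝓞 L) * β * β' - g ^ 2 ∈ w.asIdeal := by
    intro w hw
    rw [Set.Finite.mem_toFinset] at hw
    exact hg w hw.1 hw.2
  choose gg hgg using hs
  obtain ⟨g, hgs⟩ := IsDedekindDomain.exists_forall_sub_mem_ideal
    (s := hfin.toFinset) (fun w : HeightOneSpectrum (𝓞 L) => w.asIdeal) (fun _ => 1)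
    (fun w _ => w.prime) (fun w _ w' _ hww h => hww (HeightOneSpectrum.ext h))
    (fun w => gg w.1 w.2)
  have hgw : ∀ w : HeightOneSpectrum (𝓞 L), Abv w p → w ≠ v →
      (c : 𝓞 L) * β * β' - g ^ 2 ∈ w.asIdeal := by
    intro w hw hwv
    have hws : w ∈ hfin.toFinset := by
      rw [Set.Finite.mem_toFinset]
      exact ⟨hw, hwv⟩
    have h1 := hgg w hws
    have h2 := hgs w hws
    rw [pow_one] at h2
    have h3 : (c : 𝓞 L) * β * β' - g ^ 2 = ((c : 𝓞 L) * β * β' - gg w hws ^ 2) -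
        (g + gg w hws) * (g - gg w hws) := by ring
    rw [h3]
    exact Ideal.sub_mem _ h1 (Ideal.mul_mem_left _ _ h2)
  obtain ⟨Z, hZ⟩ := hW.ord g
  have hint : IsIntegral ℤ θ := ⟨f, hθ.mon, hθ.root⟩
  obtain ⟨t, ht⟩ : ∃ t : 𝓞 L, (t : L) = θ := ⟨⟨θ, hint⟩, rfl⟩
  refine ⟨c, Z, hc, hRAD n W f L θ hθ hW p hp hpW ((X - C e) * (C c * Y * Y' - Z ^ 2))
    ((t - (e : 𝓞 L)) * ((c : 𝓞 L) * ((W : 𝓞 L) * β) * ((W : 𝓞 L) * β') - ((W : 𝓞 L) * g) ^ 2))
    ?_ ?_⟩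
  · rw [map_mul, map_sub, map_sub, map_mul, map_mul, map_pow, aeval_X, aeval_C, aeval_C, ← hY,
      ← hY', ← hZ, ← ht]
    simp
  · intro w hw
    by_cases hwv : w = v
    · rw [hwv]
      refine Ideal.mul_mem_right _ _ ?_
      refine (hvP (X - C e) _ ?_).2 ?_
      · rw [map_sub, aeval_X, aeval_C, ← ht]
        simp
      · rw [eval_sub, eval_X, eval_C, sub_self]
        exact dvd_zero _
    · refine Ideal.mul_mem_left _ _ ?_
      have h3 : (c : 𝓞 L) * ((W : 𝓞 L) * β) * ((W : 𝓞 L) * β') - ((W : 𝓞 L) * g) ^ 2 =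
          (W : 𝓞 L) ^ 2 * ((c : 𝓞 L) * β * β' - g ^ 2) := by ring
      rw [h3]
      exact Ideal.mul_mem_left _ _ (hgw w hw hwv)

end Pool.Agent.H30S
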