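import Pool.Agent.H30S.Stm
import Pool.Agent.H30Q.QPG

/-!
# Piece QPH of project HS: the symbol at `q` of a polynomial with a simple zero at one place above `q`
-/

set_option autoImplicit false
set_option linter.all false

open Polynomial
open scoped Classical

namespace Pool.Agent.H30S

open Pool.Agent.H30Q
open Pool.Agent.H30Q.AsmP (sgn)
open Pool.Agent.N202.M4 (hil IsSymbol)
open Pool.Agent.H30Q.PIP Pool.Agent.H30Q.AsmP Pool.Agent.H30Q.QPGP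

theorem t_QPH : S_QPH := by
  intro h1 h2 hB hL hU q hq hq2 n f Y A e hn hev hf hd hsep hqe hYe hY0 hY2 hc hs
  have hsym : IsSymbol (hil ℚ_[q]) := Pool.Agent.N446.M4.sym_ q
  obtain ⟨x', hx'e⟩ : ∃ x' : ℤ_[q], PadicInt.toZMod x' = (e : ZMod q) := ⟨(e : ℤ_[q]), map_intCast _ _⟩
  have hx0 : PadicInt.toZMod ((fz q f).eval x') = 0 := by
    rw [ev_rd, hx'e, rd_int]
    exact (ZMod.intCast_zmod_eq_zero_iff_dvd _ _).2 hqe
  obtain ⟨ρ, G, hfG, hG, hρ, hu⟩ := PIP.fac f hf hsep x' hx0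
  have hfm : (fz q f).Monic := hf.map _
  have hfd : (fz q f).natDegree = n := by rw [hf.natDegree_map, hd]
  have hGd : G.natDegree = n - 1 := by
    have h3 := congrArg Polynomial.natDegree hfG
    rw [(monic_X_sub_C ρ).natDegree_mul hG, natDegree_X_sub_C, hfd] at h3
    omega
  have hlin : ((X - C ρ : ℤ_[q][X])).map (algebraMap ℤ_[q] ℚ_[q]) = X - C (ρ : ℚ_[q]) := by
    rw [Polynomial.map_sub, map_X, map_C]
    rfl
  have hF : ov ℚ_[q] f = (X - C (ρ : ℚ_[q])) * G.map (algebraMap ℤ_[q] ℚ_[q]) := by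
    rw [← fz_ov, hfG, Polynomial.map_mul, hlin]
  obtain ⟨-, -, g3⟩ := h2 ℤ n f (by omega) hf hd
  have hprodQ : ∀ B : ℤ[X], nm (ov ℚ_[q] f) (ov ℚ_[q] B) = ((nm f B : ℤ) : ℚ_[q]) := fun B =>
    (g3 ℚ_[q] (Int.castRingHom ℚ_[q]) B).2
  have hprod : ∀ B : ℤ[X], ((nm f B : ℤ) : ℤ_[q]) = (fz q B).eval ρ * nm G (fz q B) := by
    intro B
    apply Subtype.coe_injective
    have h4 : nm (ov ℚ_[q] f) (ov ℚ_[q] B) = (((fz q B).eval ρ * nm G (fz q B) : ℤ_[q]) : ℚ_[q]) := by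
      obtain ⟨-, -, g8⟩ := h2 ℤ_[q] (n - 1) G (by omega) hG hGd
      have h5 := (g8 ℚ_[q] (algebraMap ℤ_[q] ℚ_[q]) (fz q B)).2
      rw [fz_ov] at h5
      rw [hF, QPTP.nm_prod _ (monic_X_sub_C _) (hG.map _), QPTP.nm_lin, h5, ev_ov, PadicInt.coe_mul]
      rfl
    show (((nm f B : ℤ) : ℤ_[q]) : ℚ_[q]) = (((fz q B).eval ρ * nm G (fz q B) : ℤ_[q]) : ℚ_[q])
    rw [← h4, hprodQ, PadicInt.coe_intCast]
  -- the polynomials
  set a : ℤ_[q][X] := fz q A with ha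
  set δ : ℤ_[q][X] := fz q Y with hδ
  have hδm : δ.map (algebraMap ℤ_[q] ℚ_[q]) = ov ℚ_[q] Y := fz_ov Y
  -- the valuation of `δ ρ`
  have hδq : (q : ℤ_[q]) ∣ δ.eval ρ := by
    rw [← zm_dvd, hδ, ev_rd, hρ, hx'e, rd_int]
    exact (ZMod.intCast_zmod_eq_zero_iff_dvd _ _).2 hYe
  obtain ⟨v, hvq⟩ := hδq
  have hnq2 : ¬ (q : ℤ_[q]) ^ 2 ∣ δ.eval ρ * nm G δ := by
    rw [← hprod Y, PadicInt.pow_p_dvd_int_iff]
    exact hY2
  have unit_of : ∀ z : ℤ_[q], ¬ IsUnit z → (q : ℤ_[q]) ∣ z := by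
    intro z hz
    rw [← zm_dvd]
    by_contra h
    exact hz ((zm_unit z).2 h)
  have hv : IsUnit v := by
    by_contra h
    obtain ⟨w, rfl⟩ := unit_of v h
    exact hnq2 ⟨w * nm G δ, by rw [hvq]; ring⟩
  have hnG : IsUnit (nm G δ) := by
    by_contra h
    obtain ⟨w, hw⟩ := unit_of _ h
    exact hnq2 ⟨v * w, by rw [hvq, hw]; ring⟩
  have hδG : IsCoprime δ G := by
    obtain ⟨-, g7, -⟩ := h2 ℤ_[q] (n - 1) G (by omega) hG hGd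
    exact (g7 δ).mp hnG
  have hδρ0 : δ.eval ρ ≠ 0 := by
    intro h0
    apply hnq2
    rw [h0, zero_mul]
    exact dvd_zero _
  have hδρQ : ((δ.eval ρ : ℤ_[q]) : ℚ_[q]) ≠ 0 := by
    intro h0
    exact hδρ0 (Subtype.coe_injective h0)
  have hδF' : IsCoprime (δ.map (algebraMap ℤ_[q] ℚ_[q])) (ov ℚ_[q] f) := by
    have hfmQ : (ov ℚ_[q] f).Monic := hf.map _
    have hfdQ : (ov ℚ_[q] f).natDegree = n := by
      show (f.map _).natDegree = n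
      rw [hf.natDegree_map, hd]
    obtain ⟨-, g7, -⟩ := h2 ℚ_[q] n (ov ℚ_[q] f) (by omega) hfmQ hfdQ
    rw [hδm]
    refine (g7 _).mp ?_
    rw [hprodQ]
    exact (Int.cast_ne_zero.mpr hY0).isUnit
  have haf : IsCoprime a (fz q f) := by
    refine QPTP.cop_lift h2 (n := n) (by omega) hfm hfd ?_
    rw [ha, fz_rd, fz_rd]
    exact hc
  have haG : IsCoprime a G := by
    rw [hfG] at haf
    exact haf.of_mul_right_right
  have haρ : IsUnit (a.eval ρ) := by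
    rw [hfG] at haf
    obtain ⟨s, t, hst⟩ := haf.of_mul_right_left
    have h3 := congrArg (fun P => P.eval ρ) hst
    simp only [eval_add, eval_mul, eval_sub, eval_X, eval_C, sub_self, mul_zero, add_zero,
      eval_one] at h3
    exact IsUnit.of_mul_eq_one_right _ h3
  have haF : IsCoprime (a.map (algebraMap ℤ_[q] ℚ_[q])) (ov ℚ_[q] f) := by
    rw [← fz_ov]
    exact haf.map (Polynomial.mapRingHom (algebraMap ℤ_[q] ℚ_[q]))
  -- the four forms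
  have key : ∀ b : ℤ_[q][X], IsCoprime b G → IsCoprime (b.map (algebraMap ℤ_[q] ℚ_[q])) (ov ℚ_[q] f) →
      Hs (Gn n (ov ℚ_[q] f) (b.map (algebraMap ℤ_[q] ℚ_[q]))) =
      hil ℚ_[q] (((b.eval ρ * G.eval ρ : ℤ_[q])) : ℚ_[q]) ((dd (n - 1) G ρ b : ℤ_[q]) : ℚ_[q]) := by
    intro b hb hbF
    rw [hF] at hbF ⊢
    exact hs_form h1 h2 hB hU hq2 (by omega) hG hGd hu hb hbF
  have hdu : ∀ b : ℤ_[q][X], IsCoprime b G → IsUnit (dd (n - 1) G ρ b) := fun b hb =>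
    dd_unit h1 h2 (by omega) hG hGd hu hb
  set N : ℤ_[q] := nm G a with hN
  have hNu : IsUnit N := by
    obtain ⟨-, g7, -⟩ := h2 ℤ_[q] (n - 1) G (by omega) hG hGd
    exact (g7 a).mpr haG
  have hdm : dd (n - 1) G ρ (δ * a) = dd (n - 1) G ρ δ * N := by
    unfold dd
    rw [← mul_assoc (X - C ρ), nm_mulR]
    ring
  have e1 := key (δ * a) (hδG.mul_left haG) (by
    rw [Polynomial.map_mul]
    exact hδF'.mul_left haF)
  have e2 := key δ hδG hδF'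
  have e3 := key a haG haF
  have e4 := key 1 isCoprime_one_left (by rw [Polynomial.map_one]; exact isCoprime_one_left)
  rw [Polynomial.map_mul] at e1
  rw [Polynomial.map_one] at e4
  have hee : ee n (ov ℚ_[q] f) (ov ℚ_[q] Y) (ov ℚ_[q] A) =
      hil ℚ_[q] ((δ.eval ρ : ℤ_[q]) : ℚ_[q]) (N : ℚ_[q]) := by
    have hA : ov ℚ_[q] A = a.map (algebraMap ℤ_[q] ℚ_[q]) := (fz_ov A).symm
    unfold ee
    rw [← hδm, hA, e1, e2, e3, e4, hdm, eval_mul, eval_one, one_mul]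
    have u3 : hil ℚ_[q] (((a.eval ρ * G.eval ρ : ℤ_[q])) : ℚ_[q])
        ((dd (n - 1) G ρ a : ℤ_[q]) : ℚ_[q]) = 1 :=
      Pool.Agent.N507.PQ.hil_units hq2 (haρ.mul hu) (hdu a haG)
    have u4 : hil ℚ_[q] ((G.eval ρ : ℤ_[q]) : ℚ_[q]) ((dd (n - 1) G ρ 1 : ℤ_[q]) : ℚ_[q]) = 1 :=
      Pool.Agent.N507.PQ.hil_units hq2 hu (hdu 1 isCoprime_one_left)
    rw [u3, u4, mul_one, mul_one]
    have d0 := coe_ne_zero (hdu δ hδG)
    have N0 := coe_ne_zero hNu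
    have g0 := coe_ne_zero hu
    have ag0 := coe_ne_zero (haρ.mul hu)
    have u5 : hil ℚ_[q] (((a.eval ρ * G.eval ρ : ℤ_[q])) : ℚ_[q])
        ((dd (n - 1) G ρ δ * N : ℤ_[q]) : ℚ_[q]) = 1 :=
      Pool.Agent.N507.PQ.hil_units hq2 (haρ.mul hu) ((hdu δ hδG).mul hNu)
    have u6 : hil ℚ_[q] ((G.eval ρ : ℤ_[q]) : ℚ_[q]) ((dd (n - 1) G ρ δ : ℤ_[q]) : ℚ_[q]) = 1 :=
      Pool.Agent.N507.PQ.hil_units hq2 hu (hdu δ hδG)
    have f1 : hil ℚ_[q] ((δ.eval ρ * a.eval ρ * G.eval ρ : ℤ_[q]) : ℚ_[q])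
        ((dd (n - 1) G ρ δ * N : ℤ_[q]) : ℚ_[q]) =
        hil ℚ_[q] ((δ.eval ρ : ℤ_[q]) : ℚ_[q]) ((dd (n - 1) G ρ δ : ℤ_[q]) : ℚ_[q]) *
        hil ℚ_[q] ((δ.eval ρ : ℤ_[q]) : ℚ_[q]) (N : ℚ_[q]) := by
      rw [mul_assoc, PadicInt.coe_mul (δ.eval ρ), hsym.symm, hsym.mul _ _ _ (by
        rw [PadicInt.coe_mul]; exact mul_ne_zero d0 N0) hδρQ ag0, hsym.symm _ ((δ.eval ρ : ℤ_[q]) : ℚ_[q]),
        hsym.symm _ ((a.eval ρ * G.eval ρ : ℤ_[q]) : ℚ_[q]), u5, mul_one, PadicInt.coe_mul,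
        hsym.mul _ _ _ hδρQ d0 N0]
    have f2 : hil ℚ_[q] ((δ.eval ρ * G.eval ρ : ℤ_[q]) : ℚ_[q])
        ((dd (n - 1) G ρ δ : ℤ_[q]) : ℚ_[q]) =
        hil ℚ_[q] ((δ.eval ρ : ℤ_[q]) : ℚ_[q]) ((dd (n - 1) G ρ δ : ℤ_[q]) : ℚ_[q]) := by
      rw [PadicInt.coe_mul (δ.eval ρ), hsym.symm, hsym.mul _ _ _ d0 hδρQ g0,
        hsym.symm _ ((δ.eval ρ : ℤ_[q]) : ℚ_[q]), hsym.symm _ ((G.eval ρ : ℤ_[q]) : ℚ_[q]), u6, mul_one]
    rw [f1, f2]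
    rcases hsym.pm ((δ.eval ρ : ℤ_[q]) : ℚ_[q]) ((dd (n - 1) G ρ δ : ℤ_[q]) : ℚ_[q]) with h3 | h3 <;>
      rw [h3] <;> ring
  have hkv : ((δ.eval ρ : ℤ_[q]) : ℚ_[q]) = (q : ℚ_[q]) ^ (2 * (0 : ℤ) + 1) * v := by
    rw [hvq, mul_zero, zero_add, zpow_one]
    push_cast
    rfl
  rw [hee, (hL q hq2 ((δ.eval ρ : ℤ_[q]) : ℚ_[q]) N hNu).1 ⟨0, v, hv, hkv⟩]
  unfold sgn
  -- the square
  have hsqZ : IsSquare (nm f A) := by
    rw [← Rat.isSquare_intCast_iff]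
    have : ((nm f A : ℤ) : ℚ) = nm (ov ℚ f) (ov ℚ A) := ((g3 ℚ (Int.castRingHom ℚ) A).2).symm
    rw [this]
    exact hs
  obtain ⟨r, hr⟩ := hsqZ
  have hred := congrArg (PadicInt.toZMod (p := q)) (hprod A)
  rw [map_intCast, map_mul, ev_rd, hρ, hx'e, rd_int, hr, Int.cast_mul] at hred
  have hN0 : PadicInt.toZMod N ≠ 0 := (zm_unit N).mp hNu
  have hA0 : ((A.eval e : ℤ) : ZMod q) ≠ 0 := by
    rw [← rd_int, ← hx'e, ← hρ, ← ev_rd]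
    exact (zm_unit _).mp haρ
  have hiff := sq_iff hA0 hN0 hred.symm
  by_cases h5 : IsSquare ((A.eval e : ℤ) : ZMod q)
  · rw [if_pos h5, if_pos (hiff.2 h5)]
  · rw [if_neg h5, if_neg (fun h => h5 (hiff.1 h))]

end Pool.Agent.H30S
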