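import Pool.Agent.H30S.Stm

/-!
# Project HS, piece RAD
-/

set_option autoImplicit false
set_option linter.all false

open Polynomial IsDedekindDomain Matrix NumberField Filter Topology
open scoped Classical

namespace Pool.Agent.H30S

open Pool.Agent.H30Q
open Pool.Agent.Q51.EL (Abv)

theorem t_RAD : S_RAD := by
  intro n W f L _ _ θ hR hW p hp hpW P x hx hv
  haveI : Fact p.Prime := ⟨hp⟩
  -- a power of `x` is divisible by `p`
  have h1 : x ∈ (Ideal.span {(p : 𝓞 L)}).radical := by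
    rw [Ideal.radical_eq_sInf, Ideal.mem_sInf]
    rintro J ⟨hJ, hJp⟩
    have hpJ : (p : 𝓞 L) ∈ J := hJ (Ideal.mem_span_singleton_self _)
    have hJ0 : J ≠ ⊥ := by
      rintro rfl
      rw [Ideal.mem_bot] at hpJ
      exact hp.ne_zero (by exact_mod_cast hpJ)
    exact hv ⟨J, hJp, hJ0⟩ hpJ
  obtain ⟨N, hN⟩ := h1
  obtain ⟨z, hz⟩ := Ideal.mem_span_singleton'.1 hN
  obtain ⟨Y, hY⟩ := hW.ord z
  -- the relation in `L`
  have h2 : aeval θ (C (W : ℤ) * P ^ N - C (p : ℤ) * Y) = 0 := by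
    have h3 : (z : L) * (p : L) = (x : L) ^ N := by
      have := congrArg (fun y : 𝓞 L => (y : L)) hz
      simpa using this
    rw [map_sub, map_mul, map_mul, map_pow, aeval_C, aeval_C, ← hx, ← hY, ← h3]
    simp only [algebraMap_int_eq, eq_intCast, Int.cast_natCast]
    ring
  have h3 : ov ℚ f ∣ ov ℚ (C (W : ℤ) * P ^ N - C (p : ℤ) * Y) := by
    have hf0 : aeval θ (ov ℚ f) = 0 := by
      have h4 : aeval θ (f.map (algebraMap ℤ ℚ)) = aeval θ f := aeval_map_algebraMap ℚ θ f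
      have h5 : (algebraMap ℤ ℚ) = Int.castRingHom ℚ := rfl
      rw [h5] at h4
      rw [h4]
      exact hR.root
    have hm := minpoly.eq_of_irreducible_of_monic hR.irr hf0 (hR.mon.map _)
    rw [hm]
    apply minpoly.dvd
    have h4 : aeval θ ((C (W : ℤ) * P ^ N - C (p : ℤ) * Y).map (algebraMap ℤ ℚ)) =
        aeval θ (C (W : ℤ) * P ^ N - C (p : ℤ) * Y) := aeval_map_algebraMap ℚ θ _
    have h5 : (algebraMap ℤ ℚ) = Int.castRingHom ℚ := rfl
    rw [h5] at h4
    rw [h4]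
    exact h2
  have h4 : f ∣ C (W : ℤ) * P ^ N - C (p : ℤ) * Y :=
    (Polynomial.map_dvd_map (Int.castRingHom ℚ) Int.cast_injective hR.mon).1 h3
  have h5 := Polynomial.map_dvd (Int.castRingHom (ZMod p)) h4
  have hp0 : ((p : ℤ) : ZMod p) = 0 := by simp
  rw [Polynomial.map_sub, Polynomial.map_mul, Polynomial.map_mul, Polynomial.map_pow, map_C,
    map_C] at h5
  simp only [eq_intCast, hp0, map_zero, zero_mul, sub_zero] at h5
  have hW0 : ((W : ℤ) : ZMod p) ≠ 0 := by
    rw [Int.cast_natCast]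
    intro h
    exact hpW ((ZMod.natCast_eq_zero_iff _ _).1 h)
  have hu : IsUnit (C ((W : ℤ) : ZMod p)) := isUnit_C.2 (isUnit_iff_ne_zero.2 hW0)
  have h6 : rd p f ∣ (rd p P) ^ N := by
    have h7 := (hu.dvd_mul_left).1 h5
    exact h7
  exact (hW.sep p hp hpW).squarefree.isRadical N _ h6

end Pool.Agent.H30S
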