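import Pool.Agent.H30S.Stm
import Pool.Agent.H30Q.SPL

/-!
# Piece VE of project HS: the primes of degree one and the zeros modulo `p`
-/

set_option autoImplicit false
set_option linter.all false

open Polynomial IsDedekindDomain NumberField
open scoped Classical

namespace Pool.Agent.H30S

open Pool.Agent.H30Q
open Pool.Agent.Q51.EL (Abv Ty1 Ty2)

section

variable {L : Type} [Field L] [NumberField L] {n W : ℕ} {f : ℤ[X]} {θ : L}

theorem ve_theta (hR : Rt n f θ) : IsIntegral ℤ θ := ⟨f, hR.mon, by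
  have := hR.root
  rwa [aeval_def] at this⟩

/-- the value of an integral polynomial at an algebraic integer -/
theorem ve_aeval (t : 𝓞 L) (P : ℤ[X]) : ((aeval t P : 𝓞 L) : L) = aeval (t : L) P :=
  (Polynomial.aeval_algebraMap_apply L t P).symm

theorem ve_mem_int {p : ℕ} (hp : p.Prime) (v : HeightOneSpectrum (𝓞 L)) (hv : Abv v p) (m : ℤ) :
    (m : 𝓞 L) ∈ v.asIdeal ↔ (p : ℤ) ∣ m := by
  constructor
  · intro h
    by_contra hne
    have hc : IsCoprime (p : ℤ) m := (Int.prime_iff_natAbs_prime.mpr (by simpa using hp)).coprime_iff_not_dvd.mpr hne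
    obtain ⟨a, b, hab⟩ := hc
    have h1 : (1 : 𝓞 L) ∈ v.asIdeal := by
      have h2 : (1 : 𝓞 L) = (a : 𝓞 L) * (p : 𝓞 L) + (b : 𝓞 L) * (m : 𝓞 L) := by
        have := congrArg (fun z : ℤ => (z : 𝓞 L)) hab
        push_cast at this
        exact this.symm
      rw [h2]
      exact v.asIdeal.add_mem (v.asIdeal.mul_mem_left _ hv) (v.asIdeal.mul_mem_left _ h)
    exact v.isPrime.ne_top ((Ideal.eq_top_iff_one _).mpr h1)
  · rintro ⟨c, rfl⟩
    push_cast
    exact v.asIdeal.mul_mem_right _ hv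

/-- a residue field with `p` elements consists of the classes of the integers -/
theorem ve_int_rep {p : ℕ} (hp : p.Prime) (v : HeightOneSpectrum (𝓞 L)) (hv : Abv v p)
    (hN : Ideal.absNorm v.asIdeal = p) (x : 𝓞 L) : ∃ e : ℤ, x - (e : 𝓞 L) ∈ v.asIdeal := by
  have : Fact p.Prime := ⟨hp⟩
  have hcard : Nat.card (𝓞 L ⧸ v.asIdeal) = p := by
    rw [← hN, Ideal.absNorm_apply, Submodule.cardQuot_apply]
  have hchar : CharP (𝓞 L ⧸ v.asIdeal) p := by
    refine ⟨fun k => ?_⟩
    have h1 : ((k : ℕ) : 𝓞 L ⧸ v.asIdeal) = Ideal.Quotient.mk v.asIdeal ((k : ℤ) : 𝓞 L) := by simp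
    rw [h1, Ideal.Quotient.eq_zero_iff_mem, ve_mem_int hp v hv]
    exact Int.natCast_dvd_natCast
  have : Finite (𝓞 L ⧸ v.asIdeal) := Nat.finite_of_card_ne_zero (by rw [hcard]; exact hp.ne_zero)
  have hinj : Function.Injective (ZMod.castHom (dvd_refl p) (𝓞 L ⧸ v.asIdeal)) :=
    ZMod.castHom_injective _
  have hbij : Function.Bijective (ZMod.castHom (dvd_refl p) (𝓞 L ⧸ v.asIdeal)) := by
    have : Fintype (𝓞 L ⧸ v.asIdeal) := Fintype.ofFinite _
    rw [Fintype.bijective_iff_injective_and_card]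
    refine ⟨hinj, ?_⟩
    rw [ZMod.card, ← Nat.card_eq_fintype_card, hcard]
  obtain ⟨z, hz⟩ := hbij.2 (Ideal.Quotient.mk v.asIdeal x)
  obtain ⟨m, rfl⟩ := ZMod.intCast_surjective z
  refine ⟨m, ?_⟩
  rw [← Ideal.Quotient.eq_zero_iff_mem, map_sub, ← hz, map_intCast, map_intCast, sub_self]

theorem ve_congr (t : 𝓞 L) (I : Ideal (𝓞 L)) (e : ℤ) (h : t - (e : 𝓞 L) ∈ I) (P : ℤ[X]) :
    aeval t P - ((P.eval e : ℤ) : 𝓞 L) ∈ I := by
  obtain ⟨Q, hQ⟩ := Polynomial.X_sub_C_dvd_sub_C_eval (a := e) (p := P)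
  have h1 := congrArg (aeval t) hQ
  simp only [map_sub, map_mul, aeval_X, aeval_C, algebraMap_int_eq, eq_intCast, map_intCast] at h1
  rw [h1]
  exact I.mul_mem_right _ h

end

open SPLaux in
theorem t_VE : S_VE := by
  intro n W f L _ _ θ hR hW p hp hpW
  have : Fact p.Prime := ⟨hp⟩
  have hθi := ve_theta hR
  have hWv : ∀ v : HeightOneSpectrum (𝓞 L), Abv v p → (W : 𝓞 L) ∉ v.asIdeal := by
    intro v hv h
    have h1 : ((W : ℤ) : 𝓞 L) ∈ v.asIdeal := by simpa using h
    rw [ve_mem_int hp v hv] at h1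
    exact hpW (Int.natCast_dvd_natCast.mp h1)
  refine ⟨?_, ?_, ?_⟩
  · intro v hv hN
    let t : 𝓞 L := ⟨θ, hθi⟩
    obtain ⟨e, he⟩ := ve_int_rep hp v hv hN t
    have key : ∀ (P : ℤ[X]) (x : 𝓞 L), (x : L) = aeval θ P → (x ∈ v.asIdeal ↔ (p : ℤ) ∣ P.eval e) := by
      intro P x hx
      have h1 : x = aeval t P := by
        apply NumberField.RingOfIntegers.ext
        rw [hx, ve_aeval]
        rfl
      have h2 := ve_congr t v.asIdeal e he P
      rw [← h1] at h2
      rw [← ve_mem_int hp v hv]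
      constructor
      · intro h
        have := v.asIdeal.sub_mem h h2
        simpa using this
      · intro h
        have := v.asIdeal.add_mem h2 h
        simpa using this
    refine ⟨e, ?_, key⟩
    exact (key f 0 (by rw [hR.root]; rfl)).mp v.asIdeal.zero_mem
  · intro e he
    have hρ : (rd p f).eval (e : ZMod p) = 0 := by
      have h1 : (rd p f).eval ((Int.castRingHom (ZMod p)) e) = Int.castRingHom (ZMod p) (f.eval e) :=
        Polynomial.eval_intCast_map _ _ _
      have h2 : ((f.eval e : ℤ) : ZMod p) = 0 := (ZMod.intCast_zmod_eq_zero_iff_dvd _ _).mpr he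
      rw [← h2]
      exact h1
    obtain ⟨φ, hφ⟩ := exists_hom hR hW hp hpW hρ
    have hsurj : Function.Surjective φ := by
      intro x
      obtain ⟨m, rfl⟩ := ZMod.intCast_surjective x
      exact ⟨(m : 𝓞 L), by rw [map_intCast]⟩
    have hmax : (RingHom.ker φ).IsMaximal := RingHom.ker_isMaximal_of_surjective _ hsurj
    have hpm : ((p : ℕ) : 𝓞 L) ∈ RingHom.ker φ := by
      rw [RingHom.mem_ker, map_natCast]
      exact ZMod.natCast_self p
    have hp0 : ((p : ℕ) : 𝓞 L) ≠ 0 := by exact_mod_cast hp.ne_zero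
    refine ⟨{ asIdeal := RingHom.ker φ
              isPrime := hmax.isPrime
              ne_bot := by
                intro h
                rw [h, Ideal.mem_bot] at hpm
                exact hp0 hpm }, hpm, ?_, ?_⟩
    · rw [Ideal.absNorm_apply, Submodule.cardQuot_apply]
      have h1 : Nat.card (𝓞 L ⧸ RingHom.ker φ) = Nat.card (ZMod p) :=
        Nat.card_congr (RingHom.quotientKerEquivOfSurjective hsurj).toEquiv
      rw [Nat.card_zmod] at h1
      exact h1
    · intro P x hx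
      have h1 : x ∈ RingHom.ker φ ↔ φ x = 0 := RingHom.mem_ker
      change x ∈ RingHom.ker φ ↔ _
      rw [h1, hφ x P hx, ← ZMod.intCast_zmod_eq_zero_iff_dvd]
      have h2 : (rd p P).eval ((Int.castRingHom (ZMod p)) e) = Int.castRingHom (ZMod p) (P.eval e) :=
        Polynomial.eval_intCast_map _ _ _
      have h3 : (rd p P).eval (e : ZMod p) = ((P.eval e : ℤ) : ZMod p) := h2
      rw [h3]
  · intro v v' e hv hv' h1 h2
    have hle : v.asIdeal ≤ v'.asIdeal := by
      intro x hx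
      obtain ⟨Y, hY⟩ := hW.ord x
      have h3 : (((W : 𝓞 L) * x : 𝓞 L) : L) = aeval θ Y := by
        rw [← hY]
        push_cast
        rfl
      have h4 : (W : 𝓞 L) * x ∈ v.asIdeal := v.asIdeal.mul_mem_left _ hx
      rw [h1 Y _ h3, ← h2 Y _ h3] at h4
      exact (v'.isPrime.mem_or_mem h4).resolve_left (hWv v' hv')
    have hmax : v.asIdeal.IsMaximal := v.isMaximal
    exact HeightOneSpectrum.ext (hmax.eq_of_le v'.isPrime.ne_top hle)

end Pool.Agent.H30S
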