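import Pool.Agent.H30S.Pt
import Pool.Agent.H30S.BDS
import Pool.Agent.H30S.CMP
import Pool.Agent.H30S.CH4
import Pool.Agent.H30S.GDP
import Pool.Agent.H30S.LOF
import Pool.Agent.H30S.LSQ
import Pool.Agent.H30S.PLA
import Pool.Agent.H30S.PLB
import Pool.Agent.H30S.QPH
import Pool.Agent.H30S.RAD
import Pool.Agent.H30S.VE

/-!
# Project HS (helper30): all pieces together
-/

set_option autoImplicit false
set_option linter.all false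

open Polynomial Filter Topology
open scoped Classical

namespace Pool.Agent.H30S

open Pool.Agent.H30Q Pool.Agent.H30Q.AsmP Pool.Agent.H30Q.AsmQ Pool.Agent.H30Q.GenP

theorem p_CMP : P_CMP :=
  t_CMP t_EEQ t_GMA t_GMB (t_PRF t_GMA t_GMB) t_HEN t_REA t_UNI t_EVN (t_BLK t_HS t_GMA t_GMB) t_LEG
    t_QPH t_LOF t_GDP t_LSQ

theorem p_BDS : P_BDS := t_BDS t_GMB p_CMP

theorem fin (g : ℤ[X]) (hirr : Irreducible (ov ℚ g)) (hev : Even g.natDegree)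
    (h6 : 6 ≤ g.natDegree) (hels : ELS g 1) (T : ℕ) (hT : T ≠ 0) :
    (∃ δ : ℝ, 0 < δ ∧ ∀ᶠ X : ℕ in atTop, (X : ℝ) / Real.log X ^ (1 - δ) ≤
      (((Finset.range (X + 1)).filter fun E : ℕ => Squarefree E ∧ E % T = 1 % T ∧
        VioS g (E : ℤ)).card : ℝ)) ∧
    ∃ (W : ℕ) (C κ : ℝ), W ≠ 0 ∧ T ∣ W ∧ 0 < C ∧ 0 ≤ κ ∧ κ < 1 ∧
    (∃ c : ℝ, 0 < c ∧ ∀ᶠ x : ℕ in atTop, c * (Nat.primeCounting x : ℝ) ≤ (upTo (SS W g) x).card) ∧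
    (∀ F : Finset ℕ, (∀ p ∈ F, p ∈ SS W g) → ELS g (∏ p ∈ F, (p : ℤ))) ∧
    (∀ F : Finset ℕ, (∀ p ∈ F, p ∈ SS W g) → ∀ q : ℕ, q.Prime → q % W = 1 % W → q ∉ F →
      (ELS g (∏ p ∈ insert q F, (p : ℤ)) ↔ q ∈ SS W g)) ∧
    ∀ (k : ℕ) (F : Finset ℕ), (∀ p ∈ F, p ∈ SS W g) →
      It (SS W g) (fun F => if VioS g (∏ p ∈ F, (p : ℤ)) then 0 else 1) (k + 1) F ≤
      C * κ ^ k * (4 * g.natDegree / 2 ^ g.natDegree) ^ tsp g F :=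
  mainS p_BDS t_PLA t_PLB t_RAD t_VE t_LSQ t_CH4 g hirr hev h6 hels T hT

end Pool.Agent.H30S
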