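import Pool.Agent.H30S.HVS
import Pool.Agent.H30Q.Fin

/-!
# Project HS (helper30): the main theorem from the pieces
-/

set_option autoImplicit false
set_option linter.all false

open Polynomial IsDedekindDomain Matrix NumberField Filter Topology
open scoped Classical

namespace Pool.Agent.H30S

open Pool.Agent.H30Q Pool.Agent.H30Q.AsmP Pool.Agent.H30Q.AsmQ Pool.Agent.H30Q.GenP
open Pool.Agent.Q161.SX (HasSec)
open Pool.Agent.Q51.EL (Setup Abv Ty1 Ty2)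

lemma root_g {g : ℤ[X]} {L : Type} [Field L] [NumberField L] {θ : L} (hn : 1 ≤ g.natDegree)
    (h : aeval θ (nz g) = 0) : aeval (((g.leadingCoeff : ℤ) : L)⁻¹ * θ) g = 0 := by
  have hg : g ≠ 0 := by
    rintro rfl
    rw [natDegree_zero] at hn
    omega
  have ha : ((g.leadingCoeff : ℤ) : L) ≠ 0 := Int.cast_ne_zero.2 (leadingCoeff_ne_zero.2 hg)
  have h1 := nz_eval (F := L) hn (((g.leadingCoeff : ℤ) : L)⁻¹ * θ)
  rw [mul_inv_cancel_left₀ ha] at h1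
  rw [aeval_def, eval₂_eq_eval_map, algebraMap_int_eq] at h
  rw [h] at h1
  have h2 := (mul_eq_zero.1 h1.symm).resolve_left (pow_ne_zero _ ha)
  rw [aeval_def, eval₂_eq_eval_map, algebraMap_int_eq]
  exact h2

/-- Not soluble by 2-descent, or a section. -/
def BadS (g : ℤ[X]) (E : ℤ) : Prop := HasFake (nz g) (g.leadingCoeff * E) ∨ HasSec.{0, 0} g E

/-- `W`, `L`, `θ`. -/
theorem setup (hBDS : P_BDS) (hPLA : S_PLA) (hPLB : S_PLB) (hRAD : S_RAD) (hVE : S_VE)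
    (hLSQ : S_LSQ) (g : ℤ[X]) (hirr : Irreducible (ov ℚ g)) (hev : Even g.natDegree)
    (h6 : 6 ≤ g.natDegree) (T : ℕ) (hT : T ≠ 0) :
    ∃ (W : ℕ) (L : Type) (_ : Field L) (_ : NumberField L) (θ : L) (κ c₀ : ℝ) (K : ℕ),
      Hy g.natDegree (nz g) ∧ H30Q.Rt g.natDegree (nz g) θ ∧ GW g.natDegree (nz g) θ W ∧ T ∣ W ∧
      g.leadingCoeff ∣ (W : ℤ) ∧ Den W (nz g) κ c₀ ∧
      HVb g.natDegree W (nz g) θ K (fun E => BadS g (E : ℤ)) := by
  have hn : 1 ≤ g.natDegree := by omega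
  have hg : g ≠ 0 := by
    rintro rfl
    rw [natDegree_zero] at hn
    omega
  have ha : g.leadingCoeff ≠ 0 := leadingCoeff_ne_zero.2 hg
  have hm : (nz g).Monic := monic_integralNormalization hg
  have hsep : (ov ℚ (nz g)).Separable := (nz_irr hn hirr).separable
  have hyp : Hy g.natDegree (nz g) := ⟨h6, hev, hm, natDegree_integralNormalization, hsep⟩
  obtain ⟨L, iL, iL', θ, hθ⟩ := exists_field' hyp (nz_irr hn hirr)
  have hS : Setup g L (((g.leadingCoeff : ℤ) : L)⁻¹ * θ) := ⟨hirr, root_g hn hθ.root, hθ.rank⟩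
  obtain ⟨B, c, N, T', hB, hc, hT', hD⟩ := at_sec g L _ hS hev h6
  obtain ⟨M, hM⟩ := exists_nat_ge (c ^ g.natDegree)
  obtain ⟨W, hTW, hW⟩ := t_BAD g.natDegree (T * g.leadingCoeff.natAbs * (B * M.factorial)) (nz g) L θ
    hn hθ (mul_ne_zero (mul_ne_zero hT (Int.natAbs_ne_zero.2 ha))
      (mul_ne_zero hB M.factorial_ne_zero))
  have hTW' : T ∣ W := (dvd_mul_right _ _).trans ((dvd_mul_right _ _).trans hTW)
  have hgW : g.leadingCoeff ∣ (W : ℤ) := by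
    rw [← Int.natAbs_dvd_natAbs, Int.natAbs_natCast]
    exact (dvd_mul_left _ _).trans ((dvd_mul_right _ _).trans hTW)
  have hBW : B ∣ W := (dvd_mul_right _ _).trans ((dvd_mul_left _ _).trans hTW)
  have hMW : M.factorial ∣ W := (dvd_mul_left _ _).trans ((dvd_mul_left _ _).trans hTW)
  obtain ⟨hwt, ⟨κ, hκ0, hκ1, hκ⟩, c₀, hc₀, hcnt⟩ := t_MEA g.natDegree W (nz g) h6 hm
    natDegree_integralNormalization hsep hW.ne hW.sep
  refine ⟨W, L, iL, iL', θ, κ, c₀, 1 + N * (2 * M + 1), hyp, hθ, hW, hTW', hgW,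
    ⟨hwt, hκ0, hκ1, hκ, hc₀, hcnt⟩, ?_⟩
  exact (HVb.fake hyp hθ hW hgW).or (HVb.sec hBDS hPLA hPLB hRAD hVE hLSQ hyp hθ hW hc hM
    (fun l hl hlM => (hl.dvd_factorial.2 hlM).trans hMW) hBW hT' hD)

/-- Everywhere locally soluble twists. -/
lemma els_all {n W : ℕ} {f : ℤ[X]} {L : Type} [Field L] [NumberField L] {θ : L} (hyp : Hy n f)
    (hW : GW n f θ W) {D₀ : ℤ} (hD₀ : D₀ ≠ 0) (hDW : D₀ ∣ (W : ℤ)) (hels : ELS f D₀)
    (F : Finset ℕ) (hF : ∀ p ∈ F, p ∈ SS W f) : ELS f (D₀ * ∏ p ∈ F, (p : ℤ)) := by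
  have hSSW : ∀ q ∈ SS W f, ¬ q ∣ W := fun q hq => SS_W hW.ne hW.eight hq.1 hq.2.1
  have hFpr : ∀ p ∈ F, p.Prime := fun p hp => (hF p hp).1
  have h1 : (∏ p ∈ F, (p : ℤ)) = ((∏ p ∈ F, p : ℕ) : ℤ) := by push_cast; rfl
  have h2 : (∏ p ∈ F, p) ≠ 0 := Finset.prod_ne_zero_iff.2 fun p hp => (hFpr p hp).ne_zero
  rw [h1]
  refine ⟨fun p _ => ?_, els_real h2 hels.2⟩
  refine els t_WEI t_SMP t_SQR hyp hW hD₀ hDW h2 (prod_mod _ fun q hq => (hF q hq).2.1) ?_ hels.1 p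
  intro p hp hd
  have hpF : p ∈ F := by
    by_contra hn
    exact coprime_of_primes hFpr hp hn hd
  refine ⟨hSSW p (hF p hpF), ?_⟩
  obtain ⟨e, he⟩ := (hF p hpF).2.2
  exact ⟨e, by rw [eval_rd, ZMod.intCast_zmod_eq_zero_iff_dvd]; exact he⟩

/-- Converse. -/
lemma els_conv {n W : ℕ} {f : ℤ[X]} {L : Type} [Field L] [NumberField L] {θ : L} (hyp : Hy n f)
    (hW : GW n f θ W) {D₀ : ℤ} (hDW : D₀ ∣ (W : ℤ)) (F : Finset ℕ) (hF : ∀ p ∈ F, p ∈ SS W f)
    (q : ℕ) (hq : q.Prime) (hqW : q % W = 1 % W) (hqF : q ∉ F)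
    (hloc : ELS f (D₀ * ∏ p ∈ insert q F, (p : ℤ))) : q ∈ SS W f := by
  haveI : Fact q.Prime := ⟨hq⟩
  have hSSW : ∀ q ∈ SS W f, ¬ q ∣ W := fun q hq => SS_W hW.ne hW.eight hq.1 hq.2.1
  have hqW' : ¬ q ∣ W := SS_W hW.ne hW.eight hq hqW
  have hUpr : ∀ p ∈ insert q F, p.Prime := by
    intro p hp
    rcases Finset.mem_insert.1 hp with rfl | hp
    · exact hq
    · exact (hF p hp).1
  have hUW : ∀ p ∈ insert q F, ¬ p ∣ W := by
    intro p hp
    rcases Finset.mem_insert.1 hp with rfl | hp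
    · exact hqW'
    · exact hSSW p (hF p hp)
  obtain ⟨x, y, hy, hxy⟩ := hloc.1 q
  have hv := val_facts hDW _ hUpr hUW q (Finset.mem_insert_self _ _)
  have h1 : (∏ p ∈ insert q F, (p : ℤ)) = ((∏ p ∈ insert q F, p : ℕ) : ℤ) := by
    push_cast; rfl
  rw [← h1] at hv
  have hq2 : q ≠ 2 := by
    rintro rfl
    exact hqW' (dvd_trans (by norm_num) hW.eight)
  obtain ⟨e, he, -⟩ := (t_PI t_HEN q hq2 n f hyp.even hyp.mon hyp.deg (hW.sep q hq hqW')).1 _ x y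
    hv.1 hv.2 hy hxy
  exact ⟨hq, hqW, e, he⟩

/-- Violates the Hasse principle, and no sections. -/
structure VioS (g : ℤ[X]) (E : ℤ) : Prop where
  vio : Vio g E
  sec : ¬ HasSec.{0, 0} g E

lemma prime_prod {F : Finset ℕ} (hF : ∀ p ∈ F, p.Prime) {p : ℕ} (hp : p ∈ F) :
    ¬ (p : ℤ) ^ 2 ∣ ∏ q ∈ F, (q : ℤ) := by
  intro hd
  have hpp := hF p hp
  rw [← Finset.mul_prod_erase _ _ hp, sq] at hd
  have h4 : (p : ℤ) ∣ ∏ x ∈ F.erase p, (x : ℤ) :=
    (mul_dvd_mul_iff_left (by exact_mod_cast hpp.ne_zero)).1 hd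
  obtain ⟨q, hq, hpq⟩ := ((Nat.prime_iff_prime_int.1 hpp).dvd_finsetProd_iff _).1 h4
  have h5 : p ∣ q := by exact_mod_cast hpq
  have h6 := (Nat.prime_dvd_prime_iff_eq hpp (hF q (Finset.mem_of_mem_erase hq))).1 h5
  exact Finset.ne_of_mem_erase hq h6.symm

theorem mainS (hBDS : P_BDS) (hPLA : S_PLA) (hPLB : S_PLB) (hRAD : S_RAD) (hVE : S_VE)
    (hLSQ : S_LSQ) (hCH4 : S_CH4) (g : ℤ[X]) (hirr : Irreducible (ov ℚ g)) (hev : Even g.natDegree)
    (h6 : 6 ≤ g.natDegree) (hels : ELS g 1) (T : ℕ) (hT : T ≠ 0) :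
    (∃ δ : ℝ, 0 < δ ∧ ∀ᶠ X : ℕ in atTop, (X : ℝ) / Real.log X ^ (1 - δ) ≤
      (((Finset.range (X + 1)).filter fun E : ℕ => Squarefree E ∧ E % T = 1 % T ∧
        VioS g (E : ℤ)).card : ℝ)) ∧
    ∃ (W : ℕ) (C κ : ℝ), W ≠ 0 ∧ T ∣ W ∧ 0 < C ∧ 0 ≤ κ ∧ κ < 1 ∧
    (∃ c : ℝ, 0 < c ∧ ∀ᶠ x : ℕ in atTop, c * (Nat.primeCounting x : ℝ) ≤ (upTo (SS W g) x).card) ∧
    (∀ F : Finset ℕ, (∀ p ∈ F, p ∈ SS W g) → ELS g (∏ p ∈ F, (p : ℤ))) ∧
    (∀ F : Finset ℕ, (∀ p ∈ F, p ∈ SS W g) → ∀ q : ℕ, q.Prime → q % W = 1 % W → q ∉ F →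
      (ELS g (∏ p ∈ insert q F, (p : ℤ)) ↔ q ∈ SS W g)) ∧
    ∀ (k : ℕ) (F : Finset ℕ), (∀ p ∈ F, p ∈ SS W g) →
      It (SS W g) (fun F => if VioS g (∏ p ∈ F, (p : ℤ)) then 0 else 1) (k + 1) F ≤
      C * κ ^ k * (4 * g.natDegree / 2 ^ g.natDegree) ^ tsp g F := by
  have hn : 1 ≤ g.natDegree := by omega
  have hg : g ≠ 0 := by
    rintro rfl
    rw [natDegree_zero] at hn
    omega
  have ha : g.leadingCoeff ≠ 0 := leadingCoeff_ne_zero.2 hg
  have hm : (nz g).Monic := monic_integralNormalization hg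
  have hels' : ELS (nz g) g.leadingCoeff := by
    have h := (ELS_iff hn hev 1).1 hels
    rwa [mul_one] at h
  obtain ⟨W, L, iL, iL', θ, κ, c₀, K, hyp, hθ, hW, hTW, hgW, hd, hHV⟩ :=
    setup hBDS hPLA hPLB hRAD hVE hLSQ g hirr hev h6 T hT
  have hSS := SS_eq hn hW.ne hgW
  have hE : ∀ F : Finset ℕ, (∀ p ∈ F, p ∈ SS W g) → ELS g (∏ p ∈ F, (p : ℤ)) := by
    intro F hF
    rw [hSS] at hF
    exact (ELS_iff hn hev _).2 (els_all hyp hW ha hgW hels' F hF)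
  have hvio : ∀ F : Finset ℕ, F.Nonempty → (∀ p ∈ F, p ∈ SS W g) → ¬ BadS g (∏ p ∈ F, (p : ℤ)) →
      VioS g (∏ p ∈ F, (p : ℤ)) := by
    rintro F ⟨p, hp⟩ hF hb
    have hpp := (hF p hp).1
    refine ⟨vio_of hirr hev h6 (hE F hF) (fun h => hb (Or.inl h)) hpp
      (Finset.dvd_prod_of_mem _ hp) (prime_prod (fun p hp => (hF p hp).1) hp)
      (lc_unit hW.ne hgW hpp (hF p hp).2.1), fun h => hb (Or.inr h)⟩
  constructor
  · obtain ⟨δ, hδ, h⟩ := cnt hCH4 hyp hθ hW hd hHV hTW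
    refine ⟨δ, hδ, ?_⟩
    filter_upwards [h] with X hX
    refine hX.trans ?_
    exact_mod_cast Finset.card_le_card (by
      intro E hE'
      obtain ⟨h1, h2, h3, F, hFne, hF, rfl⟩ := Finset.mem_filter.1 hE'
      rw [← hSS] at hF
      refine Finset.mem_filter.2 ⟨h1, ?_, h2, ?_⟩
      · refine Finset.squarefree_prod_of_pairwise_isCoprime ?_ fun p hp => (hF p hp).1.squarefree
        intro p hp p' hp' hne
        exact Nat.coprime_iff_isRelPrime.1 ((Nat.coprime_primes (hF p hp).1 (hF p' hp').1).2 hne)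
      · rw [Nat.cast_prod] at h3 ⊢
        exact hvio F hFne hF h3)
  · obtain ⟨c, hc, hden⟩ := dens hyp hθ hW hd
    have hden' := hden K _ hHV
    have hlow := hd.low
    have hwt := hd.wt
    rw [← hSS] at hlow hwt
    refine ⟨W, g.natDegree * c * (K + 1), κ, hW.ne, hTW, by positivity, hd.κ0, hd.κ1,
      ⟨c₀, hd.c0, hlow⟩, hE, ?_, ?_⟩
    · intro F hF q hq hqW hqF
      constructor
      · intro hloc
        rw [hSS] at hF ⊢
        exact els_conv hyp hW hgW F hF q hq hqW hqF ((ELS_iff hn hev _).1 hloc)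
      · intro hqS
        refine hE _ fun p hp => ?_
        rcases Finset.mem_insert.1 hp with rfl | hp
        · exact hqS
        · exact hF p hp
    · intro k F hF
      have hle : It (SS W g) (fun F => if VioS g (∏ p ∈ F, (p : ℤ)) then (0 : ℝ) else 1) (k + 1) F ≤
          It (SS W g) (fun F => if BadS g ((∏ p ∈ F, p : ℕ) : ℤ) then (1 : ℝ) else 0) (k + 1) F := by
        refine It_mono (fun F => ?_) (fun F => ?_) ?_ (k + 1) F (Or.inr (Nat.succ_pos k)) hF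
        · beta_reduce
          split_ifs <;> norm_num
        · beta_reduce
          split_ifs <;> norm_num
        · intro F hFne hFS
          by_cases hf : BadS g ((∏ p ∈ F, p : ℕ) : ℤ)
          · rw [if_pos hf]
            split_ifs <;> norm_num
          · have hv := hvio F hFne hFS (by rwa [← Nat.cast_prod])
            rw [if_pos hv, if_neg hf]
      have hk := hden' k F (by rwa [hSS] at hF)
      rw [← hSS] at hk
      refine hle.trans (hk.trans ?_)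
      have hρ : ∀ p ∈ F, wt (nz g) p ≤
          if ((Finset.range p).filter fun c : ℕ => (p : ℤ) ∣ g.eval (c : ℤ)).card = g.natDegree then
            (4 * g.natDegree / 2 ^ g.natDegree : ℝ) else 1 := by
        intro p hp
        split_ifs with h
        · haveI : Fact p.Prime := ⟨(hF p hp).1⟩
          refine wt_tot hm g.natDegree ?_
          have h4 : ((g.leadingCoeff : ℤ) : ZMod p) ≠ 0 := by
            rw [Ne, ZMod.intCast_zmod_eq_zero_iff_dvd]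
            exact lc_unit hW.ne hgW (hF p hp).1 (hF p hp).2.1
          rw [NR_card hn h4, ← Zr_card]
          exact h
        · exact (hwt p (hF p hp)).2
      have hprod : ∏ p ∈ F, wt (nz g) p ≤ (4 * g.natDegree / 2 ^ g.natDegree : ℝ) ^ tsp g F := by
        refine (Finset.prod_le_prod (fun p hp => (hwt p (hF p hp)).1) hρ).trans (le_of_eq ?_)
        rw [Finset.prod_ite, Finset.prod_const, Finset.prod_const_one, mul_one]
        rfl
      have hw0 : 0 ≤ ∏ p ∈ F, wt (nz g) p := Finset.prod_nonneg fun p hp => (hwt p (hF p hp)).1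
      have hκ0 := hd.κ0
      refine mul_le_mul ?_ hprod hw0 (by positivity)
      refine mul_le_mul_of_nonneg_right ?_ (by positivity)
      refine mul_le_mul_of_nonneg_left ?_ (by positivity)
      linarith

end Pool.Agent.H30S
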