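import Pool.Agent.H30Q.Main4
import Pool.Agent.H30S.Stm

/-!
# Project HS (helper30): the analytic part for a general property of the twists
-/

set_option autoImplicit false
set_option linter.all false

open Polynomial IsDedekindDomain Matrix NumberField Filter Topology
open scoped Classical

namespace Pool.Agent.H30S

open Pool.Agent.H30Q Pool.Agent.H30Q.AsmP Pool.Agent.H30Q.AsmQ
open Pool.Agent.N874.PP (Ev)

section

variable {L : Type} [Field L] [NumberField L]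

/-- The twists with the property `Bad` have few vectors. -/
def HVb (n W : ℕ) (f : ℤ[X]) (θ : L) (K : ℕ) (Bad : ℕ → Prop) : Prop :=
  ∀ F : Finset ℕ, (∀ p ∈ F, p ∈ SS W f) → ∀ (r : ℕ) (A : Fin r → ℤ[X]), Cl2 W f θ F r A →
  ∃ V : Finset (Fin r → ℤ), V.card ≤ K * ∏ p ∈ F, 2 * zer f p ∧
  ∃ B : ℕ, ∀ q : ℕ, q.Prime → B < q → q % W = 1 % W → q ∉ F →
    ∀ M : Finset ℕ, (∀ m ∈ M, m ∈ SS W f ∧ B < m ∧ m ∉ insert q F ∧ Tot n m f ∧
      ∀ e : ℤ, (m : ℤ) ∣ f.eval e → ∀ i, sgn (A i) m e = 1) →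
    Bad (∏ p ∈ insert q F ∪ M, p) →
    ∃ e : ℤ, (q : ℤ) ∣ f.eval e ∧ (fun i => sgn (A i) q e) ∈ V

lemma HVb.or {n W : ℕ} {f : ℤ[X]} {θ : L} {K K' : ℕ} {Bad Bad' : ℕ → Prop}
    (h : HVb n W f θ K Bad) (h' : HVb n W f θ K' Bad') :
    HVb n W f θ (K + K') (fun E => Bad E ∨ Bad' E) := by
  intro F hF r A hA
  obtain ⟨V, hV, B, hB⟩ := h F hF r A hA
  obtain ⟨V', hV', B', hB'⟩ := h' F hF r A hA
  refine ⟨V ∪ V', (Finset.card_union_le _ _).trans ?_, max B B', ?_⟩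
  · rw [add_mul]
    exact Nat.add_le_add hV hV'
  · intro q hq hqB hqW hqF M hM hbad
    rcases hbad with hb | hb
    · obtain ⟨e, he, h1⟩ := hB q hq (lt_of_le_of_lt (le_max_left _ _) hqB) hqW hqF M (fun m hm => by
        obtain ⟨h1, h2, h3⟩ := hM m hm
        exact ⟨h1, lt_of_le_of_lt (le_max_left _ _) h2, h3⟩) hb
      exact ⟨e, he, Finset.mem_union_left _ h1⟩
    · obtain ⟨e, he, h1⟩ := hB' q hq (lt_of_le_of_lt (le_max_right _ _) hqB) hqW hqF M (fun m hm => by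
        obtain ⟨h1, h2, h3⟩ := hM m hm
        exact ⟨h1, lt_of_le_of_lt (le_max_right _ _) h2, h3⟩) hb
      exact ⟨e, he, Finset.mem_union_right _ h1⟩

lemma HVb.fake {n W : ℕ} {f : ℤ[X]} {θ : L} (hyp : Hy n f) (hθ : Rt n f θ) (hW : GW n f θ W)
    {D₀ : ℤ} (hDW : D₀ ∣ (W : ℤ)) : HVb n W f θ 1 (fun E => HasFake f (D₀ * (E : ℤ))) := by
  intro F hF r A hA
  obtain ⟨V, hV, B, hB⟩ := bad_of_fake3 t_EEQ t_GMB (t_PRF t_GMA t_GMB) t_HEN t_REA
    (t_GPT t_GMA t_GMB t_EEQ t_UNI t_HEN) (t_PI t_HEN) t_EVN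
    (t_QPG t_GMA t_GMB (t_BLK t_HS t_GMA t_GMB) t_LEG t_UNI) hyp hθ hW hDW hF hA
  refine ⟨V, by rw [one_mul]; exact hV, B, fun q hq hqB hqW hqF M hM hbad => ?_⟩
  refine hB q hq hqB hqW hqF M (fun m hm => ?_) ?_
  · obtain ⟨h1, h2, h3, -, h4⟩ := hM m hm
    exact ⟨h1, h2, h3, h4⟩
  · beta_reduce at hbad
    rwa [Nat.cast_prod] at hbad

/-- The elements of `SS W f` have positive density and small mean weight. -/
structure Den (W : ℕ) (f : ℤ[X]) (κ c₀ : ℝ) : Prop where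
  wt : ∀ q ∈ SS W f, 0 ≤ wt f q ∧ wt f q ≤ 1
  κ0 : 0 ≤ κ
  κ1 : κ < 1
  lim : Tendsto (avg (SS W f) (H30Q.wt f)) atTop (𝓝 κ)
  c0 : 0 < c₀
  low : ∀ᶠ x : ℕ in atTop, c₀ * (Nat.primeCounting x : ℝ) ≤ (upTo (SS W f) x).card

lemma Den.tend {W : ℕ} {f : ℤ[X]} {κ c₀ : ℝ} (h : Den W f κ c₀) :
    Tendsto (fun x : ℕ => ((upTo (SS W f) x).card : ℝ)) atTop atTop := by
  have h1 : Tendsto (fun x : ℕ => c₀ * (Nat.primeCounting x : ℝ)) atTop atTop :=
    (tendsto_natCast_atTop_atTop.comp Nat.tendsto_primeCounting).const_mul_atTop h.c0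
  exact tendsto_atTop_mono' _ h.low h1

lemma wtV_le {n W c K r : ℕ} {f : ℤ[X]} {F : Finset ℕ} {V : Finset (Fin r → ℤ)}
    (hV1 : V.card ≤ K * ∏ p ∈ F, 2 * zer f p)
    (hr : 2 ^ (∑ p ∈ F, fac f p) ≤ c * 2 ^ (r + F.card)) :
    (n : ℝ) * V.card / 2 ^ r ≤ (n * c * K : ℝ) * ∏ p ∈ F, wt f p := by
  have h1 : (V.card : ℝ) ≤ K * ∏ p ∈ F, (2 * (zer f p : ℝ)) := by exact_mod_cast hV1
  have h2 : (∏ p ∈ F, (2 : ℝ) ^ fac f p) ≤ c * (2 ^ r * 2 ^ F.card) := by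
    rw [Finset.prod_pow_eq_pow_sum, ← pow_add]
    exact_mod_cast hr
  have h3 : ∏ p ∈ F, wt f p = (∏ p ∈ F, (2 * (zer f p : ℝ))) * 2 ^ F.card /
      ∏ p ∈ F, (2 : ℝ) ^ fac f p := by
    rw [← Finset.prod_const, ← Finset.prod_mul_distrib, ← Finset.prod_div_distrib]
    refine Finset.prod_congr rfl fun p _ => ?_
    unfold wt
    ring
  have h4 : 0 < ∏ p ∈ F, (2 : ℝ) ^ fac f p := Finset.prod_pos fun p _ => by positivity
  have h5 : 0 ≤ ∏ p ∈ F, (2 * (zer f p : ℝ)) := Finset.prod_nonneg fun p _ => by positivity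
  rw [h3, div_le_iff₀ (by positivity)]
  have h6 : (n : ℝ) * V.card ≤ n * (K * ∏ p ∈ F, (2 * (zer f p : ℝ))) :=
    mul_le_mul_of_nonneg_left h1 (by positivity)
  refine h6.trans ?_
  rw [mul_div_assoc', div_mul_eq_mul_div, le_div_iff₀ h4]
  have h7 : (n : ℝ) * (K * ∏ p ∈ F, (2 * (zer f p : ℝ))) * (∏ p ∈ F, (2 : ℝ) ^ fac f p) ≤
      n * (K * ∏ p ∈ F, (2 * (zer f p : ℝ))) * (c * (2 ^ r * 2 ^ F.card)) :=
    mul_le_mul_of_nonneg_left h2 (by positivity)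
  refine h7.trans (le_of_eq ?_)
  ring

lemma ind_W {n W r : ℕ} {f : ℤ[X]} {θ : L} (hW : GW n f θ W) {F : Finset ℕ}
    (hF : ∀ p ∈ F, p ∈ SS W f) {A : Fin r → ℤ[X]} (hA : Cl2 W f θ F r A) :
    ∀ I : Finset (Fin r), I.Nonempty → ∃ 𝔓 : HeightOneSpectrum (𝓞 L), (W : 𝓞 L) ∉ 𝔓.asIdeal ∧
    ¬ Ev 𝔓 (∏ i ∈ I, aeval θ (A i)) := by
  intro I hI
  obtain ⟨𝔓, ⟨p, hp, hmem⟩, hne⟩ := hA.ind I hI
  refine ⟨𝔓, fun hWm => ?_, hne⟩
  have hpW : ¬ p ∣ W := SS_W hW.ne hW.eight (hF p hp).1 (hF p hp).2.1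
  have hco : IsCoprime (p : ℤ) (W : ℤ) := by
    rw [(Nat.prime_iff_prime_int.1 (hF p hp).1).coprime_iff_not_dvd]
    intro h2
    exact hpW (by exact_mod_cast h2)
  obtain ⟨a, b, hab⟩ := hco
  have h1 : (1 : 𝓞 L) ∈ 𝔓.asIdeal := by
    have h2 : (1 : 𝓞 L) = (a : 𝓞 L) * (p : 𝓞 L) + (b : 𝓞 L) * (W : 𝓞 L) := by
      have := congrArg (Int.cast : ℤ → 𝓞 L) hab
      push_cast at this
      exact this.symm
    rw [h2]
    exact Ideal.add_mem _ (Ideal.mul_mem_left _ _ hmem) (Ideal.mul_mem_left _ _ hWm)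
  exact 𝔓.isPrime.ne_top ((Ideal.eq_top_iff_one _).2 h1)

/-- The densities. -/
theorem dens {n W : ℕ} {f : ℤ[X]} {θ : L} (hyp : Hy n f) (hθ : Rt n f θ) (hW : GW n f θ W)
    {κ c₀ : ℝ} (hd : Den W f κ c₀) :
    ∃ c : ℕ, 0 < c ∧ ∀ (K : ℕ) (Bad : ℕ → Prop), HVb n W f θ K Bad →
      ∀ (k : ℕ) (F : Finset ℕ), (∀ p ∈ F, p ∈ SS W f) →
        It (SS W f) (fun F => if Bad (∏ p ∈ F, p) then 1 else 0) (k + 1) F ≤
        (n * c * K : ℝ) * κ ^ k * ∏ p ∈ F, H30Q.wt f p := by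
  have hn : 1 ≤ n := by have := hyp.six; omega
  obtain ⟨c, hc, hPG⟩ := t_PGC t_LINU t_KD n W f L θ hn hθ hW
  refine ⟨c, hc, fun K Bad hB => ?_⟩
  have hSSW : ∀ q ∈ SS W f, ¬ q ∣ W := fun q hq => SS_W hW.ne hW.eight hq.1 hq.2.1
  have htend := hd.tend
  have hcore : ∀ F : Finset ℕ, (∀ p ∈ F, p ∈ SS W f) → ∀ η : ℝ, 0 < η → ∀ᶠ x : ℕ in atTop,
      (((upTo (SS W f) x).filter fun q : ℕ => q ∉ F ∧
        Bad (∏ p ∈ insert q F, p)).card : ℝ) ≤
      ((n * c * K : ℝ) * ∏ p ∈ F, H30Q.wt f p + η) * (upTo (SS W f) x).card := by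
    intro F hF η hη
    obtain ⟨r, A, hA, hr⟩ := hPG F fun p hp => ⟨(hF p hp).1, hSSW p (hF p hp)⟩
    obtain ⟨V, hV1, B, hB⟩ := hB F hF r A hA
    have hev := t_CH2 n W f L θ hn hθ hW r A hA.ne (ind_W hW hF hA) V (η / 2) (by positivity)
    have hlarge := htend.eventually_ge_atTop ((B + 1 : ℕ) / (η / 2) : ℝ)
    filter_upwards [hev, hlarge] with x hx1 hx2
    have hsub : (upTo (SS W f) x).filter (fun q : ℕ => q ∉ F ∧
        Bad (∏ p ∈ insert q F, p)) ⊆ Finset.range (B + 1) ∪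
        (upTo (SS W f) x).filter fun q : ℕ => ∃ e : ℤ, (q : ℤ) ∣ f.eval e ∧
          (fun i => sgn (A i) q e) ∈ V := by
      intro q hq
      obtain ⟨hq1, hq2, hq3⟩ := Finset.mem_filter.1 hq
      have hqS : q ∈ SS W f := (Finset.mem_filter.1 hq1).2
      by_cases hqB : q ≤ B
      · exact Finset.mem_union_left _ (Finset.mem_range.2 (by omega))
      · refine Finset.mem_union_right _ (Finset.mem_filter.2 ⟨hq1,
          hB q hqS.1 (by omega) hqS.2.1 hq2 ∅ (fun m hm => absurd hm (Finset.notMem_empty _)) ?_⟩)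
        rw [Finset.union_empty]
        exact hq3
    have hcard : (((upTo (SS W f) x).filter fun q : ℕ => q ∉ F ∧
        Bad (∏ p ∈ insert q F, p)).card : ℝ) ≤ (B + 1 : ℕ) +
        (((upTo (SS W f) x).filter fun q : ℕ => ∃ e : ℤ, (q : ℤ) ∣ f.eval e ∧
          (fun i => sgn (A i) q e) ∈ V).card : ℝ) := by
      have h1 := (Finset.card_le_card hsub).trans (Finset.card_union_le _ _)
      rw [Finset.card_range] at h1
      exact_mod_cast h1
    have hB2 : ((B + 1 : ℕ) : ℝ) ≤ η / 2 * (upTo (SS W f) x).card := by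
      rw [div_le_iff₀ (by positivity)] at hx2
      linarith
    have hwtV := wtV_le (n := n) (W := W) hV1 hr
    calc _ ≤ ((B + 1 : ℕ) : ℝ) + _ := hcard
      _ ≤ η / 2 * (upTo (SS W f) x).card + ((n : ℝ) * V.card / 2 ^ r + η / 2) *
          (upTo (SS W f) x).card := add_le_add hB2 hx1
      _ = ((n : ℝ) * V.card / 2 ^ r + η) * (upTo (SS W f) x).card := by ring
      _ ≤ _ := by
        refine mul_le_mul_of_nonneg_right ?_ (Nat.cast_nonneg _)
        linarith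
  intro k F₀ hF₀
  have hinf : (SS W f).Infinite := by
    intro hfin
    obtain ⟨x, hx⟩ := (htend.eventually_ge_atTop ((hfin.toFinset.card : ℝ) + 1)).exists
    have h1 : upTo (SS W f) x ⊆ hfin.toFinset := by
      intro q hq
      exact hfin.mem_toFinset.2 (Finset.mem_filter.1 hq).2
    have h2 : ((upTo (SS W f) x).card : ℝ) ≤ hfin.toFinset.card := by
      exact_mod_cast Finset.card_le_card h1
    linarith
  exact t_ITR (SS W f) (fun F => if Bad (∏ p ∈ F, p) then 1 else 0)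
    (H30Q.wt f) (n * c * K) κ hinf (by positivity) hd.κ0 (fun F => by split_ifs <;> norm_num)
    (fun q hq => (hd.wt q hq).1) hd.lim (by
      intro F hF η hη
      filter_upwards [hcore F hF η hη] with x hx
      refine le_trans (le_of_eq ?_) hx
      rw [Finset.sum_boole, Finset.filter_filter]) k F₀ hF₀

/-- The number of the twists. -/
theorem cnt (hCH4 : S_CH4) {n W : ℕ} {f : ℤ[X]} {θ : L} (hyp : Hy n f) (hθ : Rt n f θ)
    (hW : GW n f θ W) {κ c₀ : ℝ} (hd : Den W f κ c₀) {K : ℕ} {Bad : ℕ → Prop}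
    (hHV : HVb n W f θ K Bad) {T : ℕ} (hTW' : T ∣ W) :
    ∃ δ : ℝ, 0 < δ ∧ ∀ᶠ X : ℕ in atTop, (X : ℝ) / Real.log X ^ (1 - δ) ≤
      (((Finset.range (X + 1)).filter fun E : ℕ => E % T = 1 % T ∧ ¬ Bad E ∧
        ∃ F : Finset ℕ, F.Nonempty ∧ (∀ p ∈ F, p ∈ SS W f) ∧ ∏ p ∈ F, p = E).card : ℝ) := by
  have hn : 1 ≤ n := by have := hyp.six; omega
  obtain ⟨c, hc, hPG⟩ := t_PGC t_LINU t_KD n W f L θ hn hθ hW
  have hSSW : ∀ q ∈ SS W f, ¬ q ∣ W := fun q hq => SS_W hW.ne hW.eight hq.1 hq.2.1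
  have htend := hd.tend
  have hκ1 := hd.κ1
  have hκ0 := hd.κ0
  -- the set `F`
  obtain ⟨k, hk⟩ := exists_pow_lt_of_lt_one (show (0 : ℝ) < 1 / (4 * (n * c * (K + 1))) by positivity)
    (show (1 + κ) / 2 < 1 by linarith)
  obtain ⟨F, hF, hFk⟩ := exists_set hκ1 hd.lim htend hκ0 (fun q hq => (hd.wt q hq).1) k
  have hw0 : 0 ≤ ∏ p ∈ F, H30Q.wt f p := Finset.prod_nonneg fun p hp => (hd.wt p (hF p hp)).1
  have hsmall : (n * c * K : ℝ) * ∏ p ∈ F, H30Q.wt f p < 1 / 4 := by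
    have h1 : ∏ p ∈ F, H30Q.wt f p < 1 / (4 * (n * c * (K + 1))) := lt_of_le_of_lt hFk hk
    have h2 : (0 : ℝ) < n * c * (K + 1) := by positivity
    calc (n * c * K : ℝ) * ∏ p ∈ F, H30Q.wt f p ≤ (n * c * (K + 1) : ℝ) * ∏ p ∈ F, H30Q.wt f p := by
          refine mul_le_mul_of_nonneg_right ?_ hw0
          have : (0 : ℝ) ≤ n * c := by positivity
          nlinarith
      _ < (n * c * (K + 1) : ℝ) * (1 / (4 * (n * c * (K + 1)))) := mul_lt_mul_of_pos_left h1 h2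
      _ = 1 / 4 := by field_simp
  obtain ⟨r, A, hA, hr⟩ := hPG F fun p hp => ⟨(hF p hp).1, hSSW p (hF p hp)⟩
  obtain ⟨V, hV1, B, hB⟩ := hHV F hF r A hA
  have hwtV := wtV_le (n := n) (W := W) hV1 hr
  -- the prime `q`
  obtain ⟨q, hqS, hqF, hqB, hq⟩ : ∃ q ∈ SS W f, q ∉ F ∧ B < q ∧
      ∀ e : ℤ, (q : ℤ) ∣ f.eval e → (fun i => sgn (A i) q e) ∉ V := by
    have hev := t_CH2 n W f L θ hn hθ hW r A hA.ne (ind_W hW hF hA) V (1 / 4) (by norm_num)
    obtain ⟨x, hx1, hx2⟩ := (hev.and (htend.eventually_gt_atTop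
      (4 * ((B + 1 : ℕ) + F.card) : ℝ))).exists
    by_contra hcon
    push Not at hcon
    have hsub : upTo (SS W f) x ⊆ (Finset.range (B + 1) ∪ F) ∪
        (upTo (SS W f) x).filter fun q : ℕ => ∃ e : ℤ, (q : ℤ) ∣ f.eval e ∧
          (fun i => sgn (A i) q e) ∈ V := by
      intro q hq
      by_cases hqB : q ≤ B
      · exact Finset.mem_union_left _ (Finset.mem_union_left _ (Finset.mem_range.2 (by omega)))
      by_cases hqF : q ∈ F
      · exact Finset.mem_union_left _ (Finset.mem_union_right _ hqF)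
      exact Finset.mem_union_right _ (Finset.mem_filter.2 ⟨hq,
        hcon q (Finset.mem_filter.1 hq).2 hqF (by omega)⟩)
    have hcard : ((upTo (SS W f) x).card : ℝ) ≤ ((B + 1 : ℕ) + F.card) +
        (((upTo (SS W f) x).filter fun q : ℕ => ∃ e : ℤ, (q : ℤ) ∣ f.eval e ∧
          (fun i => sgn (A i) q e) ∈ V).card : ℝ) := by
      have h1 := (Finset.card_le_card hsub).trans (Finset.card_union_le _ _)
      have h2 := Finset.card_union_le (Finset.range (B + 1)) F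
      rw [Finset.card_range] at h2
      have h3 := h1.trans (Nat.add_le_add_right h2 _)
      exact_mod_cast h3
    have h9 : ((n : ℝ) * V.card / 2 ^ r + 1 / 4) * (upTo (SS W f) x).card ≤
        1 / 2 * (upTo (SS W f) x).card := by
      refine mul_le_mul_of_nonneg_right ?_ (Nat.cast_nonneg _)
      linarith
    linarith
  -- the set of primes
  obtain ⟨c₁, hc₁, hcnt₁⟩ := hCH4 n W f L θ hn hθ hW r A hA.ne
  set S₁ : Set ℕ := {m | m ∈ SS W f ∧ B < m ∧ m ∉ insert q F ∧ Tot n m f ∧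
        ∀ e : ℤ, (m : ℤ) ∣ f.eval e → ∀ i, sgn (A i) m e = 1} with hS₁
  have hS₁c : ∀ᶠ x : ℕ in atTop, c₁ / 2 * (Nat.primeCounting x : ℝ) ≤ ((upTo S₁ x).card : ℝ) := by
    have hpi : Tendsto (fun x : ℕ => c₁ / 2 * (Nat.primeCounting x : ℝ)) atTop atTop :=
      (tendsto_natCast_atTop_atTop.comp Nat.tendsto_primeCounting).const_mul_atTop (by positivity)
    filter_upwards [hcnt₁, hpi.eventually_ge_atTop (((B + 1 : ℕ) + (insert q F).card : ℕ) : ℝ)]
      with x hx1 hx2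
    have hsub : ((upTo (SS W f) x).filter fun q : ℕ => Tot n q f ∧ ∀ e : ℤ, (q : ℤ) ∣ f.eval e →
        ∀ i, sgn (A i) q e = 1) ⊆ (Finset.range (B + 1) ∪ insert q F) ∪ upTo S₁ x := by
      intro m hm
      obtain ⟨hm1, hm2⟩ := Finset.mem_filter.1 hm
      by_cases hmB : m ≤ B
      · exact Finset.mem_union_left _ (Finset.mem_union_left _ (Finset.mem_range.2 (by omega)))
      by_cases hmF : m ∈ insert q F
      · exact Finset.mem_union_left _ (Finset.mem_union_right _ hmF)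
      exact Finset.mem_union_right _ (mem_upTo.2 ⟨(mem_upTo.1 hm1).1,
        (mem_upTo.1 hm1).2, by omega, hmF, hm2⟩)
    have h1 := (Finset.card_le_card hsub).trans (Finset.card_union_le _ _)
    have h2 := Finset.card_union_le (Finset.range (B + 1)) (insert q F)
    rw [Finset.card_range] at h2
    have h3 := h1.trans (Nat.add_le_add_right h2 _)
    have h4 : (((upTo (SS W f) x).filter fun q : ℕ => Tot n q f ∧ ∀ e : ℤ, (q : ℤ) ∣ f.eval e →
        ∀ i, sgn (A i) q e = 1).card : ℝ) ≤ (((B + 1 : ℕ) + (insert q F).card : ℕ) : ℝ) +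
          ((upTo S₁ x).card : ℝ) := by exact_mod_cast h3
    linarith
  obtain ⟨δ, hδ, hδc⟩ := t_CNT S₁ (c₁ / 2) (fun p hp => hp.1.1) (by positivity) hS₁c
  have hU : ∀ p ∈ insert q F, p ∈ SS W f := by
    intro p hp
    rcases Finset.mem_insert.1 hp with rfl | hp
    · exact hqS
    · exact hF p hp
  have hUpr : ∀ p ∈ insert q F, p.Prime := fun p hp => (hU p hp).1
  set E₀ : ℕ := ∏ p ∈ insert q F, p with hE₀
  have hE₀0 : 0 < E₀ := Finset.prod_pos fun p hp => (hUpr p hp).pos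
  refine final_count hδ hE₀0 (g := fun X => (sqf S₁ X).card) hδc (fun X => ?_)
  refine Finset.card_le_card_of_injOn (fun m => E₀ * m) ?_ ?_
  · intro m hm
    obtain ⟨hm1, hm2, hm3⟩ := Finset.mem_filter.1 (Finset.mem_coe.1 hm)
    have hmX : E₀ * m ≤ X := by
      have h1 : m ≤ X / E₀ := by
        have := Finset.mem_range.1 hm1
        omega
      calc E₀ * m ≤ E₀ * (X / E₀) := Nat.mul_le_mul_left _ h1
        _ ≤ X := Nat.mul_div_le _ _
    have hMS : ∀ p ∈ m.primeFactors, p ∈ S₁ := fun p hp =>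
      hm3 p (Nat.prime_of_mem_primeFactors hp) (Nat.dvd_of_mem_primeFactors hp)
    have hMm : ∏ p ∈ m.primeFactors, p = m := Nat.prod_primeFactors_of_squarefree hm2
    have hdis : Disjoint (insert q F) m.primeFactors := by
      rw [Finset.disjoint_left]
      intro p hp hpM
      exact (hMS p hpM).2.2.1 hp
    have hUM : ∏ p ∈ insert q F ∪ m.primeFactors, p = E₀ * m := by
      rw [Finset.prod_union hdis, hMm]
    have hall : ∀ p ∈ insert q F ∪ m.primeFactors, p ∈ SS W f := by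
      intro p hp
      rcases Finset.mem_union.1 hp with hp | hp
      · exact hU p hp
      · exact (hMS p hp).1
    rw [Finset.mem_coe, Finset.mem_filter]
    refine ⟨Finset.mem_range.2 (Nat.lt_succ_of_le hmX), ?_, ?_, ?_⟩
    · have h1 : (W : ℤ) ∣ ((E₀ * m : ℕ) : ℤ) - 1 := by
        rw [← hUM]
        exact prod_mod _ fun p hp => (hall p hp).2.1
      have h2 : (T : ℤ) ∣ ((E₀ * m : ℕ) : ℤ) - 1 := (Int.natCast_dvd_natCast.2 hTW').trans h1
      have h3 : (1 : ℕ) ≡ E₀ * m [MOD T] := (Nat.modEq_iff_dvd).2 (by simpa using h2)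
      exact h3.symm
    · intro hbad
      replace hbad : Bad (E₀ * m) := hbad
      rw [← hUM] at hbad
      obtain ⟨e, he1, he2⟩ := hB q hqS.1 hqB hqS.2.1 hqF m.primeFactors (fun p hp => hMS p hp) hbad
      exact hq e he1 he2
    · exact ⟨insert q F ∪ m.primeFactors, ⟨q, Finset.mem_union_left _ (Finset.mem_insert_self _ _)⟩,
        hall, hUM⟩
  · intro a _ b _ hab
    exact Nat.eq_of_mul_eq_mul_left hE₀0 hab

end

end Pool.Agent.H30S
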