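import Pool.Agent.H30S.AT
import Pool.Agent.H30S.Mn

/-!
# Project HS (helper30): few vectors for the twists with a section
-/

set_option autoImplicit false
set_option linter.all false

open Polynomial IsDedekindDomain Matrix NumberField Filter Topology
open scoped Classical

namespace Pool.Agent.H30S

open Pool.Agent.H30Q Pool.Agent.H30Q.AsmP Pool.Agent.H30Q.AsmQ
open Pool.Agent.N874.PP (Ev)
open Pool.Agent.Q51.EL (Abv Ty1 Ty2)
open Pool.Agent.Q161.SX (HasSec)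

section

variable {L : Type} [Field L] [NumberField L]

lemma HVb.sec (hBDS : P_BDS) (hPLA : S_PLA) (hPLB : S_PLB) (hRAD : S_RAD) (hVE : S_VE)
    (hLSQ : S_LSQ) {n W : ℕ} {f : ℤ[X]} {θ : L} (hyp : Hy n f) (hθ : Rt n f θ) (hW : GW n f θ W)
    {g : ℤ[X]} {N M : ℕ} {c : ℝ} (hC : 0 < c) (hM : c ^ n ≤ M)
    (hMW : ∀ l : ℕ, l.Prime → l ≤ M → l ∣ W) {T : Fin N → Set (𝓞 L)} {B : ℕ} (hBW : B ∣ W)
    (hT : ∀ k, ∀ l : ℕ, l.Prime → ¬ l ∣ B → Ty1 l (T k) ∧ Ty2 l (T k))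
    (hD : ∀ D : ℤ, Squarefree D → HasSec.{0, 0} g D → ∃ k, ∃ α ∈ T k,
      (∀ l : ℕ, l.Prime → ¬ l ∣ B → ((l : ℤ) ∣ D ↔
        ∃ v : HeightOneSpectrum (𝓞 L), Abv v l ∧ α ∈ v.asIdeal)) ∧
      ∀ σ : L →+* ℂ, ‖σ (α : L)‖ ≤ c * (D.natAbs : ℝ) ^ ((1 : ℝ) / n)) :
    HVb n W f θ (N * (2 * M + 1)) (fun E => HasSec.{0, 0} g (E : ℤ)) := by
  intro F hF r A hA
  have hSSW : ∀ q ∈ SS W f, ¬ q ∣ W := fun q hq => SS_W hW.ne hW.eight hq.1 hq.2.1
  have hFW : ∀ p ∈ F, p.Prime ∧ ¬ p ∣ W := fun p hp => ⟨(hF p hp).1, hSSW p (hF p hp)⟩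
  have hBl : ∀ l : ℕ, ¬ l ∣ W → ¬ l ∣ B := fun l h1 h2 => h1 (h2.trans hBW)
  have h6 : 6 ≤ n := hyp.six
  obtain ⟨V, hV, B', hB'⟩ := hBDS n W f L θ h6 hyp.even hθ hW F hFW r A hA M N
    (fun k => {Y | ∃ α ∈ T k, (W : L) * (α : L) = aeval θ Y}) (by
      rintro k Y ⟨α, hα, hY⟩ Y' ⟨α', hα', hY'⟩ p hp hpW e he h1 h2
      exact hPLB hRAD hVE n W f L θ hθ hW (T k) p hp hpW (hT k p hp (hBl p hpW)).2 α hα α' hα' Y Y'
        hY hY' e he h1 h2)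
  have hAc : ∀ i, IsCoprime (ov ℚ (A i)) (ov ℚ f) := fun i => cop_of hθ (hA.ne i)
  choose b hb using fun i => cop_mod hyp.mon (hAc i)
  obtain ⟨b', hb'⟩ : ∃ b' : ℕ, ∀ i, b i ≤ b' := ⟨∑ i, b i, fun i =>
    Finset.single_le_sum (fun _ _ => Nat.zero_le _) (Finset.mem_univ i)⟩
  refine ⟨V, hV, max B' b', fun q hq hqB hqW hqF Ms hMs hbad => ?_⟩
  replace hbad : HasSec.{0, 0} g ((∏ p ∈ insert q F ∪ Ms, p : ℕ) : ℤ) := hbad
  have hqW' : ¬ q ∣ W := SS_W hW.ne hW.eight hq hqW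
  have hMp : ∀ m ∈ Ms, m.Prime := fun m hm => (hMs m hm).1.1
  have hFp : ∀ m ∈ F, m.Prime := fun m hm => (hFW m hm).1
  have hl : ∀ l : ℕ, l.Prime → l ∣ ∏ m ∈ Ms, m → l ∈ Ms := by
    intro l hl h
    obtain ⟨m, hm, h1⟩ := (Prime.dvd_finset_prod_iff hl.prime _).1 h
    rwa [(Nat.prime_dvd_prime_iff_eq hl (hMp m hm)).1 h1]
  have hdis : Disjoint (insert q F) Ms := by
    rw [Finset.disjoint_left]
    intro p hp hpM
    exact (hMs p hpM).2.2.1 hp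
  have hE : ((∏ p ∈ insert q F ∪ Ms, p : ℕ) : ℤ) =
      (∏ p ∈ F, (p : ℤ)) * (q * ((∏ m ∈ Ms, m : ℕ) : ℤ)) := by
    rw [Finset.prod_union hdis, Finset.prod_insert hqF]
    push_cast
    ring
  have hall : ∀ p ∈ insert q F ∪ Ms, p.Prime := by
    intro p hp
    rcases Finset.mem_union.1 hp with hp | hp
    · rcases Finset.mem_insert.1 hp with rfl | hp
      · exact hq
      · exact hFp p hp
    · exact hMp p hp
  have hallW : ∀ p ∈ insert q F ∪ Ms, ¬ p ∣ W := by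
    intro p hp
    rcases Finset.mem_union.1 hp with hp | hp
    · rcases Finset.mem_insert.1 hp with rfl | hp
      · exact hqW'
      · exact (hFW p hp).2
    · exact hSSW p (hMs p hp).1
  have hsqf : ∀ S : Finset ℕ, (∀ p ∈ S, p.Prime) → Squarefree (∏ p ∈ S, p) := by
    intro S hS
    refine Finset.squarefree_prod_of_pairwise_isCoprime ?_ fun p hp => (hS p hp).squarefree
    intro p hp p' hp' hne
    exact Nat.coprime_iff_isRelPrime.1 ((Nat.coprime_primes (hS p hp) (hS p' hp')).2 hne)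
  refine hB' q (∏ m ∈ Ms, m) hq (lt_of_le_of_lt (le_max_left _ _) hqB) hqW' hqF ?_ (hsqf Ms hMp) ?_ ?_
  · intro h
    exact (hMs q (hl q hq h)).2.2.1 (Finset.mem_insert_self _ _)
  · intro l hlp hld
    have hlM := hl l hlp hld
    obtain ⟨h1, h2, h3, h4, h5⟩ := hMs l hlM
    have hlW : ¬ l ∣ W := hSSW l h1
    refine ⟨fun h => h3 (Finset.mem_insert_of_mem h), hlW, fun i => ?_⟩
    haveI : Fact l.Prime := ⟨hlp⟩
    have hl2 : l ≠ 2 := by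
      rintro rfl
      exact hlW ((by norm_num : 2 ∣ 8).trans hW.eight)
    exact (hLSQ t_GMB t_HEN l hl2 n f (A i) (by omega) hyp.mon hyp.deg (hW.sep l hlp hlW)
      (hb i l hlp ((hb' i).trans_lt (lt_of_le_of_lt (le_max_right _ _) h2)))).1 h4
      (fun e he => h5 e he i)
  · obtain ⟨k, α, hα, h1, h2⟩ := hD _ (Int.squarefree_natCast.2 (hsqf _ hall)) hbad
    obtain ⟨Y, hY⟩ := hW.ord α
    refine ⟨k, Y, ⟨α, hα, hY⟩, ?_⟩
    rw [← hE]
    refine hPLA hVE n W f L θ (by omega) hθ hW M c hC hM hMW (T k)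
      (fun l hlp hlW => (hT k l hlp (hBl l hlW)).1) α hα _ (Int.squarefree_natCast.2 (hsqf _ hall)) ?_
      (fun l hlp hlW => h1 l hlp (hBl l hlW)) h2 Y hY
    intro l hlp hlW hld
    have h3 : l ∣ ∏ p ∈ insert q F ∪ Ms, p := by exact_mod_cast hld
    obtain ⟨m, hm, h4⟩ := (Prime.dvd_finset_prod_iff hlp.prime _).1 h3
    exact hallW m hm ((Nat.prime_dvd_prime_iff_eq hlp (hall m hm)).1 h4 ▸ hlW)

end

end Pool.Agent.H30S
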