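import Pool.Agent.H30S.Fin

/-!
# Project HS (helper30): from the property `VioS` to the absence of all sections
-/

set_option autoImplicit false
set_option linter.all false

open Polynomial

namespace Pool.Agent.H30S

open Pool.Agent.H30Q
open Pool.Agent.Q161.SX (HasSec)
open Pool.Agent.Q51.EL (CurvePt hom)
open Pool.Agent.W620.SC (GSection unramified)

lemma noCurvePt {g : ℤ[X]} {E : ℤ} (hev : Even g.natDegree) (hE : E ≠ 0) (hv : Vio g E) :
    ¬ CurvePt g E ℚ := by
  rintro ⟨x, w, y, hxw, h⟩
  have hE' : (E : ℚ) ≠ 0 := Int.cast_ne_zero.2 hE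
  obtain ⟨m, hm⟩ := hev
  by_cases hw : w = 0
  · have hx : x ≠ 0 := hxw.resolve_right (fun h => h hw)
    have h1 : hom g x w = (g.leadingCoeff : ℚ) * x ^ g.natDegree := by
      unfold Pool.Agent.Q51.EL.hom
      rw [Finset.sum_eq_single g.natDegree, Nat.sub_self, pow_zero, mul_one]
      · rfl
      · intro i hi hne
        have h2 : g.natDegree - i ≠ 0 := by
          have := Finset.mem_range.1 hi
          omega
        rw [hw, zero_pow h2, mul_zero]
      · intro h2
        exact absurd (Finset.mem_range.2 (Nat.lt_succ_self _)) h2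
    rw [h1, hm] at h
    apply hv.noPointInf
    have h3 : IsSquare (((E * g.leadingCoeff : ℤ)) : ℚ) := by
      refine ⟨(E : ℚ) * y / x ^ m, ?_⟩
      have h4 : x ^ m ≠ 0 := pow_ne_zero _ hx
      field_simp
      push_cast
      rw [pow_add] at h
      linear_combination (-(E : ℚ)) * h
    exact Rat.isSquare_intCast_iff.1 h3
  · have h1 : hom g x w = w ^ g.natDegree * (ov ℚ g).eval (x / w) := by
      unfold Pool.Agent.Q51.EL.hom
      show _ = _ * (g.map (Int.castRingHom ℚ)).eval (x / w)
      rw [eval_map, eval₂_eq_sum_range, Finset.mul_sum]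
      refine Finset.sum_congr rfl fun i hi => ?_
      have h2 : w ^ g.natDegree = w ^ i * w ^ (g.natDegree - i) := by
        rw [← pow_add, Nat.add_sub_cancel' (Nat.lt_succ_iff.1 (Finset.mem_range.1 hi))]
      have h3 : w ^ i ≠ 0 := pow_ne_zero _ hw
      rw [h2, div_pow]
      field_simp
      simp [mul_comm]
    rw [h1, hm] at h
    refine hv.noPoint ⟨x / w, (E : ℚ) * y / w ^ m, ?_⟩
    have h4 : w ^ m ≠ 0 := pow_ne_zero _ hw
    rw [div_pow, div_eq_iff (pow_ne_zero _ h4)]
    rw [pow_add] at h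
    linear_combination (E : ℚ) * h

/-- No sections. -/
theorem noSec {g : ℤ[X]} {E : ℤ} (hev : Even g.natDegree) (hE : E ≠ 0) (hv : VioS g E)
    {F Ω : Type} [Field F] [Field Ω] [Algebra ℚ F] [Algebra F Ω] [Algebra ℚ Ω]
    [IsScalarTower ℚ F Ω] [IsAlgClosed Ω] [Algebra.IsAlgebraic F Ω] (x y : F)
    (U : Set (ValuationSubring F)) (hxy : y ^ 2 = (E : F) * aeval x g)
    (hU : ∀ O ∈ U, ∀ c : ℚ, algebraMap ℚ F c ∈ O) (G : GSection ℚ F Ω U) : False := by
  haveI : CharZero F := charZero_of_injective_algebraMap (algebraMap ℚ F).injective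
  have hE' : (E : F) ≠ 0 := Int.cast_ne_zero.2 hE
  have hxy' : (E : F) * (y / (E : F)) ^ 2 = aeval x g := by
    rw [div_pow, hxy]
    field_simp
  by_cases hx : Transcendental ℚ x
  · exact hv.sec ⟨F, Ω, inferInstance, inferInstance, inferInstance, inferInstance, inferInstance,
      inferInstance, inferInstance, inferInstance, U, x, y / (E : F), hU, ⟨G⟩, hxy', hx⟩
  · exact noCurvePt hev hE hv.vio
      (Pool.Agent.Q161.SX.curvePt_of_alg hE U hU G x (y / (E : F)) hxy' hx)

end Pool.Agent.H30S
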